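import Pool.Agent.Hhelper95.RWDP.Energy

/-!
# Balls, boundaries and the Cheeger inequality
-/

open Finset Classical

set_option linter.unusedSectionVars false

namespace Pool.Agent.Hhelper95.RWDP

universe u

variable {V : Type u} {G : SimpleGraph V} [G.LocallyFinite]

/-- balls -/
noncomputable def bl (G : SimpleGraph V) [G.LocallyFinite] : ℕ → V → Finset V
  | 0, x => {x}
  | n + 1, x => bl G n x ∪ (bl G n x).biUnion fun y => G.neighborFinset y

lemma bl_zero (x : V) : bl G 0 x = {x} := rfl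

lemma bl_succ (n : ℕ) (x : V) : bl G (n + 1) x = bl G n x ∪ (bl G n x).biUnion fun y => G.neighborFinset y := rfl

lemma mem_bl_succ {n : ℕ} {x z : V} : z ∈ bl G (n + 1) x ↔ z ∈ bl G n x ∨ ∃ y ∈ bl G n x, G.Adj y z := by
  rw [bl_succ]; simp

lemma bl_mono_succ (n : ℕ) (x : V) : bl G n x ⊆ bl G (n + 1) x := Finset.subset_union_left

lemma bl_mono {n m : ℕ} (h : n ≤ m) (x : V) : bl G n x ⊆ bl G m x := by
  induction h with
  | refl => exact Finset.Subset.refl _
  | step _ ih => exact ih.trans (bl_mono_succ _ _)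

lemma self_mem_bl (n : ℕ) (x : V) : x ∈ bl G n x := bl_mono (Nat.zero_le n) x (by simp [bl_zero])

lemma adj_mem_bl {n : ℕ} {x y z : V} (hy : y ∈ bl G n x) (h : G.Adj y z) : z ∈ bl G (n + 1) x :=
  mem_bl_succ.mpr (Or.inr ⟨y, hy, h⟩)

lemma mem_bl_of_adj {n : ℕ} {x y z : V} (hxy : G.Adj x y) (hz : z ∈ bl G n y) : z ∈ bl G (n + 1) x := by
  induction n generalizing z with
  | zero =>
    simp only [bl_zero, Finset.mem_singleton] at hz
    subst hz
    exact mem_bl_succ.mpr (Or.inr ⟨x, self_mem_bl 0 x, hxy⟩)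
  | succ n ih =>
    rcases mem_bl_succ.mp hz with h | ⟨w, hw, hwz⟩
    · exact bl_mono_succ _ _ (ih h)
    · exact adj_mem_bl (ih hw) hwz

lemma bl_symm {n : ℕ} {x y : V} (h : y ∈ bl G n x) : x ∈ bl G n y := by
  induction n generalizing y with
  | zero => simp only [bl_zero, Finset.mem_singleton] at h ⊢; exact h.symm
  | succ n ih =>
    rcases mem_bl_succ.mp h with h | ⟨z, hz, hzy⟩
    · exact bl_mono_succ _ _ (ih h)
    · exact mem_bl_of_adj hzy.symm (ih hz)

lemma exists_mem_bl (hc : G.Connected) (x y : V) : ∃ n, y ∈ bl G n x := by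
  obtain ⟨w⟩ := hc.preconnected x y
  induction w with
  | nil => exact ⟨0, self_mem_bl 0 _⟩
  | cons h _ ih => obtain ⟨n, hn⟩ := ih; exact ⟨n + 1, mem_bl_of_adj h hn⟩

lemma bl_map (φ : G ≃g G) (n : ℕ) (x : V) : (bl G n x).image φ = bl G n (φ x) := by
  induction n with
  | zero => simp [bl_zero]
  | succ n ih =>
    ext z
    rw [mem_bl_succ, ← ih]
    simp only [Finset.mem_image]
    constructor
    · rintro ⟨w, hw, rfl⟩
      rcases mem_bl_succ.mp hw with h | ⟨y, hy, hyw⟩
      · exact Or.inl ⟨w, h, rfl⟩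
      · exact Or.inr ⟨φ y, ⟨y, hy, rfl⟩, φ.map_adj_iff.mpr hyw⟩
    · rintro (⟨w, hw, rfl⟩ | ⟨_, ⟨y, hy, rfl⟩, hyz⟩)
      · exact ⟨w, bl_mono_succ _ _ hw, rfl⟩
      · refine ⟨φ.symm z, mem_bl_succ.mpr (Or.inr ⟨y, hy, ?_⟩), by simp⟩
        rw [← φ.map_adj_iff]; simpa using hyz

lemma card_bl_map (φ : G ≃g G) (n : ℕ) (x : V) : (bl G n (φ x)).card = (bl G n x).card := by
  rw [← bl_map, Finset.card_image_of_injective _ φ.injective]

/-- exit edge -/
lemma exists_exit {B : Finset V} {n : ℕ} {x : V} (hx : x ∈ B) (h : ¬ bl G n x ⊆ B) :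
    ∃ y ∈ B, ∃ z, z ∉ B ∧ G.Adj y z ∧ y ∈ bl G n x := by
  induction n with
  | zero => exact absurd (by simpa [bl_zero] using hx) h
  | succ n ih =>
    by_cases h' : bl G n x ⊆ B
    · obtain ⟨z, hz, hzB⟩ := Finset.not_subset.mp h
      rcases mem_bl_succ.mp hz with h1 | ⟨y, hy, hyz⟩
      · exact absurd (h' h1) hzB
      · exact ⟨y, h' hy, z, hzB, hyz, bl_mono_succ _ _ hy⟩
    · obtain ⟨y, hy, z, hz, hyz, hyx⟩ := ih h'
      exact ⟨y, hy, z, hz, hyz, bl_mono_succ _ _ hyx⟩

/-- number of edges leaving `B` -/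
noncomputable def bdc (G : SimpleGraph V) [G.LocallyFinite] (B : Finset V) : ℕ :=
  ∑ x ∈ B, ((G.neighborFinset x).filter (· ∉ B)).card

/-- counting vertices close to the boundary -/
lemma card_bad_le (B : Finset V) (R M : ℕ) (hM : ∀ x, (bl G R x).card ≤ M) :
    (B.filter fun x => ¬ bl G R x ⊆ B).card ≤ bdc G B * M := by
  set S := B.filter fun y => ∃ z, z ∉ B ∧ G.Adj y z with hS
  have h1 : (B.filter fun x => ¬ bl G R x ⊆ B) ⊆ S.biUnion fun y => bl G R y := by
    intro x hx
    simp only [Finset.mem_filter] at hx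
    obtain ⟨y, hy, z, hz, hyz, hyx⟩ := exists_exit hx.1 hx.2
    refine Finset.mem_biUnion.mpr ⟨y, ?_, bl_symm hyx⟩
    simp only [hS, Finset.mem_filter]
    exact ⟨hy, z, hz, hyz⟩
  have h2 : S.card ≤ bdc G B := by
    unfold bdc
    calc S.card = ∑ y ∈ S, 1 := by simp
      _ ≤ ∑ y ∈ S, ((G.neighborFinset y).filter (· ∉ B)).card := by
          refine Finset.sum_le_sum fun y hy => ?_
          simp only [hS, Finset.mem_filter] at hy
          obtain ⟨_, z, hz, hyz⟩ := hy
          exact Finset.card_pos.mpr ⟨z, by simp [hz, hyz]⟩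
      _ ≤ _ := Finset.sum_le_sum_of_subset (Finset.filter_subset _ _)
  calc (B.filter fun x => ¬ bl G R x ⊆ B).card ≤ (S.biUnion fun y => bl G R y).card :=
        Finset.card_le_card h1
    _ ≤ S.card * M := Finset.card_biUnion_le_card_mul _ _ _ fun y _ => hM y
    _ ≤ _ := Nat.mul_le_mul_right _ h2

/-! ### Cheeger inequality -/

/-- total variation -/
noncomputable def TV (G : SimpleGraph V) [G.LocallyFinite] (B : Finset V) (g : V → ℝ) : ℝ :=
  ∑ x ∈ B, ∑ y ∈ G.neighborFinset x, kap B y * |g x - g y|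

lemma TV_indicator (B B' : Finset V) (hB : B' ⊆ B) :
    TV G B (fun x => if x ∈ B' then 1 else 0) = bdc G B' := by
  -- express everything as double sums over `B`
  have h1 : TV G B (fun x => if x ∈ B' then 1 else 0) =
      ∑ x ∈ B, ∑ y ∈ G.neighborFinset x, ((if x ∈ B' ∧ y ∉ B' then kap B y else 0) +
        (if x ∉ B' ∧ y ∈ B' then (1 / 2 : ℝ) else 0)) := by
    unfold TV
    refine Finset.sum_congr rfl fun x _ => Finset.sum_congr rfl fun y _ => ?_
    by_cases hx : x ∈ B' <;> by_cases hy : y ∈ B'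
    · simp [hx, hy]
    · simp [hx, hy]
    · have : y ∈ B := hB hy
      simp [hx, hy, kap, this]
    · simp [hx, hy]
  have h2 : (bdc G B' : ℝ) = ∑ x ∈ B, ∑ y ∈ G.neighborFinset x, (if x ∈ B' ∧ y ∉ B' then (1 : ℝ) else 0) := by
    unfold bdc
    push_cast
    have : ∑ x ∈ B', (((G.neighborFinset x).filter (· ∉ B')).card : ℝ) =
        ∑ x ∈ B', ∑ y ∈ G.neighborFinset x, (if x ∈ B' ∧ y ∉ B' then (1 : ℝ) else 0) := by
      refine Finset.sum_congr rfl fun x hx => ?_
      rw [Finset.card_filter]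
      push_cast
      exact Finset.sum_congr rfl fun y _ => by simp [hx]
    rw [this]
    refine Finset.sum_subset hB fun x _ hx => ?_
    exact Finset.sum_eq_zero fun y _ => by simp [hx]
  -- symmetric counting
  have h3 : ∑ x ∈ B, ∑ y ∈ G.neighborFinset x, (if x ∉ B' ∧ y ∈ B' then (1 / 2 : ℝ) else 0) =
      ∑ x ∈ B, ∑ y ∈ G.neighborFinset x, (if x ∈ B' ∧ y ∉ B' ∧ y ∈ B then (1 / 2 : ℝ) else 0) := by
    have e1 : ∀ x, ∑ y ∈ G.neighborFinset x, (if x ∉ B' ∧ y ∈ B' then (1 / 2 : ℝ) else 0) =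
        ∑ y ∈ B, aA G x y * (if x ∉ B' ∧ y ∈ B' then (1 / 2 : ℝ) else 0) := by
      intro x
      rw [← sum_nbr (G := G) (x := x) B (aA G x) (fun y hy => by simp [aA, hy]) _
        (fun y hy => by
          have : y ∉ B' := fun h => hy (hB h)
          simp [this])]
      refine Finset.sum_congr rfl fun y hy => ?_
      have hadj : G.Adj x y := by simpa using hy
      simp [aA, hadj]
    have e2 : ∀ x, ∑ y ∈ G.neighborFinset x, (if x ∈ B' ∧ y ∉ B' ∧ y ∈ B then (1 / 2 : ℝ) else 0) =
        ∑ y ∈ B, aA G x y * (if x ∈ B' ∧ y ∉ B' ∧ y ∈ B then (1 / 2 : ℝ) else 0) := by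
      intro x
      rw [← sum_nbr (G := G) (x := x) B (aA G x) (fun y hy => by simp [aA, hy]) _
        (fun y hy => by simp [hy])]
      refine Finset.sum_congr rfl fun y hy => ?_
      have hadj : G.Adj x y := by simpa using hy
      simp [aA, hadj]
    simp_rw [e1, e2]
    rw [Finset.sum_comm]
    refine Finset.sum_congr rfl fun x hx => Finset.sum_congr rfl fun y hy => ?_
    have : aA G y x = aA G x y := by simp [aA, G.adj_comm]
    rw [this]
    congr 1
    by_cases h1 : x ∈ B' <;> by_cases h2 : y ∈ B' <;> simp [h1, h2, hy]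
  rw [h1, h2]
  simp_rw [Finset.sum_add_distrib]
  rw [h3, ← Finset.sum_add_distrib]
  refine Finset.sum_congr rfl fun x _ => ?_
  rw [← Finset.sum_add_distrib]
  refine Finset.sum_congr rfl fun y _ => ?_
  unfold kap
  by_cases hx : x ∈ B' <;> by_cases hy : y ∈ B' <;> by_cases hyB : y ∈ B <;> simp [hx, hy, hyB] <;> norm_num

lemma TV_add_smul (B B' : Finset V) (g : V → ℝ) (hg0 : ∀ y, 0 ≤ g y) (hg : ∀ y ∉ B', g y = 0)
    {m : ℝ} (hm : 0 ≤ m) :
    TV G B (fun x => g x + m * (if x ∈ B' then 1 else 0)) =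
      TV G B g + m * TV G B (fun x => if x ∈ B' then 1 else 0) := by
  unfold TV
  rw [Finset.mul_sum, ← Finset.sum_add_distrib]
  refine Finset.sum_congr rfl fun x _ => ?_
  rw [Finset.mul_sum, ← Finset.sum_add_distrib]
  refine Finset.sum_congr rfl fun y _ => ?_
  have key : |g x + m * (if x ∈ B' then 1 else 0) - (g y + m * (if y ∈ B' then 1 else 0))| =
      |g x - g y| + m * |(if x ∈ B' then (1 : ℝ) else 0) - (if y ∈ B' then 1 else 0)| := by
    by_cases hx : x ∈ B' <;> by_cases hy : y ∈ B'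
    · simp [hx, hy]
    · have h0 := hg y hy
      have h1 := hg0 x
      simp only [hx, hy, if_true, if_false, h0, mul_one, mul_zero, add_zero, sub_zero, abs_one]
      rw [abs_of_nonneg h1, abs_of_nonneg (by linarith)]
    · have h0 := hg x hx
      have h1 := hg0 y
      simp only [hx, hy, if_true, if_false, h0, mul_one, mul_zero, add_zero, zero_sub, abs_neg, abs_one]
      rw [abs_of_nonneg h1, abs_of_nonneg (by linarith)]
    · simp [hx, hy]
  rw [key]; ring

/-- `L¹` isoperimetric inequality (discrete co-area argument). -/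
lemma TV_ge {h : ℝ} (hiso : ∀ B' : Finset V, h * B'.card ≤ bdc G B') (B : Finset V) (g : V → ℝ)
    (hg0 : ∀ y, 0 ≤ g y) (hgB : ∀ y ∉ B, g y = 0) : h * ∑ x ∈ B, g x ≤ TV G B g := by
  -- strong induction on the number of nonzero values
  generalize hk : (B.filter fun x => g x ≠ 0).card = k
  induction k using Nat.strong_induction_on generalizing g with
  | _ k ih =>
    set B' := B.filter fun x => g x ≠ 0 with hB'
    have hB'B : B' ⊆ B := Finset.filter_subset _ _
    have hgB' : ∀ y ∉ B', g y = 0 := by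
      intro y hy
      by_contra hne
      apply hy
      simp only [hB', Finset.mem_filter]
      exact ⟨by by_contra hyB; exact hne (hgB y hyB), hne⟩
    rcases B'.eq_empty_or_nonempty with hempty | hne
    · have hg : ∀ y, g y = 0 := fun y => hgB' y (by rw [hempty]; simp)
      simp [TV, hg]
    · obtain ⟨x0, hx0, hmin⟩ := Finset.exists_min_image B' g hne
      set m := g x0 with hm
      have hm0 : 0 < m := by
        have h1 : g x0 ≠ 0 := by
          simp only [hB', Finset.mem_filter] at hx0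
          exact hx0.2
        exact lt_of_le_of_ne (hg0 x0) (Ne.symm h1)
      set g' : V → ℝ := fun x => g x - m * (if x ∈ B' then 1 else 0) with hg'
      have hg'0 : ∀ y, 0 ≤ g' y := by
        intro y
        by_cases hy : y ∈ B'
        · simp only [hg', hy, if_true, mul_one]; linarith [hmin y hy]
        · simp only [hg', hy, if_false, mul_zero, sub_zero]; exact hg0 y
      have hg'B' : ∀ y ∉ B', g' y = 0 := by
        intro y hy
        simp only [hg', hy, if_false, mul_zero, sub_zero]; exact hgB' y hy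
      have hg'B : ∀ y ∉ B, g' y = 0 := fun y hy => hg'B' y fun h => hy (hB'B h)
      have hlt : (B.filter fun x => g' x ≠ 0).card < k := by
        rw [← hk]
        refine Finset.card_lt_card ⟨?_, ?_⟩
        · intro y hy
          simp only [Finset.mem_filter] at hy
          by_contra hyB'
          exact hy.2 (hg'B' y hyB')
        · intro hsub
          have := hsub hx0
          simp only [Finset.mem_filter] at this
          apply this.2
          simp only [hg', hx0, if_true, mul_one]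
          rw [hm]; ring
      have hih := ih _ hlt g' hg'0 hg'B rfl
      have hgeq : g = fun x => g' x + m * (if x ∈ B' then 1 else 0) := by
        funext x; simp only [hg']; ring
      have h1 : TV G B g = TV G B g' + m * bdc G B' := by
        rw [← TV_indicator B B' hB'B]
        conv_lhs => rw [hgeq]
        exact TV_add_smul B B' g' hg'0 hg'B' hm0.le
      have h2 : ∑ x ∈ B, g x = ∑ x ∈ B, g' x + m * B'.card := by
        conv_lhs => rw [hgeq]
        rw [Finset.sum_add_distrib, ← Finset.mul_sum]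
        congr 2
        rw [Finset.sum_ite_mem, Finset.inter_eq_right.mpr hB'B]
        simp
      rw [h1, h2]
      have := mul_le_mul_of_nonneg_left (hiso B') hm0.le
      nlinarith

/-- Cheeger inequality. -/
lemma cheeger {h : ℝ} (hh : 0 < h) (hiso : ∀ B' : Finset V, h * B'.card ≤ bdc G B') {D : ℕ}
    (hD1 : 1 ≤ D) (hD : ∀ x, G.degree x ≤ D) (B : Finset V) (u : V → ℝ) (hu : ∀ y ∉ B, u y = 0) :
    h ^ 2 / (4 * D) * ∑ x ∈ B, u x ^ 2 ≤ En G B (aA G) u := by
  have hDpos : (0 : ℝ) < D := by exact_mod_cast hD1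
  have h1 := TV_ge hiso B (fun x => u x ^ 2) (fun y => sq_nonneg _) (fun y hy => by rw [hu y hy]; ring)
  set U := ∑ x ∈ B, u x ^ 2 with hU
  -- Cauchy–Schwarz in weighted AM-GM form
  have h2 : TV G B (fun x => u x ^ 2) ≤ (2 * D / h) * En G B (aA G) u + (h / (8 * D)) *
      ∑ x ∈ B, ∑ y ∈ G.neighborFinset x, kap B y * (u x + u y) ^ 2 := by
    unfold TV En
    rw [Finset.mul_sum, Finset.mul_sum, ← Finset.sum_add_distrib]
    refine Finset.sum_le_sum fun x _ => ?_
    rw [Finset.mul_sum, Finset.mul_sum, ← Finset.sum_add_distrib]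
    refine Finset.sum_le_sum fun y hy => ?_
    have hadj : G.Adj x y := by simpa using hy
    have ha : aA G x y = 1 := by simp [aA, hadj]
    rw [ha]
    have hk := kap_nonneg B y
    have h3 : |u x ^ 2 - u y ^ 2| ≤ (2 * D / h) * (u x - u y) ^ 2 + (h / (8 * D)) * (u x + u y) ^ 2 := by
      have h4 : |u x ^ 2 - u y ^ 2| = |u x - u y| * |u x + u y| := by
        rw [← abs_mul]; congr 1; ring
      rw [h4, ← sq_abs (u x - u y), ← sq_abs (u x + u y)]
      set p := |u x - u y|
      set q := |u x + u y|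
      have h5 : 0 ≤ (2 * D / h) * (p - (h / (4 * D)) * q) ^ 2 := by positivity
      have h6 : (2 * D / h) * (p - (h / (4 * D)) * q) ^ 2 =
          (2 * D / h) * p ^ 2 + (h / (8 * D)) * q ^ 2 - p * q := by
        field_simp; ring
      linarith
    calc kap B y * |u x ^ 2 - u y ^ 2| ≤
        kap B y * ((2 * D / h) * (u x - u y) ^ 2 + (h / (8 * D)) * (u x + u y) ^ 2) :=
          mul_le_mul_of_nonneg_left h3 hk
      _ = _ := by ring
  have h3 : ∑ x ∈ B, ∑ y ∈ G.neighborFinset x, kap B y * (u x + u y) ^ 2 ≤ 4 * D * U := by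
    have e1 : ∑ x ∈ B, ∑ y ∈ G.neighborFinset x, kap B y * (u x + u y) ^ 2 ≤
        ∑ x ∈ B, ∑ y ∈ G.neighborFinset x, (2 * u x ^ 2 + 2 * u y ^ 2) := by
      refine Finset.sum_le_sum fun x _ => Finset.sum_le_sum fun y _ => ?_
      have hk := kap_le_one B y
      have h4 : (u x + u y) ^ 2 ≤ 2 * u x ^ 2 + 2 * u y ^ 2 := by nlinarith [sq_nonneg (u x - u y)]
      have h5 := mul_le_of_le_one_left (sq_nonneg (u x + u y)) hk
      linarith
    have e2 : ∑ x ∈ B, ∑ y ∈ G.neighborFinset x, u x ^ 2 ≤ D * U := by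
      rw [hU, Finset.mul_sum]
      refine Finset.sum_le_sum fun x _ => ?_
      rw [Finset.sum_const, nsmul_eq_mul]
      refine mul_le_mul_of_nonneg_right ?_ (sq_nonneg _)
      exact_mod_cast hD x
    have e3 : ∑ x ∈ B, ∑ y ∈ G.neighborFinset x, u y ^ 2 ≤ D * U := by
      have e4 : ∀ x, ∑ y ∈ G.neighborFinset x, u y ^ 2 = ∑ y ∈ B, aA G x y * u y ^ 2 := by
        intro x
        rw [← sum_nbr B (aA G x) (aA_zero x) _ (fun y hy => by rw [hu y hy]; ring)]
        refine Finset.sum_congr rfl fun y hy => ?_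
        have hadj : G.Adj x y := by simpa using hy
        simp [aA, hadj]
      simp_rw [e4]
      rw [Finset.sum_comm, hU, Finset.mul_sum]
      refine Finset.sum_le_sum fun y _ => ?_
      rw [← Finset.sum_mul]
      refine mul_le_mul_of_nonneg_right ?_ (sq_nonneg _)
      have e5 : ∑ x ∈ B, aA G x y ≤ ∑ x ∈ G.neighborFinset y, (1 : ℝ) := by
        have e6 : ∑ x ∈ B, aA G x y = ∑ x ∈ B with G.Adj x y, (1 : ℝ) := by
          rw [Finset.sum_filter]; rfl
        rw [e6]
        refine Finset.sum_le_sum_of_subset_of_nonneg ?_ (fun _ _ _ => zero_le_one)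
        intro x hx
        simp only [Finset.mem_filter] at hx
        simpa using hx.2.symm
      refine e5.trans ?_
      simp only [Finset.sum_const, nsmul_eq_mul, mul_one]
      exact_mod_cast hD y
    have e7 : ∑ x ∈ B, ∑ y ∈ G.neighborFinset x, (2 * u x ^ 2 + 2 * u y ^ 2) =
        2 * (∑ x ∈ B, ∑ y ∈ G.neighborFinset x, u x ^ 2) + 2 * ∑ x ∈ B, ∑ y ∈ G.neighborFinset x, u y ^ 2 := by
      simp_rw [Finset.sum_add_distrib, ← Finset.mul_sum]
    linarith
  have h4 : h * U ≤ (2 * D / h) * En G B (aA G) u + (h / (8 * D)) * (4 * D * U) := by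
    have := mul_le_mul_of_nonneg_left h3 (show 0 ≤ h / (8 * D) by positivity)
    linarith
  have h5 : (h / (8 * D)) * (4 * D * U) = h / 2 * U := by field_simp; ring
  rw [h5] at h4
  have h6 : h / 2 * U ≤ (2 * D / h) * En G B (aA G) u := by linarith
  have h7 : h ^ 2 / (4 * D) * U = (h / (2 * D)) * (h / 2 * U) := by field_simp; ring
  rw [h7]
  calc (h / (2 * D)) * (h / 2 * U) ≤ (h / (2 * D)) * ((2 * D / h) * En G B (aA G) u) :=
        mul_le_mul_of_nonneg_left h6 (by positivity)
    _ = En G B (aA G) u := by field_simp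

end Pool.Agent.Hhelper95.RWDP
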