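import Pool.Agent.Hhelper95.RWDP.Transport

/-!
# Two-sided bounds
-/

open Finset Classical MeasureTheory

set_option linter.unusedSectionVars false

namespace Pool.Agent.Hhelper95.RWDP

open Sg Spectral

universe u

variable {V : Type u} {G : SimpleGraph V} [G.LocallyFinite]
variable [MeasurableSpace V] [DiscreteMeasurableSpace V]
variable {μ p : ℝ} {o : V} {ρ : ℝ → Measure (V × Env G)}

lemma ret_nonneg (ρ : ℝ → Measure (V × Env G)) (x : V) (t : ℝ) : 0 ≤ ret ρ x t := measureReal_nonneg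

lemma ret_le_one (h : IsRWDP G μ p o ρ) {t : ℝ} (ht : 0 ≤ t) : ret ρ o t ≤ 1 := by
  have := h.prob t ht
  exact measureReal_le_one

lemma vertex_local (x : V) : IsLocal G (fun y (_ : Env G) => if y = x then (1 : ℝ) else 0) :=
  ⟨{x}, ∅, fun y hy _ => by simp only [Finset.mem_singleton] at hy; simp [hy], fun _ _ _ _ => rfl⟩

lemma ret_eq_integral (x : V) (t : ℝ) (ρ : ℝ → Measure (V × Env G)) :
    ret ρ x t = ∫ z, (if z.1 = x then (1 : ℝ) else 0) ∂ρ t := by
  have e1 : ∀ z : V × Env G, (if z.1 = x then (1 : ℝ) else 0) =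
      Set.indicator {z : V × Env G | z.1 = x} (fun _ => (1 : ℝ)) z := by
    intro z; simp [Set.indicator]
  simp_rw [e1]
  rw [integral_indicator_const _ (mset_vertex x), smul_eq_mul, mul_one]
  rfl

/-- the walk may stay put -/
lemma ret_ge_exp (h : IsRWDP G μ p o ρ) {D : ℕ} (hD : ∀ x, G.degree x ≤ D) {t : ℝ} (ht : 0 ≤ t) :
    Real.exp (-(D * t)) ≤ ret ρ o t := by
  have hl := ge_of_deriv (f := fun s => Real.exp (D * s) * ∫ z, (if z.1 = o then (1 : ℝ) else 0) ∂ρ s)
    (f' := fun s => Real.exp (D * s) * D * (∫ z, (if z.1 = o then (1 : ℝ) else 0) ∂ρ s) +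
      Real.exp (D * s) * ∫ z, gen G μ p (fun y (_ : Env G) => if y = o then (1 : ℝ) else 0) z.1 z.2 ∂ρ s)
    (K := 0) ht
    (fun s hs => by
      have h1 : HasDerivWithinAt (fun s : ℝ => Real.exp (D * s)) (Real.exp (D * s) * D) (Set.Ici 0) s := by
        have : HasDerivAt (fun s : ℝ => (D : ℝ) * s) D s := by
          simpa using (hasDerivAt_id s).const_mul (D : ℝ)
        exact this.exp.hasDerivWithinAt
      exact h1.mul (h.forward _ (vertex_local o) s hs.1))
    (fun s hs => by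
      have := h.prob s hs.1
      have hint : (-(D : ℝ)) * ∫ z, (if z.1 = o then (1 : ℝ) else 0) ∂ρ s ≤
          ∫ z, gen G μ p (fun y (_ : Env G) => if y = o then (1 : ℝ) else 0) z.1 z.2 ∂ρ s := by
        rw [← integral_const_mul]
        refine integral_mono ((integrable_local (vertex_local o) _).const_mul _)
          (integrable_gen μ p (vertex_local o) _) fun z => ?_
        unfold gen
        have h0 : ∑ᶠ e : G.edgeSet, (p * (if z.1 = o then (1 : ℝ) else 0) +
            (1 - p) * (if z.1 = o then (1 : ℝ) else 0) - (if z.1 = o then (1 : ℝ) else 0)) = 0 := by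
          have : (p * (if z.1 = o then (1 : ℝ) else 0) +
            (1 - p) * (if z.1 = o then (1 : ℝ) else 0) - (if z.1 = o then (1 : ℝ) else 0)) = 0 := by ring
          rw [this]; exact finsum_zero
        rw [h0, mul_zero, add_zero]
        calc (-(D : ℝ)) * (if z.1 = o then (1 : ℝ) else 0) ≤
            ∑ y ∈ G.neighborFinset z.1, (-(if z.1 = o then (1 : ℝ) else 0)) := by
              rw [Finset.sum_const, nsmul_eq_mul, mul_neg, neg_mul, neg_le_neg_iff]
              refine mul_le_mul_of_nonneg_right ?_ (by split_ifs <;> norm_num)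
              exact_mod_cast hD z.1
          _ ≤ _ := by
              refine Finset.sum_le_sum fun y _ => ?_
              have hi : ∀ w : V, (0 : ℝ) ≤ (if w = o then (1 : ℝ) else 0) := fun w => by
                split_ifs <;> norm_num
              have h1 := hi z.1
              have h2 := hi y
              by_cases hop : OpenEdge G z.2 z.1 y
              · rw [if_pos hop]; linarith
              · rw [if_neg hop]; linarith
      have he := Real.exp_pos (D * s)
      have := mul_le_mul_of_nonneg_left hint he.le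
      linarith)
  simp only [mul_zero, Real.exp_zero, one_mul, zero_mul, add_zero] at hl
  rw [← ret_eq_integral, ← ret_eq_integral] at hl
  have h0 : ret ρ o 0 = 1 := by
    unfold ret Measure.real
    rw [init_vertex h]; rfl
  rw [h0] at hl
  rw [Real.exp_neg, inv_le_iff_one_le_mul₀ (Real.exp_pos _)]
  linarith

/-- averages over finite sets with small boundary -/
theorem avg_bounds (h : IsRWDP G μ p o ρ) (hμ : 0 ≤ μ) (hp : 0 ≤ p) (hp1 : p ≤ 1)
    (htr : ∀ x : V, ∃ φ : G ≃g G, φ o = x) {D : ℕ} (hD : ∀ x, G.degree x ≤ D)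
    {t : ℝ} (ht : 0 ≤ t) {δ : ℝ} (hδ : 0 < δ) :
    ∃ ε : ℝ, 0 < ε ∧ ∀ B : Finset V, (bdc G B : ℝ) ≤ ε * B.card →
      ∑ x, Qf μ p B (eB (G := G) B) t x ≤ B.card * ret ρ o t ∧
      B.card * ret ρ o t ≤ ∑ x, Qf μ p B (eB (G := G) B) t x + δ * B.card := by
  obtain ⟨R, hR⟩ := exists_nat_gt (2 * (D ^ 2 * t ^ 2) / δ + 1)
  have hR1 : 1 ≤ R := by
    have : (1 : ℝ) < R := by
      have : 0 ≤ 2 * ((D : ℝ) ^ 2 * t ^ 2) / δ := by positivity
      linarith
    exact_mod_cast this.le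
  have hRpos : (0 : ℝ) < R := by exact_mod_cast hR1
  have hRδ : (D : ℝ) ^ 2 * t ^ 2 / R ≤ δ / 2 := by
    rw [div_le_iff₀ hRpos]
    have h1 : 2 * ((D : ℝ) ^ 2 * t ^ 2) / δ < R := by linarith
    rw [div_lt_iff₀ hδ] at h1
    linarith
  set M := (bl G R o).card with hM
  have hMx : ∀ x, (bl G R x).card ≤ M := by
    intro x
    obtain ⟨φ, rfl⟩ := htr x
    rw [card_bl_map]
  have hMpos : (0 : ℝ) < M := by
    have : 0 < M := Finset.card_pos.mpr ⟨o, self_mem_bl R o⟩
    exact_mod_cast this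
  refine ⟨δ / (2 * M), by positivity, fun B hB => ?_⟩
  have hsand : ∀ x : {x // x ∈ B}, Qf μ p B (eB (G := G) B) t x ≤ ret ρ o t ∧
      (bl G R x.1 ⊆ B → ret ρ o t ≤ Qf μ p B (eB (G := G) B) t x + δ / 2) := by
    intro x
    obtain ⟨φ, hφ⟩ := htr x.1
    have h1 := transport h φ
    have h2 : ret (fun t => (ρ t).map (actP φ)) (φ o) t = ret ρ o t := ret_transport φ t
    have hx : φ o ∈ B := hφ ▸ x.2
    have h3 := sandwich h1 hμ hp hp1 hx (covers_eB B) hD ht
    have hxx : (⟨φ o, hx⟩ : {x // x ∈ B}) = x := Subtype.ext hφ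
    rw [h2, hxx] at h3
    refine ⟨h3.1, fun hb => ?_⟩
    have h4 := h3.2 R hR1 (hφ ▸ hb)
    linarith
  have hcard : ∑ _x : {x // x ∈ B}, ret ρ o t = B.card * ret ρ o t := by
    simp
  refine ⟨?_, ?_⟩
  · rw [← hcard]
    exact Finset.sum_le_sum fun x _ => (hsand x).1
  · have hQ0 : ∀ x : {x // x ∈ B}, 0 ≤ Qf μ p B (eB (G := G) B) t x := by
      intro x
      unfold Qf
      refine EE_nonneg hp hp1 fun ξ => ?_
      refine sg_nonneg (GGc μ p B (eB B)) _ (fun c hc => GG_add_nonneg hμ hp hp1 B (eB B) hD c hc) ht ?_ _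
      intro i; unfold lift dl; simp only [Pi.zero_apply]; split_ifs <;> norm_num
    have hpt : ∀ x : {x // x ∈ B}, ret ρ o t ≤ Qf μ p B (eB (G := G) B) t x + δ / 2 +
        (if bl G R x.1 ⊆ B then 0 else 1) := by
      intro x
      by_cases hb : bl G R x.1 ⊆ B
      · rw [if_pos hb, add_zero]; exact (hsand x).2 hb
      · rw [if_neg hb]
        have := ret_le_one h ht
        have := hQ0 x
        linarith
    have hsum := Finset.sum_le_sum fun (x : {x // x ∈ B}) (_ : x ∈ Finset.univ) => hpt x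
    rw [hcard, Finset.sum_add_distrib, Finset.sum_add_distrib] at hsum
    have hbad : ∑ x : {x // x ∈ B}, (if bl G R x.1 ⊆ B then (0 : ℝ) else 1) ≤ δ / 2 * B.card := by
      have e1 : ∑ x : {x // x ∈ B}, (if bl G R x.1 ⊆ B then (0 : ℝ) else 1) =
          ((B.filter fun x => ¬ bl G R x ⊆ B).card : ℝ) := by
        rw [Finset.sum_coe_sort B (fun x => if bl G R x ⊆ B then (0 : ℝ) else 1), Finset.card_filter]
        push_cast
        refine Finset.sum_congr rfl fun x _ => ?_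
        by_cases hb : bl G R x ⊆ B <;> simp [hb]
      rw [e1]
      have h1 : ((B.filter fun x => ¬ bl G R x ⊆ B).card : ℝ) ≤ (bdc G B * M : ℕ) := by
        exact_mod_cast card_bad_le B R M hMx
      refine h1.trans ?_
      push_cast
      calc (bdc G B : ℝ) * M ≤ (δ / (2 * M) * B.card) * M := mul_le_mul_of_nonneg_right hB hMpos.le
        _ = δ / 2 * B.card := by field_simp
    have hconst : ∑ _x : {x // x ∈ B}, δ / 2 = δ / 2 * B.card := by simp; ring
    rw [hconst] at hsum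
    linarith

/-- uniqueness at `p = 1` and monotonicity: the flow is a limit of `Pf`. -/
lemma approx_one (h : IsRWDP G μ 1 o ρ) (hμ : 0 ≤ μ) {D : ℕ} (hD : ∀ x, G.degree x ≤ D)
    {t : ℝ} (ht : 0 ≤ t) {R : ℕ} (hR : 1 ≤ R) :
    Pf G (bl G R o) t ⟨o, self_mem_bl (G := G) R o⟩ ≤ ret ρ o t ∧
    ret ρ o t ≤ Pf G (bl G R o) t ⟨o, self_mem_bl (G := G) R o⟩ + D ^ 2 * t ^ 2 / R := by
  have h3 := sandwich h hμ zero_le_one le_rfl (self_mem_bl R o) (covers_eB (bl G R o)) hD ht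
  rw [Qf_one μ (covers_eB _)] at h3
  exact ⟨h3.1, h3.2 R hR (Finset.Subset.refl _)⟩

lemma le_of_forall_nat {a b K : ℝ} (h : ∀ R : ℕ, 1 ≤ R → a ≤ b + K / R) : a ≤ b := by
  have h1 : Filter.Tendsto (fun R : ℕ => b + K / (R : ℝ)) Filter.atTop (nhds (b + 0)) :=
    (tendsto_const_div_atTop_nhds_zero_nat K).const_add b
  rw [add_zero] at h1
  exact ge_of_tendsto h1 (Filter.eventually_atTop.mpr ⟨1, h⟩)

lemma ret_one_unique {μ' : ℝ} {ρ' : ℝ → Measure (V × Env G)} (h : IsRWDP G μ 1 o ρ)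
    (h' : IsRWDP G μ' 1 o ρ') (hμ : 0 ≤ μ) (hμ' : 0 ≤ μ') {D : ℕ} (hD : ∀ x, G.degree x ≤ D)
    {t : ℝ} (ht : 0 ≤ t) : ret ρ o t ≤ ret ρ' o t := by
  refine le_of_forall_nat (K := D ^ 2 * t ^ 2) fun R hR => ?_
  have h1 := (approx_one h hμ hD ht hR).2
  have h2 := (approx_one h' hμ' hD ht hR).1
  linarith

lemma ret_one_antitone (h : IsRWDP G μ 1 o ρ) (hμ : 0 ≤ μ) {D : ℕ} (hD : ∀ x, G.degree x ≤ D)
    {s t : ℝ} (hs : 0 ≤ s) (hst : s ≤ t) : ret ρ o t ≤ ret ρ o s := by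
  refine le_of_forall_nat (K := D ^ 2 * t ^ 2) fun R hR => ?_
  have h1 := (approx_one h hμ hD (hs.trans hst) hR).2
  have h2 := (approx_one h hμ hD hs hR).1
  have h3 := Pf_antitone (G := G) hst ⟨o, self_mem_bl (G := G) R o⟩
  linarith

/-- trace comparison in the amenable case -/
theorem amenable_bounds {ρ1 : ℝ → Measure (V × Env G)} (h : IsRWDP G μ p o ρ)
    (h1 : IsRWDP G μ 1 o ρ1) (hμ : 0 < μ) (hp : 0 < p) (hp1 : p < 1)
    (htr : ∀ x : V, ∃ φ : G ≃g G, φ o = x) {D : ℕ} (hD : ∀ x, G.degree x ≤ D)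
    (ham : ∀ ε : ℝ, 0 < ε → ∃ B : Finset V, B.Nonempty ∧ (bdc G B : ℝ) ≤ ε * B.card)
    {t : ℝ} (ht : 0 ≤ t) :
    ret ρ1 o (p * t) ≤ ret ρ o t ∧
    ret ρ o t ≤ ret ρ1 o (cst μ p D * t) + Real.exp (-(t * (cst μ p D * μ))) := by
  have hc := cst_pos hμ hp D
  have key : ∀ δ : ℝ, 0 < δ → ret ρ1 o (p * t) ≤ ret ρ o t + δ ∧
      ret ρ o t ≤ ret ρ1 o (cst μ p D * t) + Real.exp (-(t * (cst μ p D * μ))) + δ := by
    intro δ hδ
    obtain ⟨ε1, hε1, H1⟩ := avg_bounds h hμ.le hp.le hp1.le htr hD ht hδ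
    obtain ⟨ε2, hε2, H2⟩ := avg_bounds h1 hμ.le zero_le_one le_rfl htr hD (mul_nonneg hp.le ht) hδ
    obtain ⟨ε3, hε3, H3⟩ := avg_bounds h1 hμ.le zero_le_one le_rfl htr hD (mul_nonneg hc.le ht) hδ
    obtain ⟨B, hBne, hB⟩ := ham (min ε1 (min ε2 ε3)) (by positivity)
    have hcard : (0 : ℝ) < B.card := by exact_mod_cast Finset.card_pos.mpr hBne
    have hB1 : (bdc G B : ℝ) ≤ ε1 * B.card :=
      hB.trans (mul_le_mul_of_nonneg_right (min_le_left _ _) hcard.le)
    have hB2 : (bdc G B : ℝ) ≤ ε2 * B.card :=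
      hB.trans (mul_le_mul_of_nonneg_right ((min_le_right _ _).trans (min_le_left _ _)) hcard.le)
    have hB3 : (bdc G B : ℝ) ≤ ε3 * B.card :=
      hB.trans (mul_le_mul_of_nonneg_right ((min_le_right _ _).trans (min_le_right _ _)) hcard.le)
    obtain ⟨a1, a2⟩ := H1 B hB1
    obtain ⟨b1, b2⟩ := H2 B hB2
    obtain ⟨c1, c2⟩ := H3 B hB3
    simp_rw [Qf_one μ (covers_eB B)] at b1 b2 c1 c2
    obtain ⟨T1, T2⟩ := trace_ineq hμ hp hp1 (covers_eB B) hD ht
    constructor
    · have : (B.card : ℝ) * ret ρ1 o (p * t) ≤ B.card * (ret ρ o t + δ) := by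
        calc (B.card : ℝ) * ret ρ1 o (p * t) ≤ ∑ x, Pf G B (p * t) x + δ * B.card := b2
          _ ≤ ∑ x, Qf μ p B (eB B) t x + δ * B.card := by linarith
          _ ≤ B.card * ret ρ o t + δ * B.card := by linarith
          _ = _ := by ring
      exact le_of_mul_le_mul_left this hcard
    · have : (B.card : ℝ) * ret ρ o t ≤ B.card * (ret ρ1 o (cst μ p D * t) +
          Real.exp (-(t * (cst μ p D * μ))) + δ) := by
        calc (B.card : ℝ) * ret ρ o t ≤ ∑ x, Qf μ p B (eB B) t x + δ * B.card := a2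
          _ ≤ ∑ x, Pf G B (cst μ p D * t) x + B.card * Real.exp (-(t * (cst μ p D * μ))) + δ * B.card := by
              linarith
          _ ≤ B.card * ret ρ1 o (cst μ p D * t) + B.card * Real.exp (-(t * (cst μ p D * μ))) +
              δ * B.card := by linarith
          _ = _ := by ring
      exact le_of_mul_le_mul_left this hcard
  exact ⟨le_of_forall_pos_le_add fun δ hδ => (key δ hδ).1,
    le_of_forall_pos_le_add fun δ hδ => (key δ hδ).2⟩

/-- exponential bounds in the nonamenable case -/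
theorem nonamenable_bound (h : IsRWDP G μ p o ρ) (hμ : 0 < μ) (hp : 0 < p) (hp1 : p < 1)
    {D : ℕ} (hD1 : 1 ≤ D) (hD : ∀ x, G.degree x ≤ D) {hh : ℝ} (hpos : 0 < hh)
    (hiso : ∀ B : Finset V, hh * B.card ≤ bdc G B) {t : ℝ} (ht : 0 ≤ t) :
    ret ρ o t ≤ Real.exp (-(t * (cst μ p D * min (hh ^ 2 / (4 * D)) μ))) := by
  refine le_of_forall_nat (K := D ^ 2 * t ^ 2) fun R hR => ?_
  have h3 := sandwich h hμ.le hp.le hp1.le (self_mem_bl R o) (covers_eB (bl G R o)) hD ht
  have h4 := h3.2 R hR (Finset.Subset.refl _)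
  have h5 := Qf_exp hμ hp hp1 (covers_eB (bl G R o)) hD (lam := hh ^ 2 / (4 * D)) (fun u => by
    rw [ip_one]
    have := cheeger hpos hiso hD1 hD (bl G R o) (zx _ u) (fun y hy => zx_not_mem u hy)
    refine le_trans (le_of_eq ?_) this
    congr 1
    exact Finset.sum_congr rfl fun x _ => by ring) ht ⟨o, self_mem_bl R o⟩
  linarith

theorem nonamenable_bound_one (h : IsRWDP G μ 1 o ρ) (hμ : 0 < μ)
    {D : ℕ} (hD1 : 1 ≤ D) (hD : ∀ x, G.degree x ≤ D) {hh : ℝ} (hpos : 0 < hh)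
    (hiso : ∀ B : Finset V, hh * B.card ≤ bdc G B) {t : ℝ} (ht : 0 ≤ t) :
    ret ρ o t ≤ Real.exp (-(t * (hh ^ 2 / (4 * D)))) := by
  refine le_of_forall_nat (K := D ^ 2 * t ^ 2) fun R hR => ?_
  have h4 := (approx_one h hμ.le hD ht hR).2
  have h5 := Pf_exp (G := G) (lam := hh ^ 2 / (4 * D)) (fun u => by
    rw [ip_one]
    have := cheeger hpos hiso hD1 hD (bl G R o) (zx _ u) (fun y hy => zx_not_mem u hy)
    refine le_trans (le_of_eq ?_) this
    congr 1
    exact Finset.sum_congr rfl fun x _ => by ring) ht ⟨o, self_mem_bl R o⟩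
  linarith

end Pool.Agent.Hhelper95.RWDP
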