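import Mathlib

/-!
# Random walk on dynamical percolation: definitions

`G` is a locally finite graph with vertex type `V`. An environment assigns to every edge of `G`
the state open (`true`) or closed (`false`).
-/

open MeasureTheory

namespace Pool.Agent.Hhelper95.RWDP

universe u

variable {V : Type u} (G : SimpleGraph V)

/-- An environment: the open/closed state of every edge of `G`. -/
abbrev Env := G.edgeSet → Bool

/-- The pair `x y` is an edge of `G` which is open in the environment `η`. -/
def OpenEdge (η : Env G) (x y : V) : Prop := ∃ h : G.Adj x y, η ⟨s(x, y), h⟩ = true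

/-- Local (cylinder) functions of the position and the environment: they vanish when the position
is outside a finite set, and depend on the states of finitely many edges only. -/
def IsLocal (f : V → Env G → ℝ) : Prop :=
  ∃ (B : Finset V) (F : Finset G.edgeSet), (∀ x ∉ B, ∀ η, f x η = 0) ∧
    ∀ x η η', (∀ e ∈ F, η e = η' e) → f x η = f x η'

open Classical in
/-- The generator of random walk on dynamical percolation with parameters `(μ, p)`: the walk
jumps from `x` to a neighbour `y` at rate `1` if the edge `xy` is open, and every edge is
resampled at rate `μ`, becoming open with probability `p` and closed with probability `1 - p`. -/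
noncomputable def gen [G.LocallyFinite] (μ p : ℝ) (f : V → Env G → ℝ) (x : V) (η : Env G) : ℝ :=
  ∑ y ∈ G.neighborFinset x, (if OpenEdge G η x y then f y η - f x η else 0) +
    μ * ∑ᶠ e : G.edgeSet,
      (p * f x (Function.update η e true) + (1 - p) * f x (Function.update η e false) - f x η)

/-- `ρ t` is the law at time `t` of random walk on dynamical percolation with parameters `(μ, p)`
on `G` started from the vertex `o` and the product Bernoulli(`p`) environment: a family of
probability measures on `V × Env G` with this initial law which satisfies Kolmogorov's forward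
equation for the generator on all local functions. -/
structure IsRWDP [MeasurableSpace V] [G.LocallyFinite] (μ p : ℝ) (o : V)
    (ρ : ℝ → Measure (V × Env G)) : Prop where
  prob : ∀ t, 0 ≤ t → IsProbabilityMeasure (ρ t)
  init : ∀ (F : Finset G.edgeSet) (ξ : Env G),
    ρ 0 {z | z.1 = o ∧ ∀ e ∈ F, z.2 e = ξ e} = ENNReal.ofReal (∏ e ∈ F, if ξ e then p else 1 - p)
  forward : ∀ f : V → Env G → ℝ, IsLocal G f → ∀ t, 0 ≤ t →
    HasDerivWithinAt (fun s => ∫ z, f z.1 z.2 ∂ρ s) (∫ z, gen G μ p f z.1 z.2 ∂ρ t) (Set.Ici 0) t

/-- `σ t` is the law at time `t` of continuous-time simple random walk on `G` started from `o`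
which jumps across each edge at rate `1`. -/
structure IsSRW [MeasurableSpace V] [G.LocallyFinite] (o : V) (σ : ℝ → Measure V) : Prop where
  prob : ∀ t, 0 ≤ t → IsProbabilityMeasure (σ t)
  init : σ 0 {o} = 1
  forward : ∀ f : V → ℝ, (Function.support f).Finite → ∀ t, 0 ≤ t →
    HasDerivWithinAt (fun s => ∫ x, f x ∂σ s)
      (∫ x, ∑ y ∈ G.neighborFinset x, (f y - f x) ∂σ t) (Set.Ici 0) t

end Pool.Agent.Hhelper95.RWDP
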