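import Pool.Agent.Hhelper95.RWDP.Flow2

/-!
# Finite volume densities and their monotonicity
-/

open Finset Classical

set_option linter.unusedSectionVars false

namespace Pool.Agent.Hhelper95.RWDP

open Sg Spectral

universe u

variable {V : Type u} {G : SimpleGraph V} [G.LocallyFinite]
variable {μ p : ℝ} {o : V}

/-- point initial datum -/
noncomputable def d0 (B : Finset V) (F : Finset G.edgeSet) (o : V) : St B F → ℝ :=
  fun i => if i.1.1 = o then 1 else 0

/-- finite volume density -/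
noncomputable def Fd (μ p : ℝ) (B : Finset V) (F : Finset G.edgeSet) (o : V) (t : ℝ) : St B F → ℝ :=
  sg (GGc μ p B F) t (d0 B F o)

lemma d0_nonneg (B : Finset V) (F : Finset G.edgeSet) (o : V) : 0 ≤ d0 B F o := by
  intro i; unfold d0; simp only [Pi.zero_apply]; split_ifs <;> norm_num

lemma d0_le_one (B : Finset V) (F : Finset G.edgeSet) (o : V) : d0 B F o ≤ fun _ => 1 := by
  intro i; unfold d0; split_ifs <;> norm_num

lemma Fd_zero (B : Finset V) (F : Finset G.edgeSet) : Fd μ p B F o 0 = d0 B F o := sg_zero _ _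

lemma Fd_nonneg (hμ : 0 ≤ μ) (hp : 0 ≤ p) (hp1 : p ≤ 1) (B : Finset V) (F : Finset G.edgeSet)
    {D : ℕ} (hD : ∀ x, G.degree x ≤ D) {t : ℝ} (ht : 0 ≤ t) : 0 ≤ Fd μ p B F o t :=
  sg_nonneg _ _ (fun c hc => GG_add_nonneg hμ hp hp1 B F hD c hc) ht (d0_nonneg B F o)

lemma Fd_deriv (B : Finset V) (F : Finset G.edgeSet) (t : ℝ) :
    HasDerivAt (fun t => Fd μ p B F o t) (GGc μ p B F (Fd μ p B F o t)) t := by
  have h := hasDerivAt_sg_apply (GGc μ p B F) t (d0 B F o)
  rw [← sg_comm] at h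
  exact h

lemma up_nonneg {B : Finset V} {F : Finset G.edgeSet} {c : St B F → ℝ} (hc : 0 ≤ c) (x : V) (η : Env G) :
    0 ≤ up c x η := by
  unfold up cB; split_ifs
  · exact hc _
  · exact le_rfl

lemma up_mono {B : Finset V} {F : Finset G.edgeSet} {c d : St B F → ℝ} (hc : c ≤ d) (x : V) (η : Env G) :
    up c x η ≤ up d x η := by
  unfold up cB; split_ifs
  · exact hc _
  · exact le_rfl

/-- transfer between finite state spaces -/
noncomputable def tr {B : Finset V} {F : Finset G.edgeSet} (B' : Finset V) (F' : Finset G.edgeSet) :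
    (St B F → ℝ) →L[ℝ] (St B' F' → ℝ) :=
  LinearMap.toContinuousLinearMap
    { toFun := fun c i => up c i.1.1 (ext F' i.2)
      map_add' := fun c d => by funext i; exact up_add c d _ _
      map_smul' := fun a c => by funext i; exact up_smul a c _ _ }

lemma tr_apply {B : Finset V} {F : Finset G.edgeSet} (B' : Finset V) (F' : Finset G.edgeSet)
    (c : St B F → ℝ) (i : St B' F') : tr B' F' c i = up c i.1.1 (ext F' i.2) := rfl

lemma res_ext_res {F F' : Finset G.edgeSet} (h : F ⊆ F') (η : Env G) :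
    res F (ext F' (res F' η)) = res F η := by
  funext e; simp [res, ext, h e.2]

lemma up_congr {B : Finset V} {F : Finset G.edgeSet} (c : St B F → ℝ) (x : V) {η η' : Env G}
    (h : res F η = res F η') : up c x η = up c x η' := by unfold up; rw [h]

lemma up_tr {B B' : Finset V} {F F' : Finset G.edgeSet} (hF : F ⊆ F') (c : St B F → ℝ) {x : V}
    (hx : x ∈ B') (η : Env G) : up (tr B' F' c) x η = up c x η := by
  have : up (tr B' F' c) x η = tr B' F' c (⟨x, hx⟩, res F' η) := cB_mem _ hx _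
  rw [this, tr_apply]
  exact up_congr c x (res_ext_res hF η)

lemma up_tr_eq {B B' : Finset V} {F F' : Finset G.edgeSet} (hF : F ⊆ F') (hB : B ⊆ B')
    (c : St B F → ℝ) : up (tr B' F' c) = up c := by
  funext x η
  by_cases hx : x ∈ B'
  · exact up_tr hF c hx η
  · have h1 : up (tr B' F' c) x η = 0 := cB_not_mem _ hx _
    have h2 : up c x η = 0 := cB_not_mem _ (fun h => hx (hB h)) _
    rw [h1, h2]

lemma up_tr_le {B B' : Finset V} {F F' : Finset G.edgeSet} (hF : F ⊆ F')
    {c : St B F → ℝ} (hc : 0 ≤ c) (x : V) (η : Env G) : up (tr B' F' c) x η ≤ up c x η := by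
  by_cases hx : x ∈ B'
  · exact (up_tr hF c hx η).le
  · have h1 : up (tr B' F' c) x η = 0 := cB_not_mem _ hx _
    rw [h1]; exact up_nonneg hc x η

lemma gen_le_at {f g : V → Env G → ℝ} (h : ∀ x η, f x η ≤ g x η) {x : V} (hx : ∀ η, f x η = g x η)
    (η : Env G) : gen G μ p f x η ≤ gen G μ p g x η := by
  unfold gen
  simp only [hx]
  refine add_le_add_left ?_ _
  refine Finset.sum_le_sum fun y _ => ?_
  split_ifs
  · exact sub_le_sub_right (h y η) _
  · exact le_rfl

lemma GG_eq_gen {B : Finset V} {F : Finset G.edgeSet} (hF : Covers B F) (c : St B F → ℝ) (i : St B F) :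
    GG μ p B F c i = gen G μ p (up c) i.1.1 (ext F i.2) := by
  rw [gen_up_mem μ p hF c i.1.2, res_ext]

lemma tr_GG {B : Finset V} {F F' : Finset G.edgeSet} (hF : Covers B F) (hFF : F ⊆ F')
    (c : St B F → ℝ) : tr B F' (GGc μ p B F c) = GGc μ p B F' (tr B F' c) := by
  funext i
  rw [tr_apply, GGc_apply, GGc_apply, GG_eq_gen (hF.mono hFF), up_tr_eq hFF (Finset.Subset.refl _),
    gen_up_mem μ p hF c i.1.2]
  exact cB_mem _ i.1.2 _

lemma tr_d0 {B B' : Finset V} {F F' : Finset G.edgeSet} (hB : B' ⊆ B) :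
    tr B' F' (d0 B F o) = d0 B' F' o := by
  funext i
  rw [tr_apply]
  exact cB_mem _ (hB i.1.2) _

lemma tr_Fd {B : Finset V} {F F' : Finset G.edgeSet} (hF : Covers B F) (hFF : F ⊆ F') (t : ℝ) :
    tr B F' (Fd μ p B F o t) = Fd μ p B F' o t := by
  unfold Fd
  rw [sg_intertwine (GGc μ p B F) (GGc μ p B F') (tr B F') (tr_GG hF hFF), tr_d0 (Finset.Subset.refl _)]

lemma Fd_mono_aux (hμ : 0 ≤ μ) (hp : 0 ≤ p) (hp1 : p ≤ 1) {B B' : Finset V} {F' : Finset G.edgeSet}
    (hB : B ⊆ B') (hF' : Covers B' F') {D : ℕ} (hD : ∀ x, G.degree x ≤ D) {t : ℝ} (ht : 0 ≤ t) :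
    Fd μ p B F' o t ≤ tr B F' (Fd μ p B' F' o t) := by
  have hF : Covers B F' := fun x hx y h => hF' x (hB hx) y h
  have hc := comparison (GGc μ p B F') _ (fun c hc => GG_add_nonneg hμ hp hp1 B F' hD c hc) ht
    (v := fun s => tr B F' (Fd μ p B' F' o s) - Fd μ p B F' o s)
    (v' := fun s => tr B F' (GGc μ p B' F' (Fd μ p B' F' o s)) - GGc μ p B F' (Fd μ p B F' o s))
    (fun s _ => by
      have h1 : HasDerivAt (fun s => tr B F' (Fd μ p B' F' o s))
          (tr B F' (GGc μ p B' F' (Fd μ p B' F' o s))) s :=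
        (tr B F').hasFDerivAt.comp_hasDerivAt s (Fd_deriv B' F' s)
      exact (h1.sub (Fd_deriv B F' s)).hasDerivWithinAt)
    (fun s hs => by
      rw [map_sub]
      refine sub_le_sub_right ?_ _
      intro i
      rw [GGc_apply, GG_eq_gen hF, tr_apply]
      have hnn := Fd_nonneg (o := o) hμ hp hp1 B' F' hD hs.1
      have h2 : up (GGc μ p B' F' (Fd μ p B' F' o s)) i.1.1 (ext F' i.2) =
          gen G μ p (up (Fd μ p B' F' o s)) i.1.1 (ext F' i.2) := by
        rw [gen_up_mem μ p hF' _ (hB i.1.2)]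
        exact cB_mem _ (hB i.1.2) _
      rw [h2]
      exact gen_le_at (fun x η => up_tr_le (Finset.Subset.refl _) hnn x η)
        (fun η => up_tr (Finset.Subset.refl _) _ i.1.2 η) _)
    (by
      simp only [Fd_zero]
      rw [tr_d0 hB, sub_self])
  exact sub_nonneg.mp hc

/-- monotonicity of the finite volume densities -/
theorem Fd_mono (hμ : 0 ≤ μ) (hp : 0 ≤ p) (hp1 : p ≤ 1) {B B' : Finset V} {F F' : Finset G.edgeSet}
    (hB : B ⊆ B') (hFF : F ⊆ F') (hF : Covers B F) (hF' : Covers B' F') {D : ℕ}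
    (hD : ∀ x, G.degree x ≤ D) {t : ℝ} (ht : 0 ≤ t) (x : V) (η : Env G) :
    up (Fd μ p B F o t) x η ≤ up (Fd μ p B' F' o t) x η := by
  have h1 : up (Fd μ p B F o t) x η = up (Fd μ p B F' o t) x η := by
    rw [← tr_Fd hF hFF, up_tr_eq hFF (Finset.Subset.refl _)]
  rw [h1]
  refine (up_mono (Fd_mono_aux hμ hp hp1 hB hF' hD ht) x η).trans ?_
  exact up_tr_le (Finset.Subset.refl _) (Fd_nonneg hμ hp hp1 B' F' hD ht) x η

/-! ### pairing -/

lemma ip_sub_right' {S : Type*} [Fintype S] (w f g h : S → ℝ) : ip w f (g - h) = ip w f g - ip w f h := by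
  unfold ip; rw [← Finset.sum_sub_distrib]
  exact Finset.sum_congr rfl fun i _ => by simp only [Pi.sub_apply]; ring

lemma ip_hasDerivAt {S : Type*} [Fintype S] (w f : S → ℝ) {v : ℝ → S → ℝ} {v' : S → ℝ} {s : ℝ}
    (hv : HasDerivAt v v' s) : HasDerivAt (fun s => ip w f (v s)) (ip w f v') s := by
  unfold ip
  refine HasDerivAt.fun_sum fun i _ => ?_
  exact ((hasDerivAt_pi.mp hv i).const_mul (f i)).const_mul (w i)

lemma pair_deriv (B : Finset V) (F : Finset G.edgeSet) (c : St B F → ℝ) (t : ℝ) :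
    HasDerivAt (fun t => ip (ww p) c (Fd μ p B F o t)) (ip (ww p) (GG μ p B F c) (Fd μ p B F o t)) t := by
  rw [GG_symm]
  exact ip_hasDerivAt _ _ (Fd_deriv B F t)

lemma pair_mono (hμ : 0 ≤ μ) (hp : 0 ≤ p) (hp1 : p ≤ 1) (B : Finset V) (F : Finset G.edgeSet)
    {D : ℕ} (hD : ∀ x, G.degree x ≤ D) {t : ℝ} (ht : 0 ≤ t) {c d : St B F → ℝ} (h : c ≤ d) :
    ip (ww p) c (Fd μ p B F o t) ≤ ip (ww p) d (Fd μ p B F o t) := by
  unfold ip
  refine Finset.sum_le_sum fun i _ => ?_
  exact mul_le_mul_of_nonneg_left (mul_le_mul_of_nonneg_right (h i)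
    (Fd_nonneg hμ hp hp1 B F hD ht i)) (piW_nonneg hp hp1 _)

lemma pair_zero {B : Finset V} (ho : o ∈ B) (F : Finset G.edgeSet) (c : St B F → ℝ) :
    ip (ww p) c (Fd μ p B F o 0) = EE p (fun ξ => c (⟨o, ho⟩, ξ)) := by
  rw [Fd_zero]
  unfold ip ww EE d0
  rw [Fintype.sum_prod_type, Finset.sum_comm]
  refine Finset.sum_congr rfl fun ξ _ => ?_
  rw [Finset.sum_eq_single (⟨o, ho⟩ : {x // x ∈ B})]
  · simp
  · intro x _ hx
    rw [if_neg (fun hh => hx (Subtype.ext hh)), mul_zero, mul_zero]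
  · intro hh; exact absurd (Finset.mem_univ _) hh

lemma mass_le (hμ : 0 ≤ μ) (hp : 0 ≤ p) (hp1 : p ≤ 1) {B : Finset V} (ho : o ∈ B) (F : Finset G.edgeSet)
    {D : ℕ} (hD : ∀ x, G.degree x ≤ D) {t : ℝ} (ht : 0 ≤ t) :
    ip (ww p) (fun _ => 1) (Fd μ p B F o t) ≤ 1 := by
  have h := le_of_deriv (f := fun t => ip (ww p) (fun _ => 1) (Fd μ p B F o t)) (K := 0) ht
    (fun s _ => (pair_deriv B F (fun _ => 1) s).hasDerivWithinAt)
    (fun s hs => by
      have h1 := pair_mono (o := o) hμ hp hp1 B F hD hs.1 (GG_one_nonpos (μ := μ) (p := p) B F)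
      have h2 : ip (ww p) 0 (Fd μ p B F o s) = 0 := by simp [ip]
      rwa [h2] at h1)
  rw [pair_zero ho, EE_const] at h
  simpa using h

lemma mass_ge [MeasurableSpace V] [DiscreteMeasurableSpace V] (hμ : 0 ≤ μ) (hp : 0 ≤ p) (hp1 : p ≤ 1) {B : Finset V} {F : Finset G.edgeSet}
    (hF : Covers B F) {D : ℕ} (hD : ∀ x, G.degree x ≤ D) {R : ℕ} (hR : 1 ≤ R) (hB : bl G R o ⊆ B)
    {t : ℝ} (ht : 0 ≤ t) :
    1 - D / R * t ≤ ip (ww p) (fun _ => 1) (Fd μ p B F o t) := by
  have ho : o ∈ B := hB (self_mem_bl R o)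
  set c : St B F → ℝ := fun i => chi G R o i.1.1 with hc
  have hup : up c = fun y (_ : Env G) => chi G R o y := by
    funext y η
    by_cases hy : y ∈ B
    · exact cB_mem _ hy _
    · have h1 : up c y η = 0 := cB_not_mem _ hy _
      rw [h1]
      have h2 := chi_le (G := G) hR o y
      rw [if_neg (fun h => hy (hB h))] at h2
      have h3 : 0 ≤ chi G R o y := by
        unfold chi
        refine mul_nonneg (by positivity) (Finset.sum_nonneg fun n _ => ?_)
        split_ifs <;> norm_num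
      exact le_antisymm h3 h2
  have hDR : 0 ≤ (D : ℝ) / R := by positivity
  have h := ge_of_deriv (f := fun t => ip (ww p) c (Fd μ p B F o t)) (K := -((D : ℝ) / R)) ht
    (fun s _ => (pair_deriv B F c s).hasDerivWithinAt)
    (fun s hs => by
      have h1 : (-((D : ℝ) / R)) • (fun _ => 1 : St B F → ℝ) ≤ GG μ p B F c := by
        intro i
        rw [GG_eq_gen hF, hup]
        have := gen_chi_ge (μ := μ) (p := p) hR hD o i.1.1 (ext F i.2)
        simpa using this
      have h2 := pair_mono (o := o) hμ hp hp1 B F hD hs.1 h1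
      have h3 : ip (ww p) ((-((D : ℝ) / R)) • (fun _ => 1 : St B F → ℝ)) (Fd μ p B F o s) =
          -((D : ℝ) / R) * ip (ww p) (fun _ => 1) (Fd μ p B F o s) := by
        rw [ip_comm, ip_smul_right, ip_comm]
      rw [h3] at h2
      have h4 := mass_le (F := F) hμ hp hp1 ho hD hs.1
      nlinarith)
  rw [pair_zero ho] at h
  have h0 : (fun ξ : {e // e ∈ F} → Bool => c (⟨o, ho⟩, ξ)) = fun _ => (1 : ℝ) := by
    funext ξ; exact chi_self hR o
  rw [h0, EE_const] at h
  have h5 : c ≤ fun _ => 1 := by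
    intro i
    have := chi_le (G := G) hR o i.1.1
    refine this.trans ?_
    split_ifs <;> norm_num
  have h6 := pair_mono (o := o) hμ hp hp1 B F hD ht h5
  linarith

end Pool.Agent.Hhelper95.RWDP
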