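import Pool.Agent.Hhelper95.RWDP.Forms

/-!
# Symmetry and the energy comparison
-/

open Finset Classical

set_option linter.unusedSectionVars false

namespace Pool.Agent.Hhelper95.RWDP

open Sg Spectral

universe u

variable {V : Type u} {G : SimpleGraph V} [G.LocallyFinite]

/-- weights on the finite state space -/
noncomputable def ww (p : ℝ) {B : Finset V} {F : Finset G.edgeSet} (i : St B F) : ℝ := piW p i.2

lemma ip_eq (p : ℝ) {B : Finset V} {F : Finset G.edgeSet} (f g : St B F → ℝ) :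
    ip (ww p) f g = ∑ x ∈ B, EE p (fun ξ => cB f x ξ * cB g x ξ) := by
  unfold ip ww EE
  rw [Fintype.sum_prod_type, ← Finset.sum_coe_sort B]
  refine Finset.sum_congr rfl fun x _ => Finset.sum_congr rfl fun ξ _ => ?_
  simp only [cB_mem f x.2, cB_mem g x.2]

/-- open indicator in the configuration `ξ` -/
noncomputable def aO (F : Finset G.edgeSet) (ξ : {e // e ∈ F} → Bool) (x y : V) : ℝ :=
  if OpenEdge G (ext F ξ) x y then 1 else 0

lemma aO_symm (F : Finset G.edgeSet) (ξ : {e // e ∈ F} → Bool) (x y : V) : aO F ξ x y = aO F ξ y x := by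
  unfold aO; simp only [openEdge_symm]

lemma aO_zero (F : Finset G.edgeSet) (ξ : {e // e ∈ F} → Bool) (x y : V) (h : ¬ G.Adj x y) :
    aO F ξ x y = 0 := by
  unfold aO; rw [if_neg]; rintro ⟨h', _⟩; exact h h'

lemma aO_nonneg (F : Finset G.edgeSet) (ξ : {e // e ∈ F} → Bool) (x y : V) : 0 ≤ aO F ξ x y := by
  unfold aO; split_ifs <;> norm_num

lemma aO_le_one (F : Finset G.edgeSet) (ξ : {e // e ∈ F} → Bool) (x y : V) : aO F ξ x y ≤ 1 := by
  unfold aO; split_ifs <;> norm_num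

lemma cB_GG (μ p : ℝ) {B : Finset V} {F : Finset G.edgeSet} (c : St B F → ℝ) {x : V} (hx : x ∈ B)
    (ξ : {e // e ∈ F} → Bool) :
    cB (GG μ p B F c) x ξ = ∑ y ∈ G.neighborFinset x, aO F ξ x y * (cB c y ξ - cB c x ξ) +
      μ * ∑ e : {e // e ∈ F}, (pe p e (cB c x) ξ - cB c x ξ) := by
  rw [cB_mem _ hx, GG_apply]
  have h : cB c x = fun ξ => c (⟨x, hx⟩, ξ) := by funext ξ; exact cB_mem c hx ξ
  simp only [h, aO, ite_mul, one_mul, zero_mul]

lemma EE_finset_swap {κ : Type*} (p : ℝ) {ι : Type*} [Fintype ι] [DecidableEq ι] (s : Finset κ)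
    (f : κ → (ι → Bool) → ℝ) : ∑ k ∈ s, EE p (f k) = EE p (fun ξ => ∑ k ∈ s, f k ξ) :=
  (EE_sum p s f).symm

/-- splitting the bilinear form -/
lemma ip_GG (μ p : ℝ) {B : Finset V} {F : Finset G.edgeSet} (f g : St B F → ℝ) :
    ip (ww p) (GG μ p B F f) g =
      EE p (fun ξ => ∑ x ∈ B, (∑ y ∈ G.neighborFinset x, aO F ξ x y * (cB f y ξ - cB f x ξ)) * cB g x ξ) +
      μ * ∑ x ∈ B, ∑ e : {e // e ∈ F}, EE p (fun ξ => (pe p e (cB f x) ξ - cB f x ξ) * cB g x ξ) := by
  rw [ip_eq, ← EE_finset_swap, Finset.mul_sum, ← Finset.sum_add_distrib]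
  refine Finset.sum_congr rfl fun x hx => ?_
  rw [EE_finset_swap, ← EE_mul_left, ← EE_add]
  congr 1
  funext ξ
  rw [cB_GG μ p f hx, add_mul, mul_assoc, Finset.sum_mul, Finset.sum_mul]

lemma GG_symm (μ p : ℝ) {B : Finset V} {F : Finset G.edgeSet} (f g : St B F → ℝ) :
    ip (ww p) (GG μ p B F f) g = ip (ww p) f (GG μ p B F g) := by
  rw [ip_comm _ f, ip_GG, ip_GG]
  congr 1
  · congr 1
    funext ξ
    rw [walk_symm B (aO F ξ) (aO_symm F ξ) (aO_zero F ξ) (fun y => cB f y ξ) (fun y => cB g y ξ)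
      (fun y hy => cB_not_mem f hy ξ) (fun y hy => cB_not_mem g hy ξ)]
    exact Finset.sum_congr rfl fun x _ => mul_comm _ _
  · congr 1
    refine Finset.sum_congr rfl fun x _ => Finset.sum_congr rfl fun e _ => ?_
    have h1 := EE_pe_symm p e (cB f x) (cB g x)
    have e1 : EE p (fun ξ => (pe p e (cB f x) ξ - cB f x ξ) * cB g x ξ) =
        EE p (fun ξ => pe p e (cB f x) ξ * cB g x ξ) - EE p (fun ξ => cB f x ξ * cB g x ξ) := by
      rw [← EE_sub]; congr 1; funext ξ; ring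
    have e2 : EE p (fun ξ => (pe p e (cB g x) ξ - cB g x ξ) * cB f x ξ) =
        EE p (fun ξ => cB f x ξ * pe p e (cB g x) ξ) - EE p (fun ξ => cB f x ξ * cB g x ξ) := by
      rw [← EE_sub]; congr 1; funext ξ; ring
    rw [e1, e2, h1]

/-- the averaged function -/
noncomputable def bar (p : ℝ) {B : Finset V} {F : Finset G.edgeSet} (f : St B F → ℝ) (x : V) : ℝ :=
  EE p (fun ξ => cB f x ξ)

lemma bar_not_mem (p : ℝ) {B : Finset V} {F : Finset G.edgeSet} (f : St B F → ℝ) {x : V} (hx : x ∉ B) :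
    bar p f x = 0 := by
  unfold bar
  have : (fun ξ => cB f x ξ) = fun _ => (0 : ℝ) := funext fun ξ => cB_not_mem f hx ξ
  rw [this, EE_const]

/-- adjacency weights -/
noncomputable def aA (G : SimpleGraph V) (x y : V) : ℝ := if G.Adj x y then 1 else 0

lemma aA_symm (x y : V) : aA G x y = aA G y x := by unfold aA; simp only [G.adj_comm]

lemma aA_zero (x y : V) (h : ¬ G.Adj x y) : aA G x y = 0 := by unfold aA; rw [if_neg h]

lemma EE_aO (p : ℝ) {B : Finset V} {F : Finset G.edgeSet} (hF : Covers B F) {x y : V} (hx : x ∈ B)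
    (h : G.Adj x y) : EE p (fun ξ => aO F ξ x y) = p := by
  have he := hF x hx y h
  refine Eq.trans ?_ (EE_open p (⟨⟨s(x, y), h⟩, he⟩ : {e // e ∈ F}))
  congr 1
  funext ξ
  unfold aO
  have : OpenEdge G (ext F ξ) x y ↔ ξ ⟨⟨s(x, y), h⟩, he⟩ = true := by
    constructor
    · rintro ⟨h', h2⟩
      simpa [ext, he] using h2
    · intro h2
      exact ⟨h, by simpa [ext, he] using h2⟩
  simp only [this]

/-- the quadratic form of `-GG` -/
lemma ip_neg_GG (μ p : ℝ) {B : Finset V} {F : Finset G.edgeSet} (f : St B F → ℝ) :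
    - ip (ww p) f (GG μ p B F f) = EE p (fun ξ => En G B (aO F ξ) (fun x => cB f x ξ)) +
      μ * ∑ x ∈ B, ∑ e : {e // e ∈ F}, EE p (fun ξ => cB f x ξ * (cB f x ξ - pe p e (cB f x) ξ)) := by
  rw [ip_comm, ip_GG]
  have h1 : ∀ ξ, ∑ x ∈ B, (∑ y ∈ G.neighborFinset x, aO F ξ x y * (cB f y ξ - cB f x ξ)) * cB f x ξ =
      - En G B (aO F ξ) (fun x => cB f x ξ) := by
    intro ξ
    rw [← walk_energy B (aO F ξ) (aO_symm F ξ) (aO_zero F ξ) (fun y => cB f y ξ)
      (fun y hy => cB_not_mem f hy ξ), ← Finset.sum_neg_distrib]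
    refine Finset.sum_congr rfl fun x _ => ?_
    rw [Finset.sum_mul, Finset.mul_sum, ← Finset.sum_neg_distrib]
    exact Finset.sum_congr rfl fun y _ => by ring
  simp_rw [h1]
  have h2 : EE p (fun ξ => -En G B (aO F ξ) (fun x => cB f x ξ)) =
      - EE p (fun ξ => En G B (aO F ξ) (fun x => cB f x ξ)) := by
    have := EE_mul_left p (-1) (fun ξ => En G B (aO F ξ) (fun x => cB f x ξ))
    simpa using this
  have h3 : ∀ x, ∀ e : {e // e ∈ F}, EE p (fun ξ => (pe p e (cB f x) ξ - cB f x ξ) * cB f x ξ) =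
      - EE p (fun ξ => cB f x ξ * (cB f x ξ - pe p e (cB f x) ξ)) := by
    intro x e
    have := EE_mul_left p (-1) (fun ξ => cB f x ξ * (cB f x ξ - pe p e (cB f x) ξ))
    rw [neg_one_mul] at this
    rw [← this]
    congr 1; funext ξ; ring
  simp_rw [h2, h3, Finset.sum_neg_distrib]
  ring

/-- variance at `x` -/
noncomputable def vr (p : ℝ) {B : Finset V} {F : Finset G.edgeSet} (f : St B F → ℝ) (x : V) : ℝ :=
  EE p (fun ξ => (cB f x ξ - bar p f x) ^ 2)

lemma vr_nonneg {p : ℝ} (hp : 0 ≤ p) (hp1 : p ≤ 1) {B : Finset V} {F : Finset G.edgeSet}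
    (f : St B F → ℝ) (x : V) : 0 ≤ vr p f x := EE_nonneg hp hp1 fun ξ => sq_nonneg _

lemma vr_not_mem (p : ℝ) {B : Finset V} {F : Finset G.edgeSet} (f : St B F → ℝ) {x : V} (hx : x ∉ B) :
    vr p f x = 0 := by
  unfold vr
  rw [bar_not_mem p f hx]
  have : (fun ξ => (cB f x ξ - 0) ^ 2) = fun _ => (0 : ℝ) := by
    funext ξ; rw [cB_not_mem f hx ξ]; ring
  rw [this, EE_const]

lemma vr_eq (p : ℝ) {B : Finset V} {F : Finset G.edgeSet} (f : St B F → ℝ) (x : V) :
    vr p f x = EE p (fun ξ => cB f x ξ * cB f x ξ) - bar p f x ^ 2 := by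
  unfold vr
  have : EE p (fun ξ => (cB f x ξ - bar p f x) ^ 2) =
      EE p (fun ξ => cB f x ξ * cB f x ξ) - 2 * bar p f x * EE p (fun ξ => cB f x ξ) +
        EE p (fun _ : {e // e ∈ F} → Bool => bar p f x ^ 2) := by
    rw [← EE_mul_left, ← EE_sub, ← EE_add]; congr 1; funext ξ; ring
  rw [this, EE_const]
  unfold bar
  ring

lemma sum_vr (p : ℝ) {B : Finset V} {F : Finset G.edgeSet} (f : St B F → ℝ) :
    ∑ x ∈ B, vr p f x = ip (ww p) f f - ∑ x ∈ B, bar p f x ^ 2 := by
  rw [ip_eq, ← Finset.sum_sub_distrib]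
  exact Finset.sum_congr rfl fun x _ => vr_eq p f x

/-- one edge -/
lemma edge_bound {p : ℝ} (hp : 0 ≤ p) (hp1 : p ≤ 1) {B : Finset V} {F : Finset G.edgeSet}
    (hF : Covers B F) (f : St B F → ℝ) {x y : V} (hx : x ∈ B) (h : G.Adj x y) :
    p * (bar p f x - bar p f y) ^ 2 ≤
      2 * EE p (fun ξ => aO F ξ x y * (cB f x ξ - cB f y ξ) ^ 2) + 4 * (vr p f x + vr p f y) := by
  set wb := bar p f x - bar p f y with hwb
  have h1 : p * wb ^ 2 = EE p (fun ξ => aO F ξ x y * wb ^ 2) := by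
    have := EE_mul_left p (wb ^ 2) (fun ξ => aO F ξ x y)
    rw [EE_aO p hF hx h] at this
    rw [mul_comm, ← this]
    congr 1; funext ξ; ring
  have h2 : EE p (fun ξ => aO F ξ x y * wb ^ 2) ≤
      EE p (fun ξ => 2 * (aO F ξ x y * (cB f x ξ - cB f y ξ) ^ 2) +
        (4 * (cB f x ξ - bar p f x) ^ 2 + 4 * (cB f y ξ - bar p f y) ^ 2)) := by
    refine EE_mono hp hp1 fun ξ => ?_
    have ha0 := aO_nonneg F ξ x y
    have ha1 := aO_le_one F ξ x y
    set a := aO F ξ x y
    set u := cB f x ξ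
    set v := cB f y ξ
    have e1 : wb ^ 2 ≤ 2 * (u - v) ^ 2 + (4 * (u - bar p f x) ^ 2 + 4 * (v - bar p f y) ^ 2) := by
      have : wb = (u - v) - ((u - bar p f x) - (v - bar p f y)) := by rw [hwb]; ring
      rw [this]
      nlinarith [sq_nonneg ((u - v) + ((u - bar p f x) - (v - bar p f y))),
        sq_nonneg ((u - bar p f x) + (v - bar p f y))]
    have e2 : 0 ≤ (4 * (u - bar p f x) ^ 2 + 4 * (v - bar p f y) ^ 2) := by positivity
    nlinarith [mul_le_mul_of_nonneg_left e1 ha0, mul_le_of_le_one_left e2 ha1]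
  rw [h1]
  refine h2.trans (le_of_eq ?_)
  rw [EE_add, EE_mul_left, EE_add, EE_mul_left, EE_mul_left]
  unfold vr
  ring

/-- Energy comparison. -/
lemma energy_bound {μ p : ℝ} (hμ : 0 < μ) (hp : 0 < p) (hp1 : p ≤ 1) {B : Finset V}
    {F : Finset G.edgeSet} (hF : Covers B F) {D : ℕ} (hD : ∀ x, G.degree x ≤ D) (f : St B F → ℝ) :
    p * (En G B (aA G) (bar p f) + μ * (ip (ww p) f f - ∑ x ∈ B, bar p f x ^ 2)) ≤
      (3 + 8 * D / μ) * (- ip (ww p) f (GG μ p B F f)) := by
  rw [ip_neg_GG, ← sum_vr]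
  set W := EE p (fun ξ => En G B (aO F ξ) (fun x => cB f x ξ)) with hW
  set Vt := ∑ x ∈ B, vr p f x with hVt
  set Ev := ∑ x ∈ B, ∑ e : {e // e ∈ F}, EE p (fun ξ => cB f x ξ * (cB f x ξ - pe p e (cB f x) ξ)) with hEv
  have hVt0 : 0 ≤ Vt := Finset.sum_nonneg fun x _ => vr_nonneg hp.le hp1 f x
  have hW0 : 0 ≤ W := by
    refine EE_nonneg hp.le hp1 fun ξ => ?_
    unfold En
    exact Finset.sum_nonneg fun x _ => Finset.sum_nonneg fun y _ =>
      mul_nonneg (mul_nonneg (aO_nonneg _ _ _ _) (kap_nonneg _ _)) (sq_nonneg _)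
  have hVE : Vt ≤ Ev := by
    refine Finset.sum_le_sum fun x _ => ?_
    unfold vr bar
    exact efron_stein hp.le hp1 (cB f x)
  -- walk part
  have hwalk : p * En G B (aA G) (bar p f) ≤ 2 * W + 8 * D * Vt := by
    have h1 : p * En G B (aA G) (bar p f) ≤ ∑ x ∈ B, ∑ y ∈ G.neighborFinset x,
        (2 * (kap B y * EE p (fun ξ => aO F ξ x y * (cB f x ξ - cB f y ξ) ^ 2)) +
          4 * (vr p f x + vr p f y)) := by
      unfold En
      rw [Finset.mul_sum]
      refine Finset.sum_le_sum fun x hx => ?_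
      rw [Finset.mul_sum]
      refine Finset.sum_le_sum fun y hy => ?_
      have hadj : G.Adj x y := by simpa using hy
      have h2 := edge_bound hp.le hp1 hF f hx hadj
      have hk0 := kap_nonneg B y
      have hk1 := kap_le_one B y
      have ha : aA G x y = 1 := by simp [aA, hadj]
      rw [ha]
      have hv : 0 ≤ 4 * (vr p f x + vr p f y) := by
        have := vr_nonneg hp.le hp1 f x
        have := vr_nonneg hp.le hp1 f y
        linarith
      calc p * (1 * kap B y * (bar p f x - bar p f y) ^ 2)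
          = kap B y * (p * (bar p f x - bar p f y) ^ 2) := by ring
        _ ≤ kap B y * (2 * EE p (fun ξ => aO F ξ x y * (cB f x ξ - cB f y ξ) ^ 2) +
            4 * (vr p f x + vr p f y)) := mul_le_mul_of_nonneg_left h2 hk0
        _ = 2 * (kap B y * EE p (fun ξ => aO F ξ x y * (cB f x ξ - cB f y ξ) ^ 2)) +
            kap B y * (4 * (vr p f x + vr p f y)) := by ring
        _ ≤ _ := by
            have := mul_le_of_le_one_left hv hk1
            linarith
    refine h1.trans ?_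
    simp_rw [Finset.sum_add_distrib]
    have hA : ∑ x ∈ B, ∑ y ∈ G.neighborFinset x,
        2 * (kap B y * EE p (fun ξ => aO F ξ x y * (cB f x ξ - cB f y ξ) ^ 2)) = 2 * W := by
      rw [hW]
      unfold En
      rw [EE_sum, Finset.mul_sum]
      refine Finset.sum_congr rfl fun x _ => ?_
      rw [EE_sum, Finset.mul_sum]
      refine Finset.sum_congr rfl fun y _ => ?_
      rw [← EE_mul_left]
      congr 2
      funext ξ; ring
    have hB : ∑ x ∈ B, ∑ y ∈ G.neighborFinset x, 4 * (vr p f x + vr p f y) ≤ 8 * D * Vt := by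
      have hB1 : ∑ x ∈ B, ∑ y ∈ G.neighborFinset x, vr p f x ≤ D * Vt := by
        rw [hVt, Finset.mul_sum]
        refine Finset.sum_le_sum fun x _ => ?_
        rw [Finset.sum_const, nsmul_eq_mul]
        refine mul_le_mul_of_nonneg_right ?_ (vr_nonneg hp.le hp1 f x)
        exact_mod_cast hD x
      have hB2 : ∑ x ∈ B, ∑ y ∈ G.neighborFinset x, vr p f y ≤ D * Vt := by
        have e1 : ∀ x, ∑ y ∈ G.neighborFinset x, vr p f y = ∑ y ∈ B, aA G x y * vr p f y := by
          intro x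
          rw [← sum_nbr B (aA G x) (aA_zero x) _ (fun y hy => vr_not_mem p f hy)]
          refine Finset.sum_congr rfl fun y hy => ?_
          have hadj : G.Adj x y := by simpa using hy
          simp [aA, hadj]
        simp_rw [e1]
        rw [Finset.sum_comm, hVt, Finset.mul_sum]
        refine Finset.sum_le_sum fun y _ => ?_
        rw [← Finset.sum_mul]
        refine mul_le_mul_of_nonneg_right ?_ (vr_nonneg hp.le hp1 f y)
        have e2 : ∑ x ∈ B, aA G x y ≤ ∑ x ∈ G.neighborFinset y, (1 : ℝ) := by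
          have e3 : ∑ x ∈ B, aA G x y = ∑ x ∈ B with G.Adj x y, (1 : ℝ) := by
            rw [Finset.sum_filter]; rfl
          rw [e3]
          refine Finset.sum_le_sum_of_subset_of_nonneg ?_ (fun _ _ _ => zero_le_one)
          intro x hx
          simp only [Finset.mem_filter] at hx
          simpa using hx.2.symm
        refine e2.trans ?_
        simp only [Finset.sum_const, nsmul_eq_mul, mul_one]
        exact_mod_cast hD y
      have hB3 : ∑ x ∈ B, ∑ y ∈ G.neighborFinset x, 4 * (vr p f x + vr p f y) =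
          4 * (∑ x ∈ B, ∑ y ∈ G.neighborFinset x, vr p f x + ∑ x ∈ B, ∑ y ∈ G.neighborFinset x, vr p f y) := by
        rw [← Finset.sum_add_distrib, Finset.mul_sum]
        refine Finset.sum_congr rfl fun x _ => ?_
        rw [← Finset.sum_add_distrib, Finset.mul_sum]
      rw [hB3]
      linarith
    rw [hA]
    linarith
  have hμV : μ * Vt ≤ μ * Ev := mul_le_mul_of_nonneg_left hVE hμ.le
  have hEv0 : 0 ≤ Ev := hVt0.trans hVE
  have hD0 : (0 : ℝ) ≤ 8 * D := by positivity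
  have h8 : 8 * D * Vt ≤ 8 * D / μ * (μ * Ev) := by
    have : 8 * D / μ * (μ * Ev) = 8 * D * Ev := by field_simp
    rw [this]
    exact mul_le_mul_of_nonneg_left hVE hD0
  have hpμ : p * (μ * Vt) ≤ μ * Ev := by
    have : p * (μ * Vt) ≤ 1 * (μ * Vt) := mul_le_mul_of_nonneg_right hp1 (mul_nonneg hμ.le hVt0)
    linarith
  have hdiv : 0 ≤ 8 * D / μ := div_nonneg hD0 hμ.le
  have hWμ : 0 ≤ W := hW0
  have hfin : (3 + 8 * D / μ) * (W + μ * Ev) = 3 * W + 3 * (μ * Ev) + 8 * D / μ * W +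
      8 * D / μ * (μ * Ev) := by ring
  rw [hfin]
  have := mul_nonneg hdiv hWμ
  have := mul_nonneg hμ.le hEv0
  have hexp : p * (En G B (aA G) (bar p f) + μ * Vt) = p * En G B (aA G) (bar p f) + p * (μ * Vt) := by ring
  rw [hexp]
  linarith

end Pool.Agent.Hhelper95.RWDP
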