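import Mathlib

/-!
# Finite product Bernoulli measures: averages and the tensorised Poincaré inequality
-/

open Finset

set_option linter.unusedSectionVars false

namespace Pool.Agent.Hhelper95.RWDP

variable {ι : Type*} [Fintype ι] [DecidableEq ι]

/-- Product Bernoulli(p) weights on `ι → Bool`. -/
def piW (p : ℝ) (ξ : ι → Bool) : ℝ := ∏ e, if ξ e then p else 1 - p

/-- Expectation. -/
def EE (p : ℝ) (h : (ι → Bool) → ℝ) : ℝ := ∑ ξ, piW p ξ * h ξ

/-- Resampling coordinate `e`. -/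
def pe (p : ℝ) (e : ι) (h : (ι → Bool) → ℝ) (ξ : ι → Bool) : ℝ :=
  p * h (Function.update ξ e true) + (1 - p) * h (Function.update ξ e false)

lemma piW_nonneg {p : ℝ} (hp : 0 ≤ p) (hp1 : p ≤ 1) (ξ : ι → Bool) : 0 ≤ piW p ξ := by
  refine Finset.prod_nonneg fun e _ => ?_
  split_ifs <;> linarith

lemma piW_pos {p : ℝ} (hp : 0 < p) (hp1 : p < 1) (ξ : ι → Bool) : 0 < piW p ξ := by
  refine Finset.prod_pos fun e _ => ?_
  split_ifs <;> linarith

lemma sum_piW (p : ℝ) : ∑ ξ : ι → Bool, piW p ξ = 1 := by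
  have h := Fintype.prod_sum (fun (_ : ι) (b : Bool) => if b then p else 1 - p)
  simp only [Fintype.sum_bool] at h
  unfold piW
  rw [← h]
  simp

lemma EE_add (p : ℝ) (f g : (ι → Bool) → ℝ) : EE p (fun ξ => f ξ + g ξ) = EE p f + EE p g := by
  unfold EE; rw [← Finset.sum_add_distrib]; exact Finset.sum_congr rfl fun _ _ => by ring

lemma EE_sub (p : ℝ) (f g : (ι → Bool) → ℝ) : EE p (fun ξ => f ξ - g ξ) = EE p f - EE p g := by
  unfold EE; rw [← Finset.sum_sub_distrib]; exact Finset.sum_congr rfl fun _ _ => by ring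

lemma EE_mul_left (p a : ℝ) (f : (ι → Bool) → ℝ) : EE p (fun ξ => a * f ξ) = a * EE p f := by
  unfold EE; rw [Finset.mul_sum]; exact Finset.sum_congr rfl fun _ _ => by ring

lemma EE_const (p a : ℝ) : EE (ι := ι) p (fun _ => a) = a := by
  unfold EE; rw [← Finset.sum_mul, sum_piW, one_mul]

lemma EE_sum {κ : Type*} (p : ℝ) (s : Finset κ) (f : κ → (ι → Bool) → ℝ) :
    EE p (fun ξ => ∑ k ∈ s, f k ξ) = ∑ k ∈ s, EE p (f k) := by
  unfold EE
  rw [Finset.sum_comm]
  exact Finset.sum_congr rfl fun _ _ => by rw [Finset.mul_sum]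

lemma EE_mono {p : ℝ} (hp : 0 ≤ p) (hp1 : p ≤ 1) {f g : (ι → Bool) → ℝ} (h : ∀ ξ, f ξ ≤ g ξ) :
    EE p f ≤ EE p g :=
  Finset.sum_le_sum fun ξ _ => mul_le_mul_of_nonneg_left (h ξ) (piW_nonneg hp hp1 ξ)

lemma EE_nonneg {p : ℝ} (hp : 0 ≤ p) (hp1 : p ≤ 1) {f : (ι → Bool) → ℝ} (h : ∀ ξ, 0 ≤ f ξ) :
    0 ≤ EE p f :=
  Finset.sum_nonneg fun ξ _ => mul_nonneg (piW_nonneg hp hp1 ξ) (h ξ)

/-- split a configuration at `e`. -/
lemma sum_split (e : ι) (f : (ι → Bool) → ℝ) :
    ∑ ξ, f ξ = ∑ ζ : {j // j ≠ e} → Bool,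
      (f ((Equiv.funSplitAt e Bool).symm (true, ζ)) + f ((Equiv.funSplitAt e Bool).symm (false, ζ))) := by
  rw [← (Equiv.funSplitAt e Bool).symm.sum_comp f, Fintype.sum_prod_type, Finset.sum_comm]
  simp only [Fintype.sum_bool]

lemma update_split (e : ι) (b b' : Bool) (ζ : {j // j ≠ e} → Bool) :
    Function.update ((Equiv.funSplitAt e Bool).symm (b, ζ)) e b' =
      (Equiv.funSplitAt e Bool).symm (b', ζ) := by
  funext j
  by_cases hj : j = e
  · subst hj; simp [Equiv.funSplitAt, Equiv.piSplitAt]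
  · simp [Function.update, hj, Equiv.funSplitAt, Equiv.piSplitAt]

lemma piW_split (p : ℝ) (e : ι) (b : Bool) (ζ : {j // j ≠ e} → Bool) :
    piW p ((Equiv.funSplitAt e Bool).symm (b, ζ)) =
      (if b then p else 1 - p) * ∏ j, if ζ j then p else 1 - p := by
  unfold piW
  rw [← Finset.mul_prod_erase Finset.univ _ (Finset.mem_univ e)]
  congr 1
  · simp [Equiv.funSplitAt, Equiv.piSplitAt]
  · rw [Finset.prod_subtype (s := Finset.univ.erase e) (p := fun j => j ≠ e)
      (f := fun j => if (Equiv.funSplitAt e Bool).symm (b, ζ) j then p else 1 - p) (by simp)]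
    refine Finset.prod_congr rfl fun j _ => ?_
    have hj := j.2
    simp [Equiv.funSplitAt, Equiv.piSplitAt, hj]

/-- Resampling preserves the expectation. -/
lemma EE_pe (p : ℝ) (e : ι) (h : (ι → Bool) → ℝ) : EE p (pe p e h) = EE p h := by
  unfold EE pe
  rw [sum_split e, sum_split e]
  refine Finset.sum_congr rfl fun ζ _ => ?_
  simp only [update_split, piW_split, if_true, Bool.false_eq_true, if_false]
  ring

lemma pe_pe_mul (p : ℝ) (e : ι) (f g : (ι → Bool) → ℝ) (ξ : ι → Bool) :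
    pe p e (fun ξ => f ξ * pe p e g ξ) ξ = pe p e f ξ * pe p e g ξ := by
  unfold pe
  simp only [Function.update_idem]
  ring

lemma EE_mul_pe (p : ℝ) (e : ι) (f g : (ι → Bool) → ℝ) :
    EE p (fun ξ => f ξ * pe p e g ξ) = EE p (fun ξ => pe p e f ξ * pe p e g ξ) := by
  rw [← EE_pe p e (fun ξ => f ξ * pe p e g ξ)]
  congr 1
  funext ξ
  exact pe_pe_mul p e f g ξ

lemma EE_pe_symm (p : ℝ) (e : ι) (f g : (ι → Bool) → ℝ) :
    EE p (fun ξ => pe p e f ξ * g ξ) = EE p (fun ξ => f ξ * pe p e g ξ) := by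
  rw [EE_mul_pe]
  have : EE p (fun ξ => pe p e f ξ * g ξ) = EE p (fun ξ => g ξ * pe p e f ξ) := by
    congr 1; funext ξ; ring
  rw [this, EE_mul_pe]
  congr 1; funext ξ; ring

/-- Probability that a coordinate is open. -/
lemma EE_open (p : ℝ) (e : ι) : EE p (fun ξ => if ξ e then (1 : ℝ) else 0) = p := by
  rw [← EE_pe p e]
  have : (pe p e fun ξ => if ξ e then (1 : ℝ) else 0) = fun _ => p := by
    funext ξ; simp [pe]
  rw [this, EE_const]

/-- variance form -/
lemma EE_sq_sub (p : ℝ) (e : ι) (f : (ι → Bool) → ℝ) :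
    EE p (fun ξ => (f ξ - pe p e f ξ) ^ 2) = EE p (fun ξ => f ξ * (f ξ - pe p e f ξ)) := by
  have h1 : EE p (fun ξ => f ξ * pe p e f ξ) = EE p (fun ξ => pe p e f ξ * pe p e f ξ) := EE_mul_pe p e f f
  have e1 : EE p (fun ξ => (f ξ - pe p e f ξ) ^ 2) =
      EE p (fun ξ => f ξ * f ξ) - 2 * EE p (fun ξ => f ξ * pe p e f ξ) +
        EE p (fun ξ => pe p e f ξ * pe p e f ξ) := by
    rw [← EE_mul_left, ← EE_sub, ← EE_add]; congr 1; funext ξ; ring
  have e2 : EE p (fun ξ => f ξ * (f ξ - pe p e f ξ)) =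
      EE p (fun ξ => f ξ * f ξ) - EE p (fun ξ => f ξ * pe p e f ξ) := by
    rw [← EE_sub]; congr 1; funext ξ; ring
  rw [e1, e2, ← h1]; ring

lemma EE_pe_sq_le {p : ℝ} (hp : 0 ≤ p) (hp1 : p ≤ 1) (e : ι) (g : (ι → Bool) → ℝ) :
    EE p (fun ξ => (pe p e g ξ) ^ 2) ≤ EE p (fun ξ => g ξ ^ 2) := by
  have h := EE_sq_sub p e g
  have h0 : 0 ≤ EE p (fun ξ => (g ξ - pe p e g ξ) ^ 2) := EE_nonneg hp hp1 fun ξ => sq_nonneg _
  have h1 : EE p (fun ξ => g ξ * pe p e g ξ) = EE p (fun ξ => pe p e g ξ * pe p e g ξ) := EE_mul_pe p e g g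
  have e2 : EE p (fun ξ => g ξ * (g ξ - pe p e g ξ)) =
      EE p (fun ξ => g ξ ^ 2) - EE p (fun ξ => g ξ * pe p e g ξ) := by
    rw [← EE_sub]; congr 1; funext ξ; ring
  have e3 : EE p (fun ξ => (pe p e g ξ) ^ 2) = EE p (fun ξ => pe p e g ξ * pe p e g ξ) := by
    congr 1; funext ξ; ring
  linarith

/-- Iterated averaging. -/
def peL (p : ℝ) (L : List ι) (h : (ι → Bool) → ℝ) : (ι → Bool) → ℝ :=
  L.foldr (fun e g => pe p e g) h

lemma EE_peL (p : ℝ) (L : List ι) (h : (ι → Bool) → ℝ) : EE p (peL p L h) = EE p h := by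
  induction L with
  | nil => rfl
  | cons e L ih => simp only [peL, List.foldr_cons] at ih ⊢; rw [EE_pe, ih]

lemma efron_stein_list {p : ℝ} (hp : 0 ≤ p) (hp1 : p ≤ 1) (L : List ι) (f : (ι → Bool) → ℝ) :
    EE p (fun ξ => (f ξ - peL p L f ξ) ^ 2) ≤
      (L.map fun e => EE p (fun ξ => (f ξ - pe p e f ξ) ^ 2)).sum := by
  induction L with
  | nil => simp [peL, EE]
  | cons e L ih =>
    simp only [List.map_cons, List.sum_cons]
    have hcons : peL p (e :: L) f = pe p e (peL p L f) := rfl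
    rw [hcons]
    set g : (ι → Bool) → ℝ := fun ξ => f ξ - peL p L f ξ with hg
    have hpeg : ∀ ξ, pe p e g ξ = pe p e f ξ - pe p e (peL p L f) ξ := by
      intro ξ; simp only [pe, hg]; ring
    have hsplit : EE p (fun ξ => (f ξ - pe p e (peL p L f) ξ) ^ 2) =
        EE p (fun ξ => (f ξ - pe p e f ξ) ^ 2) + EE p (fun ξ => (pe p e g ξ) ^ 2) := by
      have hcross : EE p (fun ξ => (f ξ - pe p e f ξ) * pe p e g ξ) = 0 := by
        have h1 : EE p (fun ξ => f ξ * pe p e g ξ) = EE p (fun ξ => pe p e f ξ * pe p e g ξ) :=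
          EE_mul_pe p e f g
        have h2 : EE p (fun ξ => (f ξ - pe p e f ξ) * pe p e g ξ) =
            EE p (fun ξ => f ξ * pe p e g ξ) - EE p (fun ξ => pe p e f ξ * pe p e g ξ) := by
          rw [← EE_sub]; congr 1; funext ξ; ring
        rw [h2, h1, sub_self]
      have h3 : EE p (fun ξ => (f ξ - pe p e (peL p L f) ξ) ^ 2) =
          EE p (fun ξ => (f ξ - pe p e f ξ) ^ 2) + 2 * EE p (fun ξ => (f ξ - pe p e f ξ) * pe p e g ξ)
            + EE p (fun ξ => (pe p e g ξ) ^ 2) := by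
        rw [← EE_mul_left, ← EE_add, ← EE_add]; congr 1; funext ξ; rw [hpeg]; ring
      rw [h3, hcross]; ring
    rw [hsplit]
    have := EE_pe_sq_le hp hp1 e g
    linarith

lemma pe_indep_self (p : ℝ) (e : ι) (g : (ι → Bool) → ℝ) (ξ : ι → Bool) (b : Bool) :
    pe p e g (Function.update ξ e b) = pe p e g ξ := by
  simp [pe]

lemma pe_indep_of (p : ℝ) {e e' : ι} (g : (ι → Bool) → ℝ)
    (hg : ∀ ξ b, g (Function.update ξ e' b) = g ξ) (ξ : ι → Bool) (b : Bool) :
    pe p e g (Function.update ξ e' b) = pe p e g ξ := by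
  by_cases h : e' = e
  · subst h; exact pe_indep_self p e' g ξ b
  · simp only [pe]
    rw [Function.update_comm h, hg, Function.update_comm h, hg]

lemma peL_indep (p : ℝ) (L : List ι) (f : (ι → Bool) → ℝ) {e : ι} (he : e ∈ L) (ξ : ι → Bool)
    (b : Bool) : peL p L f (Function.update ξ e b) = peL p L f ξ := by
  induction L generalizing ξ b with
  | nil => simp at he
  | cons a L ih =>
    change pe p a (peL p L f) (Function.update ξ e b) = pe p a (peL p L f) ξ
    rcases List.mem_cons.mp he with h | h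
    · subst h; exact pe_indep_self p e _ ξ b
    · exact pe_indep_of p _ (fun ξ b => ih h ξ b) ξ b

lemma const_of_indep {g : (ι → Bool) → ℝ} (hg : ∀ e ξ b, g (Function.update ξ e b) = g ξ)
    (ξ ξ' : ι → Bool) : g ξ = g ξ' := by
  have key : ∀ s : Finset ι, g (fun e => if e ∈ s then ξ' e else ξ e) = g ξ := by
    intro s
    induction s using Finset.induction_on with
    | empty => simp
    | insert a s ha ih =>
      have : (fun e => if e ∈ insert a s then ξ' e else ξ e) =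
          Function.update (fun e => if e ∈ s then ξ' e else ξ e) a (ξ' a) := by
        funext e
        by_cases h : e = a
        · subst h; simp
        · simp [Function.update, h]
      rw [this, hg, ih]
  have := key Finset.univ
  simpa using this.symm

/-- Efron–Stein (tensorised Poincaré) inequality. -/
lemma efron_stein {p : ℝ} (hp : 0 ≤ p) (hp1 : p ≤ 1) (f : (ι → Bool) → ℝ) :
    EE p (fun ξ => (f ξ - EE p f) ^ 2) ≤ ∑ e, EE p (fun ξ => f ξ * (f ξ - pe p e f ξ)) := by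
  have h := efron_stein_list hp hp1 (Finset.univ : Finset ι).toList f
  have hconst : ∀ ξ, peL p (Finset.univ : Finset ι).toList f ξ = EE p f := by
    intro ξ
    have hc : ∀ ξ', peL p (Finset.univ : Finset ι).toList f ξ' = peL p (Finset.univ : Finset ι).toList f ξ :=
      fun ξ' => const_of_indep (fun e ξ b => peL_indep p _ f (by simp) ξ b) ξ' ξ
    rw [← EE_peL p (Finset.univ : Finset ι).toList f]
    have : peL p (Finset.univ : Finset ι).toList f = fun _ => peL p (Finset.univ : Finset ι).toList f ξ :=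
      funext hc
    conv_rhs => rw [this]
    rw [EE_const]
  simp only [hconst] at h
  refine h.trans (le_of_eq ?_)
  rw [Finset.sum_map_toList]
  exact Finset.sum_congr rfl fun e _ => EE_sq_sub p e f

end Pool.Agent.Hhelper95.RWDP
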