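import Pool.Agent.Hhelper95.RWDP.Ref

/-!
# Existence of the flows
-/

open Finset Classical MeasureTheory

set_option linter.unusedSectionVars false

namespace Pool.Agent.Hhelper95.RWDP

open Sg Spectral

universe u

/-! ### calculus -/

lemma taylor {u v w : ℝ → ℝ} {M : ℝ} (hu : ∀ s, 0 ≤ s → HasDerivAt u (v s) s)
    (hv : ∀ s, 0 ≤ s → HasDerivAt v (w s) s) (hw : ∀ s, 0 ≤ s → |w s| ≤ M) {s t : ℝ}
    (hs : 0 ≤ s) (ht : 0 ≤ t) : |u t - u s - (t - s) * v s| ≤ M * (t - s) ^ 2 := by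
  have hM : 0 ≤ M := (abs_nonneg _).trans (hw 0 le_rfl)
  have hseg : ∀ r ∈ Set.uIcc s t, 0 ≤ r := by
    intro r hr
    have := hr.1
    exact (le_min hs ht).trans this
  have hconv : Convex ℝ (Set.uIcc s t) := convex_uIcc s t
  have hlip : ∀ r ∈ Set.uIcc s t, |v r - v s| ≤ M * |t - s| := by
    intro r hr
    have h1 := hconv.norm_image_sub_le_of_norm_hasDerivWithin_le (f := v) (f' := w) (C := M)
      (fun x hx => (hv x (hseg x hx)).hasDerivWithinAt) (fun x hx => by simpa using hw x (hseg x hx))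
      (Set.left_mem_uIcc) hr
    simp only [Real.norm_eq_abs] at h1
    refine h1.trans (mul_le_mul_of_nonneg_left ?_ hM)
    exact Set.abs_sub_left_of_mem_uIcc hr |>.trans_eq' rfl
  have h2 := hconv.norm_image_sub_le_of_norm_hasDerivWithin_le (f := fun r => u r - r * v s)
    (f' := fun r => v r - v s) (C := M * |t - s|)
    (fun x hx => by
      have h3 := (hu x (hseg x hx)).fun_sub ((hasDerivAt_id x).mul_const (v s))
      simpa using h3.hasDerivWithinAt)
    (fun x hx => by simpa using hlip x hx)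
    (Set.left_mem_uIcc) (Set.right_mem_uIcc)
  simp only [Real.norm_eq_abs] at h2
  have e1 : u t - u s - (t - s) * v s = u t - t * v s - (u s - s * v s) := by ring
  have e2 : M * (t - s) ^ 2 = M * |t - s| * |t - s| := by
    rw [mul_assoc, abs_mul_abs_self]; ring
  rw [e1, e2]
  exact h2

lemma le_of_forall_ge {a b K : ℝ} {N : ℕ} (h : ∀ n : ℕ, N ≤ n → a ≤ b + K / n) : a ≤ b := by
  have h1 : Filter.Tendsto (fun R : ℕ => b + K / (R : ℝ)) Filter.atTop (nhds (b + 0)) :=
    (tendsto_const_div_atTop_nhds_zero_nat K).const_add b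
  rw [add_zero] at h1
  exact ge_of_tendsto h1 (Filter.eventually_atTop.mpr ⟨N, h⟩)

lemma hasDeriv_of_quad {u : ℝ → ℝ} {v M s : ℝ} (h : ∀ t, 0 ≤ t → |u t - u s - (t - s) * v| ≤ M * (t - s) ^ 2) :
    HasDerivWithinAt u v (Set.Ici 0) s := by
  rw [hasDerivWithinAt_iff_isLittleO, Asymptotics.isLittleO_iff]
  intro c hc
  have hM' : 0 < |M| + 1 := by positivity
  have hnear : ∀ᶠ t in nhdsWithin s (Set.Ici 0), |t - s| < c / (|M| + 1) := by
    refine nhdsWithin_le_nhds ?_
    have := Metric.ball_mem_nhds s (ε := c / (|M| + 1)) (by positivity)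
    filter_upwards [this] with t ht
    simpa [Real.dist_eq] using ht
  filter_upwards [hnear, self_mem_nhdsWithin] with t ht1 ht2
  have h1 := h t ht2
  simp only [smul_eq_mul, Real.norm_eq_abs]
  refine h1.trans ?_
  have h3 : M ≤ |M| + 1 := (le_abs_self M).trans (by linarith)
  calc M * (t - s) ^ 2 ≤ (|M| + 1) * (t - s) ^ 2 := mul_le_mul_of_nonneg_right h3 (sq_nonneg _)
    _ = ((|M| + 1) * |t - s|) * |t - s| := by rw [mul_assoc, abs_mul_abs_self]; ring
    _ ≤ c * |t - s| := by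
      refine mul_le_mul_of_nonneg_right ?_ (abs_nonneg _)
      rw [lt_div_iff₀ hM'] at ht1
      linarith

variable {V : Type u} {G : SimpleGraph V} [G.LocallyFinite]
variable [MeasurableSpace V] [DiscreteMeasurableSpace V]
variable {μ p : ℝ} {o : V}

/-! ### locality -/

lemma local_bdd {f : V → Env G → ℝ} (hf : IsLocal G f) : ∃ M : ℝ, 0 ≤ M ∧ ∀ x η, |f x η| ≤ M := by
  obtain ⟨B, F, c, _, rfl⟩ := local_up hf
  refine ⟨‖c‖, norm_nonneg _, fun x η => ?_⟩
  unfold up cB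
  split_ifs
  · exact norm_le_pi_norm c _
  · simp

lemma local_add {f g : V → Env G → ℝ} (hf : IsLocal G f) (hg : IsLocal G g) :
    IsLocal G (fun x η => f x η + g x η) := by
  obtain ⟨B, F, h1, h2⟩ := hf
  obtain ⟨B', F', h1', h2'⟩ := hg
  refine ⟨B ∪ B', F ∪ F', fun x hx η => ?_, fun x η η' h => ?_⟩
  · change f x η + g x η = 0
    rw [h1 x (fun h => hx (Finset.mem_union_left _ h)), h1' x (fun h => hx (Finset.mem_union_right _ h)),
      add_zero]
  · change f x η + g x η = f x η' + g x η'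
    rw [h2 x η η' (fun e he => h e (Finset.mem_union_left _ he)),
      h2' x η η' (fun e he => h e (Finset.mem_union_right _ he))]

lemma gen_local {f : V → Env G → ℝ} (hf : IsLocal G f) : IsLocal G (gen G μ p f) := by
  obtain ⟨B, F, c, hF, rfl⟩ := local_up hf
  have h : gen G μ p (up c) = fun x η => up (GG μ p B F c) x η + bd c x η := by
    funext x η; exact gen_up μ p hF c x η
  rw [h]
  exact local_add (up_local _) (bd_local hF c)

/-! ### exhaustion -/

/-- finite volume density in the ball of radius `n` -/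
noncomputable def fn (G : SimpleGraph V) [G.LocallyFinite] (μ p : ℝ) (o : V) (n : ℕ) (t : ℝ) :
    St (bl G n o) (eB (G := G) (bl G n o)) → ℝ :=
  Fd μ p (bl G n o) (eB (bl G n o)) o t

lemma eB_mono {B B' : Finset V} (h : B ⊆ B') : eB (G := G) B ⊆ eB B' := by
  unfold eB
  exact Finset.biUnion_subset_biUnion_of_subset_left _ h

lemma mem_eB {B : Finset V} {x y : V} (hx : x ∈ B) (h : G.Adj x y) :
    (⟨s(x, y), h⟩ : G.edgeSet) ∈ eB (G := G) B := covers_eB B x hx y h

lemma exists_ball (hc : G.Connected) (o : V) (B : Finset V) (F : Finset G.edgeSet) :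
    ∃ n, B ⊆ bl G n o ∧ F ⊆ eB (bl G n o) := by
  have h1 : ∃ n, B ⊆ bl G n o := by
    induction B using Finset.induction_on with
    | empty => exact ⟨0, Finset.empty_subset _⟩
    | insert a s _ ih =>
      obtain ⟨n, hn⟩ := ih
      obtain ⟨m, hm⟩ := exists_mem_bl hc o a
      refine ⟨max n m, Finset.insert_subset (bl_mono (le_max_right n m) o hm)
        (hn.trans (bl_mono (le_max_left n m) o))⟩
  have h2 : ∃ n, F ⊆ eB (bl G n o) := by
    induction F using Finset.induction_on with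
    | empty => exact ⟨0, Finset.empty_subset _⟩
    | insert a s _ ih =>
      obtain ⟨n, hn⟩ := ih
      have h3 : ∃ m, a ∈ eB (G := G) (bl G m o) := by
        obtain ⟨e, he⟩ := a
        induction e using Sym2.ind with
        | _ x y =>
          obtain ⟨m, hm⟩ := exists_mem_bl hc o x
          exact ⟨m, mem_eB hm he⟩
      obtain ⟨m, hm⟩ := h3
      refine ⟨max n m, Finset.insert_subset (eB_mono (bl_mono (le_max_right n m) o) hm)
        (hn.trans (eB_mono (bl_mono (le_max_left n m) o)))⟩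
  obtain ⟨n, hn⟩ := h1
  obtain ⟨m, hm⟩ := h2
  exact ⟨max n m, hn.trans (bl_mono (le_max_left n m) o), hm.trans (eB_mono (bl_mono (le_max_right n m) o))⟩

/-- density of the flow -/
noncomputable def dens (G : SimpleGraph V) [G.LocallyFinite] (μ p : ℝ) (o : V) (t : ℝ)
    (z : V × Env G) : ENNReal := ⨆ n, ENNReal.ofReal (up (fn G μ p o n t) z.1 z.2)

/-- the flow -/
noncomputable def flow (G : SimpleGraph V) [G.LocallyFinite] (μ p : ℝ) (o : V) (t : ℝ) :
    Measure (V × Env G) := (m0 G p).withDensity (dens G μ p o t)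

lemma fn_nonneg (hμ : 0 ≤ μ) (hp : 0 ≤ p) (hp1 : p ≤ 1) {D : ℕ} (hD : ∀ x, G.degree x ≤ D) (n : ℕ)
    {t : ℝ} (ht : 0 ≤ t) : 0 ≤ fn G μ p o n t := Fd_nonneg hμ hp hp1 _ _ hD ht

lemma fn_mono (hμ : 0 ≤ μ) (hp : 0 ≤ p) (hp1 : p ≤ 1) {D : ℕ} (hD : ∀ x, G.degree x ≤ D)
    {t : ℝ} (ht : 0 ≤ t) (z : V × Env G) : Monotone fun n => up (fn G μ p o n t) z.1 z.2 := by
  intro n m h
  exact Fd_mono hμ hp hp1 (bl_mono h o) (eB_mono (bl_mono h o)) (covers_eB _) (covers_eB _) hD ht z.1 z.2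

lemma rn_le_flow (n : ℕ) (t : ℝ) : rn p (fn G μ p o n t) ≤ flow G μ p o t := by
  unfold rn flow
  refine withDensity_mono (ae_of_all _ fun z => ?_)
  exact le_iSup (fun n => ENNReal.ofReal (up (fn G μ p o n t) z.1 z.2)) n

lemma flow_univ (hμ : 0 ≤ μ) (hp : 0 ≤ p) (hp1 : p ≤ 1) {D : ℕ} (hD : ∀ x, G.degree x ≤ D)
    {t : ℝ} (ht : 0 ≤ t) : flow G μ p o t Set.univ =
      ⨆ n, ENNReal.ofReal (ip (ww p) (fun _ => 1) (fn G μ p o n t)) := by
  unfold flow dens
  rw [withDensity_apply _ MeasurableSet.univ, Measure.restrict_univ, lintegral_iSup]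
  · congr 1
    funext n
    rw [← rn_univ hp hp1 (fn_nonneg hμ hp hp1 hD n ht)]
    unfold rn
    rw [withDensity_apply _ MeasurableSet.univ, Measure.restrict_univ]
  · intro n; exact (measurable_up _).ennreal_ofReal
  · intro n m h z
    exact ENNReal.ofReal_le_ofReal (fn_mono hμ hp hp1 hD ht z h)

lemma flow_prob (hμ : 0 ≤ μ) (hp : 0 ≤ p) (hp1 : p ≤ 1) {D : ℕ} (hD : ∀ x, G.degree x ≤ D)
    {t : ℝ} (ht : 0 ≤ t) : IsProbabilityMeasure (flow G μ p o t) := by
  constructor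
  rw [flow_univ hμ hp hp1 hD ht]
  apply le_antisymm
  · refine iSup_le fun n => ?_
    rw [← ENNReal.ofReal_one]
    exact ENNReal.ofReal_le_ofReal (mass_le hμ hp hp1 (self_mem_bl n o) _ hD ht)
  · have h1 : Filter.Tendsto (fun n : ℕ => ENNReal.ofReal (1 - D * t / n)) Filter.atTop
        (nhds (ENNReal.ofReal (1 - 0))) :=
      ENNReal.tendsto_ofReal ((tendsto_const_div_atTop_nhds_zero_nat (D * t)).const_sub 1)
    rw [sub_zero, ENNReal.ofReal_one] at h1
    refine le_of_tendsto h1 (Filter.eventually_atTop.mpr ⟨1, fun n hn => ?_⟩)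
    refine le_trans ?_ (le_iSup (fun n => ENNReal.ofReal (ip (ww p) (fun _ => 1) (fn G μ p o n t))) n)
    refine ENNReal.ofReal_le_ofReal ?_
    have := mass_ge (o := o) (F := eB (bl G n o)) hμ hp hp1 (covers_eB _) hD hn (Finset.Subset.refl _) ht
    refine le_trans (le_of_eq ?_) this
    ring

/-- error of the finite volume approximation -/
lemma flow_approx (hμ : 0 ≤ μ) (hp : 0 ≤ p) (hp1 : p ≤ 1) {D : ℕ} (hD : ∀ x, G.degree x ≤ D)
    {t : ℝ} (ht : 0 ≤ t) {n : ℕ} (hn : 1 ≤ n) {f : V × Env G → ℝ} (hf : Measurable f) {M : ℝ}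
    (hM0 : 0 ≤ M) (hM : ∀ z, |f z| ≤ M) :
    |∫ z, f z ∂(flow G μ p o t) - ∫ z, f z ∂(rn p (fn G μ p o n t))| ≤ M * (D * t / n) := by
  have h1 := flow_prob (o := o) hμ hp hp1 hD ht
  have h2 := rn_finite hp hp1 (fn_nonneg (o := o) hμ hp hp1 hD n ht)
  refine (int_diff _ _ (rn_le_flow n t) hf hM).trans (mul_le_mul_of_nonneg_left ?_ hM0)
  have e1 : (flow G μ p o t).real Set.univ = 1 := by simp
  have e2 : (rn p (fn G μ p o n t)).real Set.univ = ip (ww p) (fun _ => 1) (fn G μ p o n t) := by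
    unfold Measure.real
    have hge : 0 ≤ ip (ww p) (fun _ => 1) (fn G μ p o n t) := by
      unfold ip
      refine Finset.sum_nonneg fun i _ => mul_nonneg (piW_nonneg hp hp1 _) ?_
      exact mul_nonneg zero_le_one (fn_nonneg hμ hp hp1 hD n ht i)
    rw [rn_univ hp hp1 (fn_nonneg hμ hp hp1 hD n ht), ENNReal.toReal_ofReal hge]
  rw [e1, e2]
  have := mass_ge (o := o) (F := eB (bl G n o)) hμ hp hp1 (covers_eB _) hD hn (Finset.Subset.refl _) ht
  have e3 : (D : ℝ) * t / n = D / n * t := by ring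
  rw [e3]
  unfold fn
  linarith

lemma abs_pair_le (hμ : 0 ≤ μ) (hp : 0 ≤ p) (hp1 : p ≤ 1) {D : ℕ} (hD : ∀ x, G.degree x ≤ D)
    {t : ℝ} (ht : 0 ≤ t) (n : ℕ) {c : St (bl G n o) (eB (G := G) (bl G n o)) → ℝ} {M : ℝ} (hM0 : 0 ≤ M)
    (hM : ∀ i, |c i| ≤ M) : |ip (ww p) c (fn G μ p o n t)| ≤ M := by
  have h1 : ip (ww p) (M • fun _ => 1) (fn G μ p o n t) ≤ M := by
    rw [ip_comm, ip_smul_right, ip_comm]
    have := mass_le (o := o) hμ hp hp1 (self_mem_bl (G := G) n o) (eB (G := G) (bl G n o)) hD ht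
    unfold fn
    nlinarith
  have h2 : ip (ww p) ((-M) • fun _ => 1) (fn G μ p o n t) = - ip (ww p) (M • fun _ => 1) (fn G μ p o n t) := by
    rw [ip_comm, ip_smul_right, ip_comm (ww p) (M • _), ip_smul_right]; ring
  rw [abs_le]
  constructor
  · have h3 : ip (ww p) ((-M) • fun _ => 1) (fn G μ p o n t) ≤ ip (ww p) c (fn G μ p o n t) :=
      pair_mono hμ hp hp1 _ _ hD ht (fun i => by
        have := (abs_le.mp (hM i)).1
        simpa using this)
    linarith
  · have h3 : ip (ww p) c (fn G μ p o n t) ≤ ip (ww p) (M • fun _ => 1) (fn G μ p o n t) :=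
      pair_mono hμ hp hp1 _ _ hD ht (fun i => by
        have := (abs_le.mp (hM i)).2
        simpa using this)
    linarith

/-- the forward equation -/
theorem flow_forward (hc : G.Connected) (hμ : 0 ≤ μ) (hp : 0 ≤ p) (hp1 : p ≤ 1) {D : ℕ}
    (hD : ∀ x, G.degree x ≤ D) {f : V → Env G → ℝ} (hf : IsLocal G f) {s : ℝ} (hs : 0 ≤ s) :
    HasDerivWithinAt (fun s => ∫ z, f z.1 z.2 ∂(flow G μ p o s))
      (∫ z, gen G μ p f z.1 z.2 ∂(flow G μ p o s)) (Set.Ici 0) s := by
  have hg : IsLocal G (gen G μ p f) := gen_local hf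
  have hgg : IsLocal G (gen G μ p (gen G μ p f)) := gen_local hg
  obtain ⟨B1, F1, c1, hF1, rfl⟩ := local_up hf
  obtain ⟨B2, F2, c2, hF2, hc2⟩ := local_up hg
  obtain ⟨M1, hM10, hM1⟩ := local_bdd (up_local c1)
  obtain ⟨M2, hM20, hM2⟩ := local_bdd hg
  obtain ⟨M3, hM30, hM3⟩ := local_bdd hgg
  obtain ⟨n1, hB1, hE1⟩ := exists_ball hc o B1 F1
  obtain ⟨n2, hB2, hE2⟩ := exists_ball hc o B2 F2
  -- pairing at level `n`
  have hn : ∀ n : ℕ, max n1 n2 ≤ n → ∃ c : St (bl G n o) (eB (G := G) (bl G n o)) → ℝ,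
      up c = up c1 ∧ up (GG μ p _ _ c) = gen G μ p (up c1) := by
    intro n hn
    have hb1 := hB1.trans (bl_mono ((le_max_left n1 n2).trans hn) o)
    have hb2 := hB2.trans (bl_mono ((le_max_right n1 n2).trans hn) o)
    have he1 := hE1.trans (eB_mono (bl_mono ((le_max_left n1 n2).trans hn) o))
    have he2 := hE2.trans (eB_mono (bl_mono ((le_max_right n1 n2).trans hn) o))
    refine ⟨tr _ _ c1, up_tr_eq he1 hb1 c1, ?_⟩
    have h1 : GG μ p _ _ (tr (bl G n o) (eB (bl G n o)) c1) = tr (bl G n o) (eB (bl G n o)) c2 := by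
      funext i
      rw [GG_eq_gen (covers_eB _), up_tr_eq he1 hb1 c1, tr_apply, ← hc2]
    rw [h1, up_tr_eq he2 hb2 c2, hc2]
  refine hasDeriv_of_quad (M := M3) fun t ht => ?_
  refine le_of_forall_ge (K := M1 * (D * t) + M1 * (D * s) + |t - s| * (M2 * (D * s)))
    (N := max 1 (max n1 n2)) fun n hnn => ?_
  have hn1 : 1 ≤ n := (le_max_left _ _).trans hnn
  obtain ⟨c, hc1, hcg⟩ := hn n ((le_max_right _ _).trans hnn)
  have hmf : Measurable fun z : V × Env G => up c1 z.1 z.2 := measurable_up c1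
  have hmg : Measurable fun z : V × Env G => gen G μ p (up c1) z.1 z.2 := by
    rw [hc2]; exact measurable_up c2
  have at1 := flow_approx (o := o) hμ hp hp1 hD ht hn1 hmf hM10 (fun z => hM1 z.1 z.2)
  have as1 := flow_approx (o := o) hμ hp hp1 hD hs hn1 hmf hM10 (fun z => hM1 z.1 z.2)
  have as2 := flow_approx (o := o) hμ hp hp1 hD hs hn1 hmg hM20 (fun z => hM2 z.1 z.2)
  have et : ∫ z, up c1 z.1 z.2 ∂(rn p (fn G μ p o n t)) = ip (ww p) c (fn G μ p o n t) := by
    rw [← hc1]; exact integral_rn hp hp1 (fn_nonneg hμ hp hp1 hD n ht) c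
  have es : ∫ z, up c1 z.1 z.2 ∂(rn p (fn G μ p o n s)) = ip (ww p) c (fn G μ p o n s) := by
    rw [← hc1]; exact integral_rn hp hp1 (fn_nonneg hμ hp hp1 hD n hs) c
  have es2 : ∫ z, gen G μ p (up c1) z.1 z.2 ∂(rn p (fn G μ p o n s)) =
      ip (ww p) (GG μ p _ _ c) (fn G μ p o n s) := by
    rw [← hcg]; exact integral_rn hp hp1 (fn_nonneg hμ hp hp1 hD n hs) _
  have hbound : ∀ i, |GG μ p _ _ (GG μ p _ _ c) i| ≤ M3 := by
    intro i
    rw [GG_eq_gen (covers_eB _), hcg]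
    exact hM3 _ _
  have key := taylor (u := fun t => ip (ww p) c (fn G μ p o n t))
    (v := fun t => ip (ww p) (GG μ p _ _ c) (fn G μ p o n t))
    (w := fun t => ip (ww p) (GG μ p _ _ (GG μ p _ _ c)) (fn G μ p o n t)) (M := M3)
    (fun s _ => pair_deriv _ _ c s) (fun s _ => pair_deriv _ _ _ s)
    (fun s hs => abs_pair_le hμ hp hp1 hD hs n hM30 hbound) hs ht
  rw [et] at at1
  rw [es] at as1
  rw [es2] at as2
  have hnpos : (0 : ℝ) < n := by exact_mod_cast hn1
  set U := ∫ z, up c1 z.1 z.2 ∂(flow G μ p o t)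
  set U0 := ∫ z, up c1 z.1 z.2 ∂(flow G μ p o s)
  set W := ∫ z, gen G μ p (up c1) z.1 z.2 ∂(flow G μ p o s)
  set a := ip (ww p) c (fn G μ p o n t)
  set b := ip (ww p) c (fn G μ p o n s)
  set w := ip (ww p) (GG μ p _ _ c) (fn G μ p o n s)
  have e1 : U - U0 - (t - s) * W = (U - a) - (U0 - b) - (t - s) * (W - w) + (a - b - (t - s) * w) := by ring
  rw [e1]
  calc |(U - a) - (U0 - b) - (t - s) * (W - w) + (a - b - (t - s) * w)|
      ≤ |(U - a) - (U0 - b) - (t - s) * (W - w)| + |a - b - (t - s) * w| := abs_add_le _ _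
    _ ≤ (|U - a| + |U0 - b| + |t - s| * |W - w|) + M3 * (t - s) ^ 2 := by
        refine add_le_add ?_ key
        refine (abs_sub _ _).trans ?_
        rw [abs_mul]
        refine add_le_add (abs_sub _ _) le_rfl
    _ ≤ (M1 * (D * t / n) + M1 * (D * s / n) + |t - s| * (M2 * (D * s / n))) + M3 * (t - s) ^ 2 := by
        refine add_le_add (add_le_add (add_le_add at1 as1) ?_) le_rfl
        exact mul_le_mul_of_nonneg_left as2 (abs_nonneg _)
    _ = _ := by ring

end Pool.Agent.Hhelper95.RWDP
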