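import Pool.Agent.Hhelper95.RWDP.Flow2

/-!
# Transport by automorphisms, the case `p = 1`, simple random walk
-/

open Finset Classical MeasureTheory

set_option linter.unusedSectionVars false

namespace Pool.Agent.Hhelper95.RWDP

open Sg Spectral

universe u

variable {V : Type u} {G : SimpleGraph V} [G.LocallyFinite]
variable [MeasurableSpace V] [DiscreteMeasurableSpace V]
variable {μ p : ℝ} {o : V} {ρ : ℝ → Measure (V × Env G)}

/-- action on environments -/
def actE (φ : G ≃g G) (η : Env G) : Env G := fun e => η (φ.mapEdgeSet.symm e)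

/-- action on pairs -/
def actP (φ : G ≃g G) (z : V × Env G) : V × Env G := (φ z.1, actE φ z.2)

lemma measurable_actP (φ : G ≃g G) : Measurable (actP φ) := by
  refine Measurable.prodMk ?_ ?_
  · exact (Measurable.of_discrete (f := (φ : V → V))).comp measurable_fst
  · exact measurable_pi_lambda _ fun e => (measurable_pi_apply _).comp measurable_snd

lemma open_act (φ : G ≃g G) (η : Env G) (x y : V) :
    OpenEdge G (actE φ η) (φ x) (φ y) ↔ OpenEdge G η x y := by
  constructor
  · rintro ⟨h, h2⟩
    have hxy : G.Adj x y := φ.map_adj_iff.mp h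
    refine ⟨hxy, ?_⟩
    have : φ.mapEdgeSet.symm ⟨s(φ x, φ y), h⟩ = ⟨s(x, y), hxy⟩ := by
      rw [Equiv.symm_apply_eq]; rfl
    rw [← this]; exact h2
  · rintro ⟨hxy, h2⟩
    have h : G.Adj (φ x) (φ y) := φ.map_adj_iff.mpr hxy
    refine ⟨h, ?_⟩
    have : φ.mapEdgeSet.symm ⟨s(φ x, φ y), h⟩ = ⟨s(x, y), hxy⟩ := by
      rw [Equiv.symm_apply_eq]; rfl
    unfold actE
    rw [this]; exact h2

lemma actE_update (φ : G ≃g G) (η : Env G) (e : G.edgeSet) (b : Bool) :
    actE φ (Function.update η e b) = Function.update (actE φ η) (φ.mapEdgeSet e) b := by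
  funext e'
  unfold actE
  by_cases h : e' = φ.mapEdgeSet e
  · subst h
    rw [Equiv.symm_apply_apply, Function.update_self, Function.update_self]
  · have h' : φ.mapEdgeSet.symm e' ≠ e := fun hh => h (by rw [← hh, Equiv.apply_symm_apply])
    rw [Function.update_of_ne h', Function.update_of_ne h]

lemma gen_act (φ : G ≃g G) (f : V → Env G → ℝ) (x : V) (η : Env G) :
    gen G μ p (fun x η => f (φ x) (actE φ η)) x η = gen G μ p f (φ x) (actE φ η) := by
  unfold gen
  congr 1
  · refine Finset.sum_bij (fun y _ => φ y) ?_ ?_ ?_ ?_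
    · intro y hy
      simp only [SimpleGraph.mem_neighborFinset] at hy ⊢
      exact φ.map_adj_iff.mpr hy
    · intro a _ b _ hab; exact φ.injective hab
    · intro y hy
      simp only [SimpleGraph.mem_neighborFinset] at hy
      refine ⟨φ.symm y, ?_, by simp⟩
      simp only [SimpleGraph.mem_neighborFinset]
      rw [← φ.map_adj_iff]; simpa using hy
    · intro y _
      simp only [open_act]
  · congr 1
    simp only [actE_update]
    exact finsum_comp_equiv φ.mapEdgeSet (f := fun e => p * f (φ x) (Function.update (actE φ η) e true) +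
      (1 - p) * f (φ x) (Function.update (actE φ η) e false) - f (φ x) (actE φ η))

lemma local_act (φ : G ≃g G) {f : V → Env G → ℝ} (hf : IsLocal G f) :
    IsLocal G (fun x η => f (φ x) (actE φ η)) := by
  obtain ⟨B, F, h1, h2⟩ := hf
  refine ⟨B.image φ.symm, F.image φ.mapEdgeSet.symm, fun x hx η => ?_, fun x η η' h => ?_⟩
  · refine h1 _ (fun hB => hx ?_) _
    exact Finset.mem_image.mpr ⟨φ x, hB, by simp⟩
  · refine h2 _ _ _ fun e he => ?_
    exact h _ (Finset.mem_image_of_mem _ he)

lemma measurableSet_cyl (x : V) (F : Finset G.edgeSet) (ξ : Env G) :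
    MeasurableSet {z : V × Env G | z.1 = x ∧ ∀ e ∈ F, z.2 e = ξ e} := by
  refine (mset_vertex x).inter ?_
  have : {z : V × Env G | ∀ e ∈ F, z.2 e = ξ e} = ⋂ e ∈ F, {z | z.2 e = ξ e} := by
    ext z; simp
  change MeasurableSet {z : V × Env G | ∀ e ∈ F, z.2 e = ξ e}
  rw [this]
  refine Finset.measurableSet_biInter _ fun e _ => ?_
  have h : Measurable fun z : V × Env G => z.2 e := (measurable_pi_apply e).comp measurable_snd
  exact h (measurableSet_singleton (ξ e))

/-- Transport of a flow by an automorphism. -/
theorem transport (h : IsRWDP G μ p o ρ) (φ : G ≃g G) :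
    IsRWDP G μ p (φ o) (fun t => (ρ t).map (actP φ)) := by
  refine ⟨fun t ht => ?_, fun F ξ => ?_, fun f hf t ht => ?_⟩
  · have := h.prob t ht
    exact Measure.isProbabilityMeasure_map (measurable_actP φ).aemeasurable
  · rw [Measure.map_apply (measurable_actP φ) (measurableSet_cyl _ F ξ)]
    have e1 : actP φ ⁻¹' {z : V × Env G | z.1 = φ o ∧ ∀ e ∈ F, z.2 e = ξ e} =
        {z | z.1 = o ∧ ∀ e ∈ F.image φ.mapEdgeSet.symm, z.2 e = (fun e => ξ (φ.mapEdgeSet e)) e} := by
      ext z
      simp only [Set.mem_preimage, Set.mem_ofPred_eq, actP, actE, Finset.forall_mem_image,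
        Equiv.apply_symm_apply]
      refine and_congr ?_ Iff.rfl
      exact φ.injective.eq_iff
    rw [e1, h.init, Finset.prod_image (fun a _ b _ hab => φ.mapEdgeSet.symm.injective hab)]
    simp only [Equiv.apply_symm_apply]
  · have hd := h.forward _ (local_act φ hf) t ht
    have e1 : ∀ s, 0 ≤ s → ∫ z, f z.1 z.2 ∂((ρ s).map (actP φ)) = ∫ z, f (φ z.1) (actE φ z.2) ∂ρ s := by
      intro s hs
      have := h.prob s hs
      have hp' := Measure.isProbabilityMeasure_map (μ := ρ s) (measurable_actP φ).aemeasurable
      exact integral_map (measurable_actP φ).aemeasurable (integrable_local hf _).aestronglyMeasurable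
    have e2 : ∫ z, gen G μ p f z.1 z.2 ∂((ρ t).map (actP φ)) =
        ∫ z, gen G μ p (fun x η => f (φ x) (actE φ η)) z.1 z.2 ∂ρ t := by
      have := h.prob t ht
      have hp' := Measure.isProbabilityMeasure_map (μ := ρ t) (measurable_actP φ).aemeasurable
      rw [integral_map (measurable_actP φ).aemeasurable (integrable_gen μ p hf _).aestronglyMeasurable]
      simp only [gen_act]
      rfl
    rw [e2]
    exact hd.congr (fun s hs => e1 s hs) (e1 t ht)

lemma ret_transport (φ : G ≃g G) (t : ℝ) :
    ret (fun t => (ρ t).map (actP φ)) (φ o) t = ret ρ o t := by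
  unfold ret Measure.real
  rw [Measure.map_apply (measurable_actP φ) (mset_vertex _)]
  congr 2
  ext z
  simp only [Set.mem_preimage, Set.mem_ofPred_eq, actP]
  exact φ.injective.eq_iff

/-! ### the case `p = 1` -/

lemma EE_at_one {ι : Type*} [Fintype ι] [DecidableEq ι] (h : (ι → Bool) → ℝ) : EE 1 h = h (fun _ => true) := by
  unfold EE
  rw [Finset.sum_eq_single (fun _ => true)]
  · simp [piW]
  · intro ξ _ hξ
    have : ∃ e, ξ e = false := by
      by_contra hcon
      push Not at hcon
      exact hξ (funext fun e => by simpa using hcon e)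
    obtain ⟨e, he⟩ := this
    have : piW 1 ξ = 0 := by
      unfold piW
      exact Finset.prod_eq_zero (Finset.mem_univ e) (by simp [he])
    rw [this, zero_mul]
  · intro h; exact absurd (Finset.mem_univ _) h

/-- evaluation at the all-open configuration -/
noncomputable def evT (B : Finset V) (F : Finset G.edgeSet) : (St B F → ℝ) →L[ℝ] ({x // x ∈ B} → ℝ) :=
  LinearMap.toContinuousLinearMap
    { toFun := fun c x => c (x, fun _ => true)
      map_add' := fun _ _ => rfl
      map_smul' := fun _ _ => rfl }

lemma evT_apply {B : Finset V} {F : Finset G.edgeSet} (c : St B F → ℝ) (x : {x // x ∈ B}) :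
    evT B F c x = c (x, fun _ => true) := rfl

theorem Qf_one (μ : ℝ) {B : Finset V} {F : Finset G.edgeSet} (hF : Covers B F) (t : ℝ)
    (x : {x // x ∈ B}) : Qf μ 1 B F t x = Pf G B t x := by
  unfold Qf Pf
  rw [EE_at_one]
  have h := sg_intertwine (GGc μ 1 B F) (AAc G B) (evT B F) (fun c => ?_) t (lift F (dl x))
  · have h2 : evT B F (lift F (dl x)) = dl x := rfl
    rw [h2] at h
    rw [← h]; rfl
  · funext y
    rw [evT_apply, GGc_apply, GG_apply, AAc_apply, AA_apply]
    have h1 : ∑ e : {e // e ∈ F}, (pe 1 e (fun ξ => c (y, ξ)) (fun _ => true) - c (y, fun _ => true)) = 0 := by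
      refine Finset.sum_eq_zero fun e _ => ?_
      have : Function.update (fun _ : {e // e ∈ F} => true) e true = fun _ => true := by
        funext e'; simp [Function.update]
      simp [pe, this]
    simp only [h1, mul_zero, add_zero]
    refine Finset.sum_congr rfl fun z hz => ?_
    have hadj : G.Adj y.1 z := by simpa using hz
    have hopen : OpenEdge G (ext F fun _ => true) y.1 z :=
      ⟨hadj, by have := hF y.1 y.2 z hadj; simp [ext, this]⟩
    rw [if_pos hopen]
    rfl

/-- A simple random walk flow gives a flow for `p = 1`. -/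
theorem srw_to_rwdp {σ : ℝ → Measure V} (h : IsSRW G o σ) (μ : ℝ) :
    IsRWDP G μ 1 o (fun t => (σ t).map fun x => (x, fun _ => true)) := by
  have hm : Measurable fun x : V => ((x, fun _ => true) : V × Env G) := Measurable.of_discrete
  refine ⟨fun t ht => ?_, fun F ξ => ?_, fun f hf t ht => ?_⟩
  · have := h.prob t ht
    exact Measure.isProbabilityMeasure_map hm.aemeasurable
  · rw [Measure.map_apply hm (measurableSet_cyl _ F ξ)]
    by_cases hξ : ∀ e ∈ F, ξ e = true
    · have e1 : (fun x : V => ((x, fun _ => true) : V × Env G)) ⁻¹' {z | z.1 = o ∧ ∀ e ∈ F, z.2 e = ξ e} = {o} := by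
        ext x
        simp only [Set.mem_preimage, Set.mem_ofPred_eq, Set.mem_singleton_iff, and_iff_left_iff_imp]
        intro _ e he; exact (hξ e he).symm
      rw [e1, h.init]
      have : (∏ e ∈ F, if ξ e then (1 : ℝ) else 1 - 1) = 1 :=
        Finset.prod_eq_one fun e he => by simp [hξ e he]
      rw [this, ENNReal.ofReal_one]
    · push Not at hξ
      obtain ⟨e, he, hξe⟩ := hξ
      have e1 : (fun x : V => ((x, fun _ => true) : V × Env G)) ⁻¹' {z | z.1 = o ∧ ∀ e ∈ F, z.2 e = ξ e} = ∅ := by
        ext x
        simp only [Set.mem_preimage, Set.mem_ofPred_eq, Set.mem_empty_iff_false, iff_false, not_and, not_forall]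
        intro _
        exact ⟨e, he, fun hh => hξe hh.symm⟩
      rw [e1, measure_empty]
      have : (∏ e ∈ F, if ξ e then (1 : ℝ) else 1 - 1) = 0 :=
        Finset.prod_eq_zero he (by simp [hξe])
      rw [this, ENNReal.ofReal_zero]
  · obtain ⟨B, F, h1, h2⟩ := hf
    have hfin : (Function.support fun x => f x (fun _ => true)).Finite := by
      refine B.finite_toSet.subset fun x hx => ?_
      by_contra hxB
      exact hx (h1 x hxB _)
    have hd := h.forward _ hfin t ht
    have e1 : ∀ s, 0 ≤ s → ∫ z, f z.1 z.2 ∂((σ s).map fun x => ((x, fun _ => true) : V × Env G)) =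
        ∫ x, f x (fun _ => true) ∂σ s := by
      intro s hs
      have := h.prob s hs
      have hp' := Measure.isProbabilityMeasure_map (μ := σ s) hm.aemeasurable
      exact integral_map hm.aemeasurable (integrable_local ⟨B, F, h1, h2⟩ _).aestronglyMeasurable
    have e2 : ∫ z, gen G μ 1 f z.1 z.2 ∂((σ t).map fun x => ((x, fun _ => true) : V × Env G)) =
        ∫ x, ∑ y ∈ G.neighborFinset x, (f y (fun _ => true) - f x (fun _ => true)) ∂σ t := by
      have := h.prob t ht
      have hp' := Measure.isProbabilityMeasure_map (μ := σ t) hm.aemeasurable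
      rw [integral_map hm.aemeasurable (integrable_gen μ 1 ⟨B, F, h1, h2⟩ _).aestronglyMeasurable]
      refine integral_congr_ae (ae_of_all _ fun x => ?_)
      unfold gen
      have e3 : ∑ᶠ e : G.edgeSet, ((1 : ℝ) * f x (Function.update (fun _ => true) e true) +
          (1 - 1) * f x (Function.update (fun _ => true) e false) - f x (fun _ => true)) = 0 := by
        have : ∀ e : G.edgeSet, ((1 : ℝ) * f x (Function.update (fun _ => true) e true) +
          (1 - 1) * f x (Function.update (fun _ => true) e false) - f x (fun _ => true)) = 0 := by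
          intro e
          have : Function.update (fun _ : G.edgeSet => true) e true = fun _ => true := by
            funext e'; simp [Function.update]
          rw [this]; ring
        simp only [this, finsum_zero]
      simp only [e3, mul_zero, add_zero]
      refine Finset.sum_congr rfl fun y hy => ?_
      have hadj : G.Adj x y := by simpa using hy
      rw [if_pos ⟨hadj, rfl⟩]
    rw [e2]
    exact hd.congr (fun s hs => e1 s hs) (e1 t ht)

end Pool.Agent.Hhelper95.RWDP
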