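import Pool.Agent.Hhelper95.RWDP.Exist
import Pool.Agent.Hhelper95.RWDP.Transport

/-!
# Existence of the flows (continued)
-/

open Finset Classical MeasureTheory

set_option linter.unusedSectionVars false

namespace Pool.Agent.Hhelper95.RWDP

open Sg Spectral

universe u

variable {V : Type u} {G : SimpleGraph V} [G.LocallyFinite]
variable [MeasurableSpace V] [DiscreteMeasurableSpace V]
variable {μ p : ℝ} {o : V}

lemma flow_init (hp : 0 ≤ p) (hp1 : p ≤ 1) (F : Finset G.edgeSet) (ξ : Env G) :
    flow G μ p o 0 {z | z.1 = o ∧ ∀ e ∈ F, z.2 e = ξ e} =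
      ENNReal.ofReal (∏ e ∈ F, if ξ e then p else 1 - p) := by
  have hm : MeasurableSet {z : V × Env G | z.1 = o ∧ ∀ e ∈ F, z.2 e = ξ e} := measurableSet_cyl o F ξ
  have hd : dens G μ p o 0 = Set.indicator {z : V × Env G | z.1 = o} (fun _ => 1) := by
    funext z
    unfold dens
    have h1 : ∀ n, up (fn G μ p o n 0) z.1 z.2 = if z.1 = o then 1 else 0 := by
      intro n
      unfold fn
      rw [Fd_zero]
      by_cases hz : z.1 ∈ bl G n o
      · exact cB_mem _ hz _
      · have h2 : up (d0 (bl G n o) (eB (G := G) (bl G n o)) o) z.1 z.2 = 0 := cB_not_mem _ hz _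
        have h3 : z.1 ≠ o := fun h => hz (by rw [h]; exact self_mem_bl n o)
        rw [h2, if_neg h3]
    simp_rw [h1]
    rw [ciSup_const]
    by_cases hz : z.1 = o <;> simp [Set.indicator, hz]
  unfold flow
  rw [withDensity_apply _ hm, hd]
  have h3 : ∫⁻ z in {z : V × Env G | z.1 = o ∧ ∀ e ∈ F, z.2 e = ξ e},
      Set.indicator {z : V × Env G | z.1 = o} (fun _ => (1 : ENNReal)) z ∂(m0 G p) =
      ∫⁻ _z in {z : V × Env G | z.1 = o ∧ ∀ e ∈ F, z.2 e = ξ e}, 1 ∂(m0 G p) := by
    refine setLIntegral_congr_fun hm fun z hz => ?_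
    have : z ∈ {z : V × Env G | z.1 = o} := hz.1
    simp only [Set.indicator_of_mem this]
  rw [h3, setLIntegral_one]
  have h4 : {z : V × Env G | z.1 = o ∧ ∀ e ∈ F, z.2 e = ξ e} =
      {z | z.1 = o ∧ res F z.2 = fun e => ξ e.1} := by
    ext z
    simp only [Set.mem_ofPred_eq]
    refine and_congr_right fun _ => ?_
    constructor
    · intro h; funext e; exact h e.1 e.2
    · intro h e he; exact congrFun h ⟨e, he⟩
  rw [h4, m0_cyl hp hp1]
  congr 1
  rw [← Finset.prod_coe_sort F]
  rfl

/-- Existence of random walk on dynamical percolation. -/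
theorem exists_rwdp (hc : G.Connected) (hμ : 0 ≤ μ) (hp : 0 ≤ p) (hp1 : p ≤ 1) {D : ℕ}
    (hD : ∀ x, G.degree x ≤ D) : IsRWDP G μ p o (flow G μ p o) :=
  ⟨fun _ ht => flow_prob hμ hp hp1 hD ht, fun F ξ => flow_init hp hp1 F ξ,
    fun _ hf _ ht => flow_forward hc hμ hp hp1 hD hf ht⟩

lemma m0_closed (e : G.edgeSet) : m0 G 1 {z : V × Env G | z.2 e = false} = 0 := by
  have hm : MeasurableSet {z : V × Env G | z.2 e = false} := by
    have h : Measurable fun z : V × Env G => z.2 e := (measurable_pi_apply e).comp measurable_snd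
    exact h (measurableSet_singleton false)
  unfold m0
  rw [Measure.sum_apply _ hm, ENNReal.tsum_eq_zero]
  intro x
  rw [Measure.map_apply measurable_prodMk_left hm]
  have h1 := nuE_cyl (G := G) (p := 1) zero_le_one le_rfl {e} (fun _ => false)
  have h2 : (Prod.mk x ⁻¹' {z : V × Env G | z.2 e = false}) = {η : Env G | res {e} η = fun _ => false} := by
    ext η
    simp only [Set.mem_preimage, Set.mem_ofPred_eq]
    constructor
    · intro h; funext e'
      have : e'.1 = e := Finset.mem_singleton.mp e'.2
      simp [res, this, h]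
    · intro h
      have := congrFun h ⟨e, by simp⟩
      simpa [res] using this
  rw [h2, h1]
  simp [piW]

/-- Existence of simple random walk. -/
theorem exists_srw (hc : G.Connected) {D : ℕ} (hD : ∀ x, G.degree x ≤ D) :
    IsSRW G o (fun t => (flow G 1 1 o t).map Prod.fst) := by
  have h := exists_rwdp (G := G) (o := o) hc zero_le_one zero_le_one le_rfl hD
  refine ⟨fun t ht => ?_, ?_, fun f hf t ht => ?_⟩
  · have := h.prob t ht
    exact Measure.isProbabilityMeasure_map measurable_fst.aemeasurable
  · rw [Measure.map_apply measurable_fst MeasurableSet.of_discrete]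
    exact init_vertex h
  · set S : Finset V := hf.toFinset with hS
    have hloc : IsLocal G (fun x (_ : Env G) => f x) := by
      refine ⟨S, ∅, fun x hx _ => ?_, fun _ _ _ _ => rfl⟩
      by_contra h0
      exact hx (hf.mem_toFinset.mpr h0)
    have hd := h.forward _ hloc t ht
    have e1 : ∀ s, ∫ x, f x ∂((flow G 1 1 o s).map Prod.fst) = ∫ z, f z.1 ∂(flow G 1 1 o s) := by
      intro s
      exact integral_map measurable_fst.aemeasurable (Measurable.of_discrete).aestronglyMeasurable
    have e2 : ∫ x, ∑ y ∈ G.neighborFinset x, (f y - f x) ∂((flow G 1 1 o t).map Prod.fst) =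
        ∫ z, gen G 1 1 (fun x (_ : Env G) => f x) z.1 z.2 ∂(flow G 1 1 o t) := by
      rw [integral_map measurable_fst.aemeasurable (Measurable.of_discrete).aestronglyMeasurable]
      set B : Finset V := S ∪ S.biUnion fun y => G.neighborFinset y with hB
      have hae : ∀ᵐ z ∂(flow G 1 1 o t), ∀ e ∈ eB (G := G) B, z.2 e = true := by
        rw [Finset.eventually_all]
        intro e _
        rw [ae_iff]
        have h1 : {z : V × Env G | ¬ z.2 e = true} = {z | z.2 e = false} := by
          ext z; simp
        rw [h1]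
        exact withDensity_absolutelyContinuous _ _ (m0_closed e)
      refine integral_congr_ae (hae.mono fun z hz => ?_)
      unfold gen
      have e3 : ∑ᶠ _e : G.edgeSet, ((1 : ℝ) * f z.1 + (1 - 1) * f z.1 - f z.1) = 0 := by
        have : ((1 : ℝ) * f z.1 + (1 - 1) * f z.1 - f z.1) = 0 := by ring
        rw [this]; exact finsum_zero
      simp only
      rw [e3, mul_zero, add_zero]
      refine Finset.sum_congr rfl fun y hy => ?_
      have hadj : G.Adj z.1 y := by simpa using hy
      by_cases hzB : z.1 ∈ B
      · rw [if_pos]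
        exact ⟨hadj, hz _ (mem_eB hzB hadj)⟩
      · have hz1 : f z.1 = 0 := by
          by_contra h0
          exact hzB (Finset.mem_union_left _ (hf.mem_toFinset.mpr h0))
        have hy1 : f y = 0 := by
          by_contra h0
          refine hzB (Finset.mem_union_right _ (Finset.mem_biUnion.mpr ⟨y, hf.mem_toFinset.mpr h0, ?_⟩))
          simpa using hadj.symm
        rw [hz1, hy1]; simp
    simp only [e1]
    rw [e2]
    exact hd

end Pool.Agent.Hhelper95.RWDP
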