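import Pool.Agent.Hhelper95.RWDP.Defs
import Pool.Agent.Hhelper95.RWDP.Env
import Pool.Agent.Hhelper95.Spectral

/-!
# Finite volume operators for random walk on dynamical percolation
-/

open Finset Classical

set_option linter.unusedSectionVars false

namespace Pool.Agent.Hhelper95.RWDP

open Sg Spectral

universe u

variable {V : Type u} {G : SimpleGraph V} [G.LocallyFinite]

/-- finite state space -/
abbrev St (B : Finset V) (F : Finset G.edgeSet) := {x // x ∈ B} × ({e // e ∈ F} → Bool)

/-- extension of a configuration by closed edges -/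
noncomputable def ext (F : Finset G.edgeSet) (ξ : {e // e ∈ F} → Bool) : Env G :=
  fun e => if h : e ∈ F then ξ ⟨e, h⟩ else false

/-- restriction of an environment -/
def res (F : Finset G.edgeSet) (η : Env G) : {e // e ∈ F} → Bool := fun e => η e.1

lemma res_ext (F : Finset G.edgeSet) (ξ : {e // e ∈ F} → Bool) : res F (ext F ξ) = ξ := by
  funext e; simp [res, ext]

/-- `F` contains all edges touching `B`. -/
def Covers (B : Finset V) (F : Finset G.edgeSet) : Prop :=
  ∀ x ∈ B, ∀ y, ∀ h : G.Adj x y, (⟨s(x, y), h⟩ : G.edgeSet) ∈ F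

lemma openEdge_symm {η : Env G} {x y : V} : OpenEdge G η x y ↔ OpenEdge G η y x := by
  constructor
  · rintro ⟨h, h2⟩
    refine ⟨h.symm, ?_⟩
    have : (⟨s(y, x), h.symm⟩ : G.edgeSet) = ⟨s(x, y), h⟩ := Subtype.ext Sym2.eq_swap
    rw [this]; exact h2
  · rintro ⟨h, h2⟩
    refine ⟨h.symm, ?_⟩
    have : (⟨s(x, y), h.symm⟩ : G.edgeSet) = ⟨s(y, x), h⟩ := Subtype.ext Sym2.eq_swap
    rw [this]; exact h2

lemma openEdge_congr {B : Finset V} {F : Finset G.edgeSet} (hF : Covers B F) {x y : V} (hx : x ∈ B)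
    {η η' : Env G} (h : ∀ e ∈ F, η e = η' e) : OpenEdge G η x y ↔ OpenEdge G η' x y := by
  constructor
  · rintro ⟨hxy, h2⟩; exact ⟨hxy, by rw [← h _ (hF x hx y hxy)]; exact h2⟩
  · rintro ⟨hxy, h2⟩; exact ⟨hxy, by rw [h _ (hF x hx y hxy)]; exact h2⟩

lemma openEdge_ext_res {B : Finset V} {F : Finset G.edgeSet} (hF : Covers B F) {x y : V} (hx : x ∈ B)
    (η : Env G) : OpenEdge G (ext F (res F η)) x y ↔ OpenEdge G η x y :=
  openEdge_congr hF hx fun e he => by simp [ext, res, he]

/-- extension by zero in the vertex variable -/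
noncomputable def cB {B : Finset V} {F : Finset G.edgeSet} (c : St B F → ℝ) (y : V)
    (ξ : {e // e ∈ F} → Bool) : ℝ := if h : y ∈ B then c (⟨y, h⟩, ξ) else 0

lemma cB_mem {B : Finset V} {F : Finset G.edgeSet} (c : St B F → ℝ) {y : V} (hy : y ∈ B)
    (ξ : {e // e ∈ F} → Bool) : cB c y ξ = c (⟨y, hy⟩, ξ) := by simp [cB, hy]

lemma cB_not_mem {B : Finset V} {F : Finset G.edgeSet} (c : St B F → ℝ) {y : V} (hy : y ∉ B)
    (ξ : {e // e ∈ F} → Bool) : cB c y ξ = 0 := by simp [cB, hy]

lemma cB_add {B : Finset V} {F : Finset G.edgeSet} (c d : St B F → ℝ) (y : V)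
    (ξ : {e // e ∈ F} → Bool) : cB (c + d) y ξ = cB c y ξ + cB d y ξ := by
  unfold cB; split_ifs <;> simp

lemma cB_smul {B : Finset V} {F : Finset G.edgeSet} (a : ℝ) (c : St B F → ℝ) (y : V)
    (ξ : {e // e ∈ F} → Bool) : cB (a • c) y ξ = a * cB c y ξ := by
  unfold cB; split_ifs <;> simp

/-- The local function on `V × Env G` associated with a function on the finite state space. -/
noncomputable def up {B : Finset V} {F : Finset G.edgeSet} (c : St B F → ℝ) (x : V) (η : Env G) : ℝ :=
  cB c x (res F η)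

/-- The finite volume generator (the walk is killed outside `B`). -/
noncomputable def GG (μ p : ℝ) (B : Finset V) (F : Finset G.edgeSet) :
    (St B F → ℝ) →ₗ[ℝ] (St B F → ℝ) where
  toFun c := fun i =>
    ∑ y ∈ G.neighborFinset i.1.1, (if OpenEdge G (ext F i.2) i.1.1 y then cB c y i.2 - c i else 0) +
      μ * ∑ e : {e // e ∈ F}, (pe p e (fun ξ => c (i.1, ξ)) i.2 - c i)
  map_add' c d := by
    funext i
    simp only [Pi.add_apply, cB_add]
    have h1 : ∀ y, (if OpenEdge G (ext F i.2) i.1.1 y then cB c y i.2 + cB d y i.2 - (c i + d i) else 0) =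
        (if OpenEdge G (ext F i.2) i.1.1 y then cB c y i.2 - c i else 0) +
        (if OpenEdge G (ext F i.2) i.1.1 y then cB d y i.2 - d i else 0) := by
      intro y; split_ifs <;> ring
    have h2 : ∀ e : {e // e ∈ F}, pe p e (fun ξ => c (i.1, ξ) + d (i.1, ξ)) i.2 - (c i + d i) =
        (pe p e (fun ξ => c (i.1, ξ)) i.2 - c i) + (pe p e (fun ξ => d (i.1, ξ)) i.2 - d i) := by
      intro e; simp only [pe]; ring
    simp only [h1, h2, Finset.sum_add_distrib]
    ring
  map_smul' a c := by
    funext i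
    simp only [Pi.smul_apply, smul_eq_mul, cB_smul, RingHom.id_apply]
    have h1 : ∀ y, (if OpenEdge G (ext F i.2) i.1.1 y then a * cB c y i.2 - a * c i else 0) =
        a * (if OpenEdge G (ext F i.2) i.1.1 y then cB c y i.2 - c i else 0) := by
      intro y; split_ifs <;> ring
    have h2 : ∀ e : {e // e ∈ F}, pe p e (fun ξ => a * c (i.1, ξ)) i.2 - a * c i =
        a * (pe p e (fun ξ => c (i.1, ξ)) i.2 - c i) := by
      intro e; simp only [pe]; ring
    simp only [h1, h2, ← Finset.mul_sum]
    ring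

lemma GG_apply (μ p : ℝ) (B : Finset V) (F : Finset G.edgeSet) (c : St B F → ℝ) (i : St B F) :
    GG μ p B F c i =
      ∑ y ∈ G.neighborFinset i.1.1, (if OpenEdge G (ext F i.2) i.1.1 y then cB c y i.2 - c i else 0) +
      μ * ∑ e : {e // e ∈ F}, (pe p e (fun ξ => c (i.1, ξ)) i.2 - c i) := rfl

lemma res_update_mem (F : Finset G.edgeSet) (η : Env G) {e : G.edgeSet} (he : e ∈ F) (b : Bool) :
    res F (Function.update η e b) = Function.update (res F η) ⟨e, he⟩ b := by
  funext e'
  by_cases h : e' = ⟨e, he⟩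
  · subst h; simp [res]
  · have h' : e'.1 ≠ e := fun hh => h (Subtype.ext hh)
    simp [res, Function.update, h, h']

lemma res_update_not_mem (F : Finset G.edgeSet) (η : Env G) {e : G.edgeSet} (he : e ∉ F) (b : Bool) :
    res F (Function.update η e b) = res F η := by
  funext e'
  have h' : e'.1 ≠ e := fun hh => he (hh ▸ e'.2)
  simp [res, Function.update, h']

lemma gen_up_mem (μ p : ℝ) {B : Finset V} {F : Finset G.edgeSet} (hF : Covers B F)
    (c : St B F → ℝ) {x : V} (hx : x ∈ B) (η : Env G) :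
    gen G μ p (up c) x η = GG μ p B F c (⟨x, hx⟩, res F η) := by
  rw [GG_apply]
  unfold gen
  congr 1
  · refine Finset.sum_congr rfl fun y _ => ?_
    simp only [openEdge_ext_res hF hx, up, cB_mem c hx]
  · congr 1
    have hsupp : (Function.support fun e : G.edgeSet => p * up c x (Function.update η e true) +
        (1 - p) * up c x (Function.update η e false) - up c x η) ⊆ (F : Set G.edgeSet) := by
      intro e he
      by_contra hne
      have hne' : e ∉ F := by simpa using hne
      apply he
      simp only [up, res_update_not_mem F η hne']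
      ring
    rw [finsum_eq_sum_of_support_subset _ hsupp, ← Finset.sum_coe_sort F]
    refine Finset.sum_congr rfl fun e _ => ?_
    simp only [up, res_update_mem F η e.2, cB_mem c hx, pe]

lemma gen_up_not_mem (μ p : ℝ) {B : Finset V} {F : Finset G.edgeSet}
    (c : St B F → ℝ) {x : V} (hx : x ∉ B) (η : Env G) :
    gen G μ p (up c) x η = ∑ y ∈ G.neighborFinset x, if OpenEdge G η x y then up c y η else 0 := by
  unfold gen
  have h0 : ∀ η, up c x η = 0 := fun η => cB_not_mem c hx _
  simp only [h0, mul_zero, add_zero, sub_zero, finsum_zero]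

end Pool.Agent.Hhelper95.RWDP
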