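import Pool.Agent.Hhelper95.RWDP.TraceIneq
import Pool.Agent.Hhelper95.RWDP.Ball

/-!
# Forward equation and finite volume approximation
-/

open Finset Classical MeasureTheory

set_option linter.unusedSectionVars false

namespace Pool.Agent.Hhelper95.RWDP

open Sg Spectral

universe u

variable {V : Type u} {G : SimpleGraph V} [G.LocallyFinite]

section local_functions

lemma up_local {B : Finset V} {F : Finset G.edgeSet} (c : St B F → ℝ) : IsLocal G (up c) := by
  refine ⟨B, F, fun x hx η => cB_not_mem c hx _, fun x η η' h => ?_⟩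
  unfold up
  have : res F η = res F η' := by funext e; exact h e.1 e.2
  rw [this]

/-- the edges touching `B` -/
noncomputable def eB (B : Finset V) : Finset G.edgeSet :=
  B.biUnion fun x => (G.neighborFinset x).attach.image fun y : {y // y ∈ G.neighborFinset x} =>
    (⟨s(x, y.1), G.mem_edgeSet.mpr ((G.mem_neighborFinset x y.1).mp y.2)⟩ : G.edgeSet)

lemma covers_eB (B : Finset V) : Covers B (eB (G := G) B) := by
  intro x hx y h
  unfold eB
  refine Finset.mem_biUnion.mpr ⟨x, hx, Finset.mem_image.mpr ⟨⟨y, by simpa using h⟩, by simp, rfl⟩⟩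

lemma Covers.mono {B : Finset V} {F F' : Finset G.edgeSet} (h : Covers B F) (hF : F ⊆ F') :
    Covers B F' := fun x hx y hxy => hF (h x hx y hxy)

lemma local_up {f : V → Env G → ℝ} (hf : IsLocal G f) :
    ∃ (B : Finset V) (F : Finset G.edgeSet) (c : St B F → ℝ), Covers B F ∧ f = up c := by
  obtain ⟨B, F, h1, h2⟩ := hf
  refine ⟨B, F ∪ eB B, fun i => f i.1.1 (ext _ i.2), (covers_eB B).mono Finset.subset_union_right, ?_⟩
  funext x η
  by_cases hx : x ∈ B
  · unfold up
    rw [cB_mem _ hx]
    refine h2 x η _ fun e he => ?_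
    have : e ∈ F ∪ eB B := Finset.mem_union_left _ he
    simp [ext, res, this]
  · unfold up
    rw [cB_not_mem _ hx, h1 x hx η]

/-- boundary term -/
noncomputable def bd {B : Finset V} {F : Finset G.edgeSet} (c : St B F → ℝ) (x : V) (η : Env G) : ℝ :=
  if x ∈ B then 0 else ∑ y ∈ G.neighborFinset x, if OpenEdge G η x y then up c y η else 0

lemma gen_up (μ p : ℝ) {B : Finset V} {F : Finset G.edgeSet} (hF : Covers B F) (c : St B F → ℝ)
    (x : V) (η : Env G) : gen G μ p (up c) x η = up (GG μ p B F c) x η + bd c x η := by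
  by_cases hx : x ∈ B
  · rw [gen_up_mem μ p hF c hx]
    unfold up bd
    rw [if_pos hx, cB_mem _ hx, add_zero]
  · rw [gen_up_not_mem μ p c hx]
    unfold bd
    rw [if_neg hx]
    have : up (GG μ p B F c) x η = 0 := cB_not_mem _ hx _
    rw [this, zero_add]

lemma bd_local {B : Finset V} {F : Finset G.edgeSet} (hF : Covers B F) (c : St B F → ℝ) :
    IsLocal G (bd c) := by
  refine ⟨B.biUnion fun y => G.neighborFinset y, F, fun x hx η => ?_, fun x η η' h => ?_⟩
  · unfold bd
    split_ifs with hxB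
    · rfl
    · refine Finset.sum_eq_zero fun y hy => ?_
      have hadj : G.Adj x y := by simpa using hy
      have hyB : y ∉ B := by
        intro hyB
        apply hx
        exact Finset.mem_biUnion.mpr ⟨y, hyB, by simpa using hadj.symm⟩
      split_ifs
      · exact cB_not_mem c hyB _
      · rfl
  · unfold bd
    split_ifs with hxB
    · rfl
    · refine Finset.sum_congr rfl fun y hy => ?_
      by_cases hyB : y ∈ B
      · have h1 : OpenEdge G η x y ↔ OpenEdge G η' x y := by
          rw [openEdge_symm, openEdge_congr hF hyB h, openEdge_symm]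
        have h2 : up c y η = up c y η' := by
          unfold up
          have : res F η = res F η' := by funext e; exact h e.1 e.2
          rw [this]
        simp only [h1, h2]
      · have h1 : up c y η = 0 := cB_not_mem c hyB _
        have h2 : up c y η' = 0 := cB_not_mem c hyB _
        simp [h1, h2]

lemma up_sum {B : Finset V} {F : Finset G.edgeSet} (c : St B F → ℝ) (x : V) (η : Env G) :
    up c x η = ∑ i, c i * up (Pi.single i 1 : St B F → ℝ) x η := by
  unfold up cB
  split_ifs with hx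
  · rw [Finset.sum_eq_single (⟨⟨x, hx⟩, res F η⟩ : St B F)]
    · simp
    · intro i _ hi
      rw [Pi.single_eq_of_ne (Ne.symm hi), mul_zero]
    · intro h; exact absurd (Finset.mem_univ _) h
  · simp

lemma up_add {B : Finset V} {F : Finset G.edgeSet} (c d : St B F → ℝ) (x : V) (η : Env G) :
    up (c + d) x η = up c x η + up d x η := cB_add c d x _

lemma up_smul {B : Finset V} {F : Finset G.edgeSet} (a : ℝ) (c : St B F → ℝ) (x : V) (η : Env G) :
    up (a • c) x η = a * up c x η := cB_smul a c x _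

lemma up_neg {B : Finset V} {F : Finset G.edgeSet} (c : St B F → ℝ) (x : V) (η : Env G) :
    up (-c) x η = - up c x η := by
  have := up_smul (-1) c x η
  rw [neg_one_smul] at this
  rw [this]; ring

lemma GG_sum (μ p : ℝ) {B : Finset V} {F : Finset G.edgeSet} (c : St B F → ℝ) (i : St B F) :
    GG μ p B F c i = ∑ j, c j * GG μ p B F (Pi.single j 1) i := by
  have h : c = ∑ j, c j • (Pi.single j 1 : St B F → ℝ) := by
    funext i
    rw [Finset.sum_apply, Finset.sum_eq_single i]
    · simp
    · intro j _ hj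
      simp [Pi.single_eq_of_ne (Ne.symm hj)]
    · intro h; exact absurd (Finset.mem_univ _) h
  conv_lhs => rw [h]
  rw [map_sum, Finset.sum_apply]
  exact Finset.sum_congr rfl fun j _ => by rw [map_smul]; rfl

lemma gen_up_sum (μ p : ℝ) {B : Finset V} {F : Finset G.edgeSet} (hF : Covers B F) (c : St B F → ℝ)
    (x : V) (η : Env G) :
    gen G μ p (up c) x η = ∑ i, c i * gen G μ p (up (Pi.single i 1 : St B F → ℝ)) x η := by
  by_cases hx : x ∈ B
  · simp_rw [gen_up_mem μ p hF _ hx]
    exact GG_sum μ p c _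
  · simp_rw [gen_up_not_mem μ p _ hx, Finset.mul_sum]
    rw [Finset.sum_comm]
    refine Finset.sum_congr rfl fun y _ => ?_
    split_ifs
    · exact up_sum c y η
    · simp

end local_functions

section measure

variable [MeasurableSpace V] [DiscreteMeasurableSpace V]

lemma measurable_up {B : Finset V} {F : Finset G.edgeSet} (c : St B F → ℝ) :
    Measurable fun z : V × Env G => up c z.1 z.2 := by
  have h1 : Measurable fun q : V × ({e // e ∈ F} → Bool) => cB c q.1 q.2 :=
    measurable_from_prod_countable_left fun ξ => Measurable.of_discrete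
  have h2 : Measurable fun z : V × Env G => (z.1, res F z.2) := by
    refine measurable_fst.prodMk (measurable_pi_lambda _ fun e => ?_)
    exact (measurable_pi_apply e.1).comp measurable_snd
  exact h1.comp h2

lemma integrable_up {B : Finset V} {F : Finset G.edgeSet} (c : St B F → ℝ) (m : Measure (V × Env G))
    [IsFiniteMeasure m] : Integrable (fun z : V × Env G => up c z.1 z.2) m := by
  refine Integrable.of_bound (measurable_up c).aestronglyMeasurable ‖c‖ (ae_of_all _ fun z => ?_)
  unfold up cB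
  split_ifs
  · exact norm_le_pi_norm c _
  · simp

lemma integrable_local {f : V → Env G → ℝ} (hf : IsLocal G f) (m : Measure (V × Env G))
    [IsFiniteMeasure m] : Integrable (fun z : V × Env G => f z.1 z.2) m := by
  obtain ⟨B, F, c, _, rfl⟩ := local_up hf
  exact integrable_up c m

lemma integrable_gen (μ p : ℝ) {f : V → Env G → ℝ} (hf : IsLocal G f) (m : Measure (V × Env G))
    [IsFiniteMeasure m] : Integrable (fun z : V × Env G => gen G μ p f z.1 z.2) m := by
  obtain ⟨B, F, c, hF, rfl⟩ := local_up hf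
  simp_rw [gen_up μ p hF c]
  exact (integrable_up _ m).add (integrable_local (bd_local hF c) m)

variable {μ p : ℝ} {o : V} {ρ : ℝ → Measure (V × Env G)}

lemma integral_up_sum {B : Finset V} {F : Finset G.edgeSet} (c : St B F → ℝ) (m : Measure (V × Env G))
    [IsFiniteMeasure m] :
    ∫ z, up c z.1 z.2 ∂m = ∑ i, c i * ∫ z, up (Pi.single i 1 : St B F → ℝ) z.1 z.2 ∂m := by
  simp_rw [up_sum c]
  rw [integral_finsetSum _ fun i _ => (integrable_up _ m).const_mul _]
  exact Finset.sum_congr rfl fun i _ => integral_const_mul _ _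

lemma integral_gen_up_sum {B : Finset V} {F : Finset G.edgeSet} (hF : Covers B F) (c : St B F → ℝ)
    (m : Measure (V × Env G)) [IsFiniteMeasure m] :
    ∫ z, gen G μ p (up c) z.1 z.2 ∂m =
      ∑ i, c i * ∫ z, gen G μ p (up (Pi.single i 1 : St B F → ℝ)) z.1 z.2 ∂m := by
  simp_rw [gen_up_sum μ p hF c]
  rw [integral_finsetSum _ fun i _ => (integrable_gen μ p (up_local _) m).const_mul _]
  exact Finset.sum_congr rfl fun i _ => integral_const_mul _ _

/-- time derivative of the expectation of a time dependent local function -/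
lemma hasDeriv_flow (h : IsRWDP G μ p o ρ) {B : Finset V} {F : Finset G.edgeSet} (hF : Covers B F)
    {v : ℝ → St B F → ℝ} {v' : St B F → ℝ} {s : ℝ} (hs : 0 ≤ s)
    (hv : HasDerivWithinAt v v' (Set.Ici 0) s) :
    HasDerivWithinAt (fun s => ∫ z, up (v s) z.1 z.2 ∂ρ s)
      (∫ z, up v' z.1 z.2 ∂ρ s + ∫ z, gen G μ p (up (v s)) z.1 z.2 ∂ρ s) (Set.Ici 0) s := by
  have hd : HasDerivWithinAt (fun r => ∑ i, v r i * ∫ z, up (Pi.single i 1 : St B F → ℝ) z.1 z.2 ∂ρ r)
      (∑ i, (v' i * ∫ z, up (Pi.single i 1 : St B F → ℝ) z.1 z.2 ∂ρ s +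
        v s i * ∫ z, gen G μ p (up (Pi.single i 1 : St B F → ℝ)) z.1 z.2 ∂ρ s)) (Set.Ici 0) s := by
    refine HasDerivWithinAt.fun_sum fun i _ => ?_
    exact ((hasDerivWithinAt_pi.mp hv) i).mul (h.forward _ (up_local _) s hs)
  have := h.prob s hs
  have e : ∫ z, up v' z.1 z.2 ∂ρ s + ∫ z, gen G μ p (up (v s)) z.1 z.2 ∂ρ s =
      ∑ i, (v' i * ∫ z, up (Pi.single i 1 : St B F → ℝ) z.1 z.2 ∂ρ s +
        v s i * ∫ z, gen G μ p (up (Pi.single i 1 : St B F → ℝ)) z.1 z.2 ∂ρ s) := by
    rw [Finset.sum_add_distrib, integral_up_sum v', integral_gen_up_sum hF (v s)]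
  rw [e]
  refine hd.congr (fun r hr => ?_) ?_
  · have := h.prob r hr
    exact integral_up_sum _ _
  · exact integral_up_sum _ _

lemma bd_nonneg {B : Finset V} {F : Finset G.edgeSet} {c : St B F → ℝ} (hc : 0 ≤ c) (x : V)
    (η : Env G) : 0 ≤ bd c x η := by
  unfold bd
  split_ifs
  · exact le_rfl
  · refine Finset.sum_nonneg fun y _ => ?_
    split_ifs
    · unfold up cB; split_ifs
      · exact hc _
      · exact le_rfl
    · exact le_rfl

lemma bd_le {B : Finset V} {F : Finset G.edgeSet} {c : St B F → ℝ} (hc : c ≤ fun _ => 1) {D : ℕ}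
    (hD : ∀ x, G.degree x ≤ D) (x : V) (η : Env G) : bd c x η ≤ D * (if x ∈ B then 0 else 1) := by
  unfold bd
  split_ifs
  · simp
  · rw [mul_one]
    calc ∑ y ∈ G.neighborFinset x, (if OpenEdge G η x y then up c y η else 0) ≤
        ∑ y ∈ G.neighborFinset x, (1 : ℝ) := by
          refine Finset.sum_le_sum fun y _ => ?_
          split_ifs
          · unfold up cB; split_ifs
            · exact hc _
            · norm_num
          · norm_num
      _ ≤ D := by
          simp only [Finset.sum_const, nsmul_eq_mul, mul_one]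
          exact_mod_cast hD x

lemma measurableSet_fst (S : Set V) : MeasurableSet {z : V × Env G | z.1 ∈ S} :=
  measurable_fst (MeasurableSet.of_discrete (s := S))

/-- comparison with the finite volume semigroup -/
theorem compare (h : IsRWDP G μ p o ρ) (hμ : 0 ≤ μ) (hp : 0 ≤ p) (hp1 : p ≤ 1) {B : Finset V}
    {F : Finset G.edgeSet} (hF : Covers B F) {D : ℕ} (hD : ∀ x, G.degree x ≤ D)
    {c0 : St B F → ℝ} (h0 : 0 ≤ c0) (h1 : c0 ≤ fun _ => 1) {t : ℝ} (ht : 0 ≤ t) {K : ℝ}
    (hK : ∀ s ∈ Set.Icc 0 t, (ρ s).real {z | z.1 ∉ B} ≤ K) :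
    ∫ z, up (sg (GGc μ p B F) t c0) z.1 z.2 ∂ρ 0 ≤ ∫ z, up c0 z.1 z.2 ∂ρ t ∧
    ∫ z, up c0 z.1 z.2 ∂ρ t ≤ ∫ z, up (sg (GGc μ p B F) t c0) z.1 z.2 ∂ρ 0 + D * K * t := by
  set A := GGc μ p B F with hA
  have hpos : ∀ c : St B F → ℝ, 0 ≤ c → 0 ≤ A c + ((D : ℝ) + μ * F.card) • c :=
    fun c hc => GG_add_nonneg hμ hp hp1 B F hD c hc
  have hA1 : A (fun _ => 1) ≤ 0 := GG_one_nonpos B F
  have hder : ∀ s ∈ Set.Icc 0 t, HasDerivWithinAt (fun s => ∫ z, up (sg A (t - s) c0) z.1 z.2 ∂ρ s)
      (∫ z, bd (sg A (t - s) c0) z.1 z.2 ∂ρ s) (Set.Ici 0) s := by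
    intro s hs
    have hv := hasDerivWithinAt_sg_sub A t s (v := fun _ => c0) (v' := 0) (I := Set.Ici 0)
      (hasDerivWithinAt_const s _ c0)
    have h2 := hasDeriv_flow h hF hs.1 hv
    have := h.prob s hs.1
    refine h2.congr_deriv ?_
    rw [← integral_add (integrable_up _ _) (integrable_gen μ p (up_local _) _)]
    refine integral_congr_ae (ae_of_all _ fun z => ?_)
    simp only [gen_up μ p hF]
    rw [zero_sub, map_neg, up_neg, ← sg_comm]
    simp only [hA, GGc_apply]
    ring
  have hcs : ∀ s ∈ Set.Icc 0 t, 0 ≤ sg A (t - s) c0 ∧ sg A (t - s) c0 ≤ fun _ => 1 := by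
    intro s hs
    have hts : 0 ≤ t - s := sub_nonneg.mpr hs.2
    exact ⟨sg_nonneg A _ hpos hts h0, (sg_mono A _ hpos hts h1).trans (sg_le_one A _ hpos hA1 hts)⟩
  have hlow : ∀ s ∈ Set.Icc 0 t, (0 : ℝ) ≤ ∫ z, bd (sg A (t - s) c0) z.1 z.2 ∂ρ s :=
    fun s hs => integral_nonneg fun z => bd_nonneg (hcs s hs).1 _ _
  have hup : ∀ s ∈ Set.Icc 0 t, ∫ z, bd (sg A (t - s) c0) z.1 z.2 ∂ρ s ≤ D * K := by
    intro s hs
    have := h.prob s hs.1
    have hm : MeasurableSet {z : V × Env G | z.1 ∉ B} := measurableSet_fst {x | x ∉ B}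
    calc ∫ z, bd (sg A (t - s) c0) z.1 z.2 ∂ρ s
        ≤ ∫ z, Set.indicator {z : V × Env G | z.1 ∉ B} (fun _ => (D : ℝ)) z ∂ρ s := by
          refine integral_mono (integrable_local (bd_local hF _) _)
            ((integrable_const _).indicator hm) fun z => ?_
          refine (bd_le (hcs s hs).2 hD z.1 z.2).trans (le_of_eq ?_)
          by_cases hz : z.1 ∈ B <;> simp [Set.indicator, hz]
      _ = D * (ρ s).real {z | z.1 ∉ B} := by
          rw [integral_indicator_const _ hm, smul_eq_mul, mul_comm]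
      _ ≤ D * K := mul_le_mul_of_nonneg_left (hK s hs) (Nat.cast_nonneg D)
  have hl := ge_of_deriv ht hder hlow
  have hu := le_of_deriv ht hder hup
  simp only [sub_zero, sub_self, sg_zero, zero_mul, add_zero] at hl hu
  exact ⟨hl, hu⟩

end measure

end Pool.Agent.Hhelper95.RWDP
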