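import Pool.Agent.Hhelper95.RWDP.Flow

/-!
# Initial condition, exit estimate, sandwich of the return probability
-/

open Finset Classical MeasureTheory

set_option linter.unusedSectionVars false

namespace Pool.Agent.Hhelper95.RWDP

open Sg Spectral

universe u

variable {V : Type u} {G : SimpleGraph V} [G.LocallyFinite]
variable [MeasurableSpace V] [DiscreteMeasurableSpace V]
variable {μ p : ℝ} {o : V} {ρ : ℝ → Measure (V × Env G)}

lemma init_cyl (h : IsRWDP G μ p o ρ) (hp : 0 ≤ p) (hp1 : p ≤ 1) (F : Finset G.edgeSet)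
    (ξ : {e // e ∈ F} → Bool) : (ρ 0).real {z | z.1 = o ∧ res F z.2 = ξ} = piW p ξ := by
  have h1 := h.init F (ext F ξ)
  have h2 : {z : V × Env G | z.1 = o ∧ ∀ e ∈ F, z.2 e = ext F ξ e} = {z | z.1 = o ∧ res F z.2 = ξ} := by
    ext z
    simp only [Set.mem_ofPred_eq]
    refine and_congr_right fun _ => ?_
    constructor
    · intro hz; funext e; have := hz e.1 e.2; simpa [res, ext] using this
    · intro hz e he; rw [← hz]; simp [ext, res, he]
  have h3 : (∏ e ∈ F, if ext F ξ e then p else 1 - p) = piW p ξ := by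
    rw [← Finset.prod_coe_sort F]
    unfold piW
    refine Finset.prod_congr rfl fun e _ => ?_
    simp [ext]
  rw [h2, h3] at h1
  unfold Measure.real
  rw [h1, ENNReal.toReal_ofReal (piW_nonneg hp hp1 ξ)]

omit [G.LocallyFinite] in
lemma mset_vertex (x : V) : MeasurableSet {z : V × Env G | z.1 = x} := by
  have h : Measurable fun z : V × Env G => z.1 := measurable_fst
  exact h (MeasurableSet.of_discrete (s := ({x} : Set V)))

lemma init_vertex (h : IsRWDP G μ p o ρ) : (ρ 0) {z | z.1 = o} = 1 := by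
  have h1 := h.init ∅ (fun _ => true)
  simpa using h1

lemma integral_single_init (h : IsRWDP G μ p o ρ) (hp : 0 ≤ p) (hp1 : p ≤ 1) {B : Finset V}
    {F : Finset G.edgeSet} (i : St B F) :
    ∫ z, up (Pi.single i 1 : St B F → ℝ) z.1 z.2 ∂ρ 0 = if i.1.1 = o then piW p i.2 else 0 := by
  have := h.prob 0 le_rfl
  have e1 : ∀ z : V × Env G, up (Pi.single i 1 : St B F → ℝ) z.1 z.2 =
      Set.indicator {z : V × Env G | z.1 = i.1.1 ∧ res F z.2 = i.2} (fun _ => (1 : ℝ)) z := by
    intro z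
    unfold up cB Set.indicator
    by_cases hz : z.1 ∈ B
    · rw [dif_pos hz]
      by_cases h2 : (⟨⟨z.1, hz⟩, res F z.2⟩ : St B F) = i
      · have h3 : z.1 = i.1.1 ∧ res F z.2 = i.2 := by rw [← h2]; exact ⟨rfl, rfl⟩
        rw [h2, Pi.single_eq_same]
        exact (if_pos h3).symm
      · have h3 : ¬ (z.1 = i.1.1 ∧ res F z.2 = i.2) := fun h4 =>
          h2 (Prod.ext (Subtype.ext h4.1) h4.2)
        rw [Pi.single_eq_of_ne h2]
        exact (if_neg h3).symm
    · rw [dif_neg hz]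
      refine (if_neg ?_).symm
      rintro ⟨h1, _⟩
      exact hz (h1 ▸ i.1.2)
  have hm : MeasurableSet {z : V × Env G | z.1 = i.1.1 ∧ res F z.2 = i.2} := by
    have hm1 : MeasurableSet {z : V × Env G | z.1 = i.1.1} := mset_vertex _
    have hr : Measurable fun z : V × Env G => res F z.2 :=
      measurable_pi_lambda _ fun e => (measurable_pi_apply e.1).comp measurable_snd
    exact hm1.inter (hr (measurableSet_singleton i.2))
  simp_rw [e1]
  rw [integral_indicator_const _ hm, smul_eq_mul, mul_one]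
  split_ifs with hi
  · rw [hi]; exact init_cyl h hp hp1 F i.2
  · unfold Measure.real
    rw [ENNReal.toReal_eq_zero_iff]
    left
    have h1 : (ρ 0) {z : V × Env G | z.1 ≠ o} = 0 := by
      have h2 : {z : V × Env G | z.1 ≠ o} = {z : V × Env G | z.1 = o}ᶜ := rfl
      rw [h2, prob_compl_eq_zero_iff (mset_vertex o)]
      exact init_vertex h
    exact measure_mono_null (fun z hz => by rw [Set.mem_ofPred_eq, hz.1]; exact hi) h1

lemma integral_up_init (h : IsRWDP G μ p o ρ) (hp : 0 ≤ p) (hp1 : p ≤ 1) {B : Finset V}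
    {F : Finset G.edgeSet} (c : St B F → ℝ) :
    ∫ z, up c z.1 z.2 ∂ρ 0 = EE p (fun ξ => cB c o ξ) := by
  have := h.prob 0 le_rfl
  rw [integral_up_sum c]
  simp_rw [integral_single_init h hp hp1]
  rw [Fintype.sum_prod_type]
  unfold EE
  rw [Finset.sum_comm]
  refine Finset.sum_congr rfl fun ξ _ => ?_
  by_cases ho : o ∈ B
  · simp only [cB_mem c ho]
    rw [Finset.sum_eq_single (⟨o, ho⟩ : {x // x ∈ B})]
    · simp [mul_comm]
    · intro x _ hx
      rw [if_neg (fun hh => hx (Subtype.ext hh)), mul_zero]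
    · intro hh; exact absurd (Finset.mem_univ _) hh
  · simp only [cB_not_mem c ho, mul_zero]
    refine Finset.sum_eq_zero fun x _ => ?_
    rw [if_neg (fun hh : x.1 = o => ho (hh ▸ x.2)), mul_zero]

/-! ### exit estimate -/

/-- cutoff function -/
noncomputable def chi (G : SimpleGraph V) [G.LocallyFinite] (R : ℕ) (x y : V) : ℝ :=
  (1 / (R : ℝ)) * ∑ n ∈ Finset.range R, if y ∈ bl G n x then 1 else 0

lemma chi_self {R : ℕ} (hR : 1 ≤ R) (x : V) : chi G R x x = 1 := by
  unfold chi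
  have : (R : ℝ) ≠ 0 := by positivity
  simp [self_mem_bl, this]

lemma chi_le {R : ℕ} (hR : 1 ≤ R) (x y : V) : chi G R x y ≤ if y ∈ bl G R x then 1 else 0 := by
  unfold chi
  have hR' : (0 : ℝ) < R := by positivity
  split_ifs with h
  · have h1 : ∑ n ∈ Finset.range R, (if y ∈ bl G n x then (1 : ℝ) else 0) ≤ ∑ n ∈ Finset.range R, (1 : ℝ) :=
      Finset.sum_le_sum fun n _ => by split_ifs <;> norm_num
    simp only [Finset.sum_const, Finset.card_range, nsmul_eq_mul, mul_one] at h1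
    rw [div_mul_eq_mul_div, one_mul, div_le_one hR']
    exact h1
  · have : ∑ n ∈ Finset.range R, (if y ∈ bl G n x then (1 : ℝ) else 0) = 0 := by
      refine Finset.sum_eq_zero fun n hn => ?_
      rw [if_neg]
      exact fun h' => h (bl_mono (Finset.mem_range.mp hn).le x h')
    rw [this, mul_zero]

lemma chi_adj {R : ℕ} (hR : 1 ≤ R) (x : V) {y z : V} (h : G.Adj y z) :
    -(1 / (R : ℝ)) ≤ chi G R x z - chi G R x y := by
  unfold chi
  have hR' : (0 : ℝ) < R := by positivity
  obtain ⟨m, rfl⟩ : ∃ m, R = m + 1 := ⟨R - 1, by omega⟩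
  have h1 : ∑ n ∈ Finset.range (m + 1), (if y ∈ bl G n x then (1 : ℝ) else 0) ≤
      ∑ n ∈ Finset.range (m + 1), (if z ∈ bl G n x then (1 : ℝ) else 0) + 1 := by
    rw [Finset.sum_range_succ, Finset.sum_range_succ' (fun n => if z ∈ bl G n x then (1 : ℝ) else 0)]
    have e1 : ∑ n ∈ Finset.range m, (if y ∈ bl G n x then (1 : ℝ) else 0) ≤
        ∑ n ∈ Finset.range m, (if z ∈ bl G (n + 1) x then (1 : ℝ) else 0) := by
      refine Finset.sum_le_sum fun n _ => ?_
      by_cases hy : y ∈ bl G n x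
      · rw [if_pos hy, if_pos (adj_mem_bl hy h)]
      · rw [if_neg hy]; split_ifs <;> norm_num
    have e2 : (if y ∈ bl G m x then (1 : ℝ) else 0) ≤ 1 := by split_ifs <;> norm_num
    have e3 : (0 : ℝ) ≤ (if z ∈ bl G 0 x then (1 : ℝ) else 0) := by split_ifs <;> norm_num
    linarith
  rw [← mul_sub, neg_le_iff_add_nonneg]
  have : 1 / ((m + 1 : ℕ) : ℝ) * (∑ n ∈ Finset.range (m + 1), (if z ∈ bl G n x then (1 : ℝ) else 0) -
      ∑ n ∈ Finset.range (m + 1), (if y ∈ bl G n x then (1 : ℝ) else 0)) + 1 / ((m + 1 : ℕ) : ℝ) =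
      1 / ((m + 1 : ℕ) : ℝ) * (∑ n ∈ Finset.range (m + 1), (if z ∈ bl G n x then (1 : ℝ) else 0) -
      ∑ n ∈ Finset.range (m + 1), (if y ∈ bl G n x then (1 : ℝ) else 0) + 1) := by ring
  rw [this]
  exact mul_nonneg (by positivity) (by linarith)

lemma chi_local {R : ℕ} (hR : 1 ≤ R) (x : V) : IsLocal G (fun y (_ : Env G) => chi G R x y) := by
  refine ⟨bl G R x, ∅, fun y hy _ => ?_, fun _ _ _ _ => rfl⟩
  have h1 := chi_le (G := G) hR x y
  rw [if_neg hy] at h1
  have h2 : 0 ≤ chi G R x y := by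
    unfold chi
    refine mul_nonneg (by positivity) (Finset.sum_nonneg fun n _ => ?_)
    split_ifs <;> norm_num
  exact le_antisymm h1 h2

lemma gen_chi_ge {R : ℕ} (hR : 1 ≤ R) {D : ℕ} (hD : ∀ x, G.degree x ≤ D) (x y : V) (η : Env G) :
    -((D : ℝ) / R) ≤ gen G μ p (fun y (_ : Env G) => chi G R x y) y η := by
  unfold gen
  have h0 : ∑ᶠ e : G.edgeSet, (p * chi G R x y + (1 - p) * chi G R x y - chi G R x y) = 0 := by
    have : (p * chi G R x y + (1 - p) * chi G R x y - chi G R x y) = 0 := by ring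
    rw [this]; exact finsum_zero
  rw [h0, mul_zero, add_zero]
  have hR' : (0 : ℝ) < R := by positivity
  calc -((D : ℝ) / R) ≤ ∑ z ∈ G.neighborFinset y, (-(1 / (R : ℝ))) := by
        rw [Finset.sum_const, nsmul_eq_mul, mul_neg, neg_le_neg_iff, mul_one_div]
        refine div_le_div_of_nonneg_right ?_ hR'.le
        exact_mod_cast hD y
    _ ≤ _ := by
        refine Finset.sum_le_sum fun z hz => ?_
        have hadj : G.Adj y z := by simpa using hz
        split_ifs
        · exact chi_adj hR x hadj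
        · have : 0 ≤ 1 / (R : ℝ) := by positivity
          linarith

/-- exit estimate -/
lemma exit_le (h : IsRWDP G μ p o ρ) {D : ℕ} (hD : ∀ x, G.degree x ≤ D) {R : ℕ} (hR : 1 ≤ R)
    {B : Finset V} (hB : bl G R o ⊆ B) {s : ℝ} (hs : 0 ≤ s) :
    (ρ s).real {z | z.1 ∉ B} ≤ D / R * s := by
  have hl := ge_of_deriv (f := fun s => ∫ z, chi G R o z.1 ∂ρ s)
    (f' := fun s => ∫ z, gen G μ p (fun y (_ : Env G) => chi G R o y) z.1 z.2 ∂ρ s)
    (K := -((D : ℝ) / R)) hs
    (fun r hr => h.forward _ (chi_local hR o) r hr.1)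
    (fun r hr => by
      have := h.prob r hr.1
      calc -((D : ℝ) / R) = ∫ _z : V × Env G, (-((D : ℝ) / R)) ∂ρ r := by simp
        _ ≤ _ := integral_mono (integrable_const _) (integrable_gen μ p (chi_local hR o) _)
              fun z => gen_chi_ge hR hD o z.1 z.2)
  have h0 : ∫ z, chi G R o z.1 ∂ρ 0 = 1 := by
    have := h.prob 0 le_rfl
    have hae : ∀ᵐ z ∂ρ 0, z.1 = o := by
      rw [ae_iff]
      have h2 : {z : V × Env G | ¬ z.1 = o} = {z : V × Env G | z.1 = o}ᶜ := rfl
      rw [h2, prob_compl_eq_zero_iff (mset_vertex o)]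
      exact init_vertex h
    have : ∫ z, chi G R o z.1 ∂ρ 0 = ∫ _z : V × Env G, (1 : ℝ) ∂ρ 0 := by
      refine integral_congr_ae (hae.mono fun z hz => ?_)
      simp only [hz]; exact chi_self hR o
    rw [this]; simp
  have := h.prob s hs
  have hm : MeasurableSet {z : V × Env G | z.1 ∉ B} := measurableSet_fst {x | x ∉ B}
  have h1 : (ρ s).real {z | z.1 ∉ B} ≤ 1 - ∫ z, chi G R o z.1 ∂ρ s := by
    have e1 : (ρ s).real {z | z.1 ∉ B} = ∫ z, Set.indicator {z : V × Env G | z.1 ∉ B} (fun _ => (1 : ℝ)) z ∂ρ s := by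
      rw [integral_indicator_const _ hm, smul_eq_mul, mul_one]
    have e2 : 1 - ∫ z, chi G R o z.1 ∂ρ s = ∫ z, (1 - chi G R o z.1) ∂ρ s := by
      rw [integral_sub (integrable_const _) (integrable_local (chi_local hR o) _)]
      simp
    rw [e1, e2]
    refine integral_mono ((integrable_const _).indicator hm)
      ((integrable_const _).sub (integrable_local (chi_local hR o) _)) fun z => ?_
    have h3 := chi_le (G := G) hR o z.1
    unfold Set.indicator
    by_cases hz : z.1 ∈ B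
    · simp only [Set.mem_ofPred_eq, hz, not_true_eq_false, if_false]
      have : (if z.1 ∈ bl G R o then (1 : ℝ) else 0) ≤ 1 := by split_ifs <;> norm_num
      linarith
    · simp only [Set.mem_ofPred_eq, hz, not_false_eq_true, if_true]
      have : z.1 ∉ bl G R o := fun h' => hz (hB h')
      rw [if_neg this] at h3
      linarith
  rw [h0] at hl
  have e : (D : ℝ) / R * s = -(-((D : ℝ) / R) * s) := by ring
  rw [e]
  linarith

/-- the return probability of a flow -/
noncomputable def ret (ρ : ℝ → Measure (V × Env G)) (x : V) (t : ℝ) : ℝ := (ρ t).real {z | z.1 = x}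

/-- sandwich -/
theorem sandwich (h : IsRWDP G μ p o ρ) (hμ : 0 ≤ μ) (hp : 0 ≤ p) (hp1 : p ≤ 1) {B : Finset V}
    (ho : o ∈ B) {F : Finset G.edgeSet} (hF : Covers B F) {D : ℕ} (hD : ∀ x, G.degree x ≤ D)
    {t : ℝ} (ht : 0 ≤ t) :
    Qf μ p B F t ⟨o, ho⟩ ≤ ret ρ o t ∧
    ∀ R : ℕ, 1 ≤ R → bl G R o ⊆ B → ret ρ o t ≤ Qf μ p B F t ⟨o, ho⟩ + D ^ 2 * t ^ 2 / R := by
  have h0 : (0 : St B F → ℝ) ≤ lift F (dl ⟨o, ho⟩) := by
    intro i; unfold lift dl; simp only [Pi.zero_apply]; split_ifs <;> norm_num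
  have h1 : lift F (dl ⟨o, ho⟩) ≤ (fun _ => 1 : St B F → ℝ) := by
    intro i; unfold lift dl; split_ifs <;> norm_num
  have e0 : ∫ z, up (sg (GGc μ p B F) t (lift F (dl ⟨o, ho⟩))) z.1 z.2 ∂ρ 0 = Qf μ p B F t ⟨o, ho⟩ := by
    rw [integral_up_init h hp hp1]
    unfold Qf
    congr 1; funext ξ; exact cB_mem _ ho ξ
  have et : ∫ z, up (lift F (dl ⟨o, ho⟩)) z.1 z.2 ∂ρ t = ret ρ o t := by
    have := h.prob t ht
    have e1 : ∀ z : V × Env G, up (lift F (dl ⟨o, ho⟩)) z.1 z.2 =
        Set.indicator {z : V × Env G | z.1 = o} (fun _ => (1 : ℝ)) z := by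
      intro z
      unfold up
      rw [cB_lift, zx_dl]
      simp [Set.indicator]
    simp_rw [e1]
    have hm : MeasurableSet {z : V × Env G | z.1 = o} := mset_vertex o
    rw [integral_indicator_const _ hm, smul_eq_mul, mul_one]
    rfl
  have hK1 : ∀ s ∈ Set.Icc 0 t, (ρ s).real {z | z.1 ∉ B} ≤ 1 := by
    intro s hs
    have := h.prob s hs.1
    exact measureReal_le_one
  refine ⟨?_, fun R hR hB => ?_⟩
  · have := (compare h hμ hp hp1 hF hD h0 h1 ht hK1).1
    rwa [e0, et] at this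
  · have hK : ∀ s ∈ Set.Icc 0 t, (ρ s).real {z | z.1 ∉ B} ≤ D / R * t := by
      intro s hs
      refine (exit_le h hD hR hB hs.1).trans ?_
      exact mul_le_mul_of_nonneg_left hs.2 (by positivity)
    have := (compare h hμ hp hp1 hF hD h0 h1 ht hK).2
    rw [e0, et] at this
    refine this.trans (le_of_eq ?_)
    ring

end Pool.Agent.Hhelper95.RWDP
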