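import Pool.Agent.Hhelper95.RWDP.Finite

/-!
# Quadratic forms of the finite volume operators
-/

open Finset Classical

set_option linter.unusedSectionVars false

namespace Pool.Agent.Hhelper95.RWDP

open Sg Spectral

universe u

variable {V : Type u} {G : SimpleGraph V} [G.LocallyFinite]

/-! ### Graph forms -/

/-- the weight `1/2` inside `B` and `1` outside -/
noncomputable def kap (B : Finset V) (y : V) : ℝ := if y ∈ B then 1 / 2 else 1

lemma kap_nonneg (B : Finset V) (y : V) : 0 ≤ kap B y := by unfold kap; split_ifs <;> norm_num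

lemma kap_le_one (B : Finset V) (y : V) : kap B y ≤ 1 := by unfold kap; split_ifs <;> norm_num

/-- Dirichlet energy with edge weights `a`. -/
noncomputable def En (G : SimpleGraph V) [G.LocallyFinite] (B : Finset V) (a : V → V → ℝ) (f : V → ℝ) : ℝ :=
  ∑ x ∈ B, ∑ y ∈ G.neighborFinset x, a x y * kap B y * (f x - f y) ^ 2

lemma sum_nbr (B : Finset V) {x : V} (a : V → ℝ) (ha : ∀ y, ¬ G.Adj x y → a y = 0) (φ : V → ℝ)
    (hφ : ∀ y ∉ B, φ y = 0) :
    ∑ y ∈ G.neighborFinset x, a y * φ y = ∑ y ∈ B, a y * φ y := by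
  have h1 : ∑ y ∈ G.neighborFinset x, a y * φ y = ∑ y ∈ G.neighborFinset x ∪ B, a y * φ y := by
    refine Finset.sum_subset Finset.subset_union_left fun y _ hy => ?_
    rw [ha y (by simpa using hy), zero_mul]
  have h2 : ∑ y ∈ B, a y * φ y = ∑ y ∈ G.neighborFinset x ∪ B, a y * φ y := by
    refine Finset.sum_subset Finset.subset_union_right fun y _ hy => ?_
    rw [hφ y hy, mul_zero]
  rw [h1, h2]

lemma walk_symm (B : Finset V) (a : V → V → ℝ) (ha : ∀ x y, a x y = a y x)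
    (ha0 : ∀ x y, ¬ G.Adj x y → a x y = 0) (f g : V → ℝ) (hf : ∀ y ∉ B, f y = 0)
    (hg : ∀ y ∉ B, g y = 0) :
    ∑ x ∈ B, (∑ y ∈ G.neighborFinset x, a x y * (f y - f x)) * g x =
      ∑ x ∈ B, f x * ∑ y ∈ G.neighborFinset x, a x y * (g y - g x) := by
  have h1 : ∀ x, ∀ f : V → ℝ, (∀ y ∉ B, f y = 0) → ∑ y ∈ G.neighborFinset x, a x y * (f y - f x) =
      ∑ y ∈ B, a x y * f y - (∑ y ∈ G.neighborFinset x, a x y) * f x := by
    intro x f hf
    rw [← sum_nbr B (a x) (ha0 x) f hf, Finset.sum_mul, ← Finset.sum_sub_distrib]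
    exact Finset.sum_congr rfl fun y _ => by ring
  simp_rw [fun x => h1 x f hf, fun x => h1 x g hg, sub_mul, mul_sub, Finset.sum_sub_distrib]
  congr 1
  · simp_rw [Finset.sum_mul, Finset.mul_sum]
    rw [Finset.sum_comm]
    refine Finset.sum_congr rfl fun x _ => Finset.sum_congr rfl fun y _ => ?_
    rw [ha x y]; ring
  · exact Finset.sum_congr rfl fun x _ => by ring

lemma walk_energy (B : Finset V) (a : V → V → ℝ) (ha : ∀ x y, a x y = a y x)
    (ha0 : ∀ x y, ¬ G.Adj x y → a x y = 0) (f : V → ℝ) (hf : ∀ y ∉ B, f y = 0) :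
    ∑ x ∈ B, f x * ∑ y ∈ G.neighborFinset x, a x y * (f x - f y) = En G B a f := by
  unfold En
  rw [← sub_eq_zero, ← Finset.sum_sub_distrib]
  have h1 : ∀ x, f x * ∑ y ∈ G.neighborFinset x, a x y * (f x - f y) -
      ∑ y ∈ G.neighborFinset x, a x y * kap B y * (f x - f y) ^ 2 =
      ∑ y ∈ G.neighborFinset x, a x y * (if y ∈ B then (1 / 2) * (f x ^ 2 - f y ^ 2) else 0) := by
    intro x
    rw [Finset.mul_sum, ← Finset.sum_sub_distrib]
    refine Finset.sum_congr rfl fun y _ => ?_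
    unfold kap
    by_cases hy : y ∈ B
    · simp only [hy, if_true]; ring
    · simp only [hy, if_false, hf y hy]; ring
  simp_rw [h1]
  have h2 : ∀ x, ∑ y ∈ G.neighborFinset x, a x y * (if y ∈ B then (1 / 2) * (f x ^ 2 - f y ^ 2) else 0) =
      ∑ y ∈ B, a x y * ((1 / 2) * (f x ^ 2 - f y ^ 2)) := by
    intro x
    rw [sum_nbr B (a x) (ha0 x) _ (fun y hy => by simp [hy])]
    exact Finset.sum_congr rfl fun y hy => by simp [hy]
  simp_rw [h2]
  have h3 : ∑ x ∈ B, ∑ y ∈ B, a x y * ((1 / 2) * (f x ^ 2 - f y ^ 2)) =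
      ∑ x ∈ B, ∑ y ∈ B, a x y * ((1 / 2) * (f y ^ 2 - f x ^ 2)) := by
    rw [Finset.sum_comm]
    exact Finset.sum_congr rfl fun x _ => Finset.sum_congr rfl fun y _ => by rw [ha x y]
  have h4 : ∑ x ∈ B, ∑ y ∈ B, a x y * ((1 / 2) * (f x ^ 2 - f y ^ 2)) +
      ∑ x ∈ B, ∑ y ∈ B, a x y * ((1 / 2) * (f y ^ 2 - f x ^ 2)) = 0 := by
    rw [← Finset.sum_add_distrib]
    refine Finset.sum_eq_zero fun x _ => ?_
    rw [← Finset.sum_add_distrib]
    exact Finset.sum_eq_zero fun y _ => by ring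
  linarith

/-! ### Positivity of the finite volume generator -/

lemma GG_add_nonneg {μ p : ℝ} (hμ : 0 ≤ μ) (hp : 0 ≤ p) (hp1 : p ≤ 1) (B : Finset V)
    (F : Finset G.edgeSet) {D : ℕ} (hD : ∀ x, G.degree x ≤ D) (c : St B F → ℝ) (hc : 0 ≤ c) :
    0 ≤ GG μ p B F c + ((D : ℝ) + μ * F.card) • c := by
  intro i
  have hci := hc i
  simp only [Pi.zero_apply] at hci
  simp only [Pi.zero_apply, Pi.add_apply, Pi.smul_apply, smul_eq_mul, GG_apply]
  have hcB : ∀ y ξ, 0 ≤ cB c y ξ := by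
    intro y ξ; unfold cB; split_ifs
    · exact hc _
    · exact le_rfl
  have h1 : -((D : ℝ) * c i) ≤ ∑ y ∈ G.neighborFinset i.1.1,
      (if OpenEdge G (ext F i.2) i.1.1 y then cB c y i.2 - c i else 0) := by
    have : ∑ y ∈ G.neighborFinset i.1.1, (-(c i)) ≤ ∑ y ∈ G.neighborFinset i.1.1,
        (if OpenEdge G (ext F i.2) i.1.1 y then cB c y i.2 - c i else 0) := by
      refine Finset.sum_le_sum fun y _ => ?_
      split_ifs
      · linarith [hcB y i.2]
      · linarith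
    rw [Finset.sum_const, nsmul_eq_mul] at this
    have hd : ((G.neighborFinset i.1.1).card : ℝ) ≤ D := by
      exact_mod_cast hD i.1.1
    nlinarith
  have h2 : -((F.card : ℝ) * c i) ≤ ∑ e : {e // e ∈ F}, (pe p e (fun ξ => c (i.1, ξ)) i.2 - c i) := by
    have : ∑ e : {e // e ∈ F}, (-(c i)) ≤ ∑ e : {e // e ∈ F}, (pe p e (fun ξ => c (i.1, ξ)) i.2 - c i) := by
      refine Finset.sum_le_sum fun e _ => ?_
      have h3 : 0 ≤ pe p e (fun ξ => c (i.1, ξ)) i.2 := by
        unfold pe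
        exact add_nonneg (mul_nonneg hp (hc _)) (mul_nonneg (by linarith) (hc _))
      linarith
    rw [Finset.sum_const, nsmul_eq_mul, Finset.card_univ, Fintype.card_coe] at this
    linarith
  nlinarith

lemma GG_one_nonpos {μ p : ℝ} (B : Finset V) (F : Finset G.edgeSet) :
    GG μ p B F (fun _ => 1) ≤ 0 := by
  intro i
  simp only [Pi.zero_apply, GG_apply]
  have h1 : ∑ y ∈ G.neighborFinset i.1.1,
      (if OpenEdge G (ext F i.2) i.1.1 y then cB (F := F) (B := B) (fun _ => 1) y i.2 - 1 else 0) ≤ 0 := by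
    refine Finset.sum_nonpos fun y _ => ?_
    split_ifs
    · unfold cB; split_ifs <;> norm_num
    · exact le_rfl
  have h2 : ∑ e : {e // e ∈ F}, (pe p e (fun _ => (1 : ℝ)) i.2 - 1) = 0 :=
    Finset.sum_eq_zero fun e _ => by simp only [pe]; ring
  rw [h2]
  linarith

end Pool.Agent.Hhelper95.RWDP
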