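import Pool.Agent.Hhelper95.RWDP.Bounds

/-!
# Two-sided comparison of return probabilities
-/

open Finset Classical MeasureTheory

set_option linter.unusedSectionVars false

namespace Pool.Agent.Hhelper95.RWDP

open Sg Spectral

universe u

variable {V : Type u} {G : SimpleGraph V} [G.LocallyFinite]
variable [MeasurableSpace V] [DiscreteMeasurableSpace V]
variable {μ p : ℝ} {o : V} {ρ : ℝ → Measure (V × Env G)}

lemma ret_srw (σ : ℝ → Measure V) (t : ℝ) :
    ret (G := G) (fun t => (σ t).map fun x => ((x, fun _ => true) : V × Env G)) o t = (σ t).real {o} := by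
  have hm : Measurable fun x : V => ((x, fun _ => true) : V × Env G) := Measurable.of_discrete
  unfold ret Measure.real
  rw [Measure.map_apply hm (mset_vertex _)]
  rfl

lemma degree_iso (φ : G ≃g G) (x : V) : G.degree (φ x) = G.degree x := by
  have h : G.neighborFinset (φ x) = (G.neighborFinset x).map ⟨φ, φ.injective⟩ := by
    ext y
    simp only [SimpleGraph.mem_neighborFinset, Finset.mem_map, Function.Embedding.coeFn_mk]
    constructor
    · intro hy
      refine ⟨φ.symm y, ?_, by simp⟩
      rw [← φ.map_adj_iff]; simpa using hy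
    · rintro ⟨z, hz, rfl⟩
      exact φ.map_adj_iff.mpr hz
  unfold SimpleGraph.degree
  rw [h, Finset.card_map]

/-- The comparison of annealed return probabilities, for a transitive graph. -/
theorem comparison_main (htr : ∀ x : V, ∃ φ : G ≃g G, φ o = x) (hμ : 0 < μ) (hp : 0 < p)
    (hp1 : p ≤ 1) :
    ∃ C : ℝ, 1 ≤ C ∧ ∀ (ρ : ℝ → Measure (V × Env G)) (σ : ℝ → Measure V),
      IsRWDP G μ p o ρ → IsSRW G o σ → ∀ t : ℝ, 0 ≤ t →
        (1 / C) * (σ (C * t)).real {o} ≤ (ρ t).real {z | z.1 = o} ∧
        (ρ t).real {z | z.1 = o} ≤ C * (σ (t / C)).real {o} := by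
  set D : ℕ := G.degree o + 1 with hDdef
  have hD1 : 1 ≤ D := by omega
  have hD : ∀ x, G.degree x ≤ D := by
    intro x
    obtain ⟨φ, rfl⟩ := htr x
    rw [degree_iso]; omega
  have hDpos : (0 : ℝ) < D := by exact_mod_cast hD1
  rcases hp1.eq_or_lt with rfl | hplt
  · refine ⟨1, le_rfl, fun ρ σ h hσ t ht => ?_⟩
    have h1 := srw_to_rwdp hσ μ
    have e : ∀ s, ret (G := G) (fun t => (σ t).map fun x => ((x, fun _ => true) : V × Env G)) o s =
      (σ s).real {o} := fun s => ret_srw σ s
    have a := ret_one_unique h1 h hμ.le hμ.le hD ht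
    have b := ret_one_unique h h1 hμ.le hμ.le hD ht
    rw [e] at a b
    simp only [one_div, inv_one, one_mul, div_one]
    exact ⟨a, b⟩
  · have hc := cst_pos hμ hp D
    set c := cst μ p D with hcdef
    by_cases ham : ∀ ε : ℝ, 0 < ε → ∃ B : Finset V, B.Nonempty ∧ (bdc G B : ℝ) ≤ ε * B.card
    · refine ⟨max 2 (max (1 / c) (D / (c * μ))), ?_, fun ρ σ h hσ t ht => ?_⟩
      · have : (2 : ℝ) ≤ max 2 (max (1 / c) (D / (c * μ))) := le_max_left _ _
        linarith
      · set C := max 2 (max (1 / c) (D / (c * μ))) with hC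
        have hC2 : (2 : ℝ) ≤ C := le_max_left _ _
        have hC3 : 1 / c ≤ C := (le_max_left _ _).trans (le_max_right _ _)
        have hC4 : D / (c * μ) ≤ C := (le_max_right _ _).trans (le_max_right _ _)
        have hCpos : 0 < C := by linarith
        have h1 := srw_to_rwdp hσ μ
        set ρ1 : ℝ → Measure (V × Env G) := fun t => (σ t).map fun x => ((x, fun _ => true) : V × Env G)
          with hρ1
        have e : ∀ s, ret ρ1 o s = (σ s).real {o} := fun s => ret_srw σ s
        obtain ⟨lo, up⟩ := amenable_bounds h h1 hμ hp hplt htr hD ham ht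
        rw [← e, ← e]
        change 1 / C * ret ρ1 o (C * t) ≤ ret ρ o t ∧ ret ρ o t ≤ C * ret ρ1 o (t / C)
        constructor
        · have a1 : ret ρ1 o (C * t) ≤ ret ρ1 o (p * t) :=
            ret_one_antitone h1 hμ.le hD (mul_nonneg hp.le ht)
              (mul_le_mul_of_nonneg_right (by linarith) ht)
          have a2 : 1 / C * ret ρ1 o (C * t) ≤ 1 * ret ρ1 o (C * t) :=
            mul_le_mul_of_nonneg_right (by rw [div_le_one hCpos]; linarith) (ret_nonneg _ _ _)
          linarith
        · have htC : 0 ≤ t / C := div_nonneg ht hCpos.le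
          have a1 : ret ρ1 o (c * t) ≤ ret ρ1 o (t / C) := by
            refine ret_one_antitone h1 hμ.le hD htC ?_
            rw [div_le_iff₀ hCpos]
            have : 1 ≤ C * c := by rwa [div_le_iff₀ hc] at hC3
            nlinarith
          have a2 : Real.exp (-(t * (c * μ))) ≤ ret ρ1 o (t / C) := by
            refine le_trans ?_ (ret_ge_exp h1 hD htC)
            rw [Real.exp_le_exp, neg_le_neg_iff, ← mul_div_assoc, div_le_iff₀ hCpos]
            have : (D : ℝ) ≤ C * (c * μ) := by rwa [div_le_iff₀ (by positivity)] at hC4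
            nlinarith
          have a3 : 2 * ret ρ1 o (t / C) ≤ C * ret ρ1 o (t / C) :=
            mul_le_mul_of_nonneg_right hC2 (ret_nonneg _ _ _)
          linarith
    · push Not at ham
      obtain ⟨ε, hε, hiso0⟩ := ham
      have hiso : ∀ B : Finset V, ε * B.card ≤ bdc G B := by
        intro B
        rcases B.eq_empty_or_nonempty with rfl | hB
        · simp
        · exact (hiso0 B hB).le
      set lam : ℝ := ε ^ 2 / (4 * D) with hlam
      have hlampos : 0 < lam := by positivity
      have hminpos : 0 < c * min lam μ := mul_pos hc (lt_min hlampos hμ)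
      refine ⟨max 1 (max (D / lam) (D / (c * min lam μ))), le_max_left _ _, fun ρ σ h hσ t ht => ?_⟩
      set C := max 1 (max (D / lam) (D / (c * min lam μ))) with hC
      have hC1 : (1 : ℝ) ≤ C := le_max_left _ _
      have hC3 : D / lam ≤ C := (le_max_left _ _).trans (le_max_right _ _)
      have hC4 : D / (c * min lam μ) ≤ C := (le_max_right _ _).trans (le_max_right _ _)
      have hCpos : 0 < C := by linarith
      have h1 := srw_to_rwdp hσ μ
      set ρ1 : ℝ → Measure (V × Env G) := fun t => (σ t).map fun x => ((x, fun _ => true) : V × Env G)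
        with hρ1
      have e : ∀ s, ret ρ1 o s = (σ s).real {o} := fun s => ret_srw σ s
      rw [← e, ← e]
      change 1 / C * ret ρ1 o (C * t) ≤ ret ρ o t ∧ ret ρ o t ≤ C * ret ρ1 o (t / C)
      constructor
      · have a1 : ret ρ1 o (C * t) ≤ Real.exp (-(C * t * lam)) :=
          nonamenable_bound_one h1 hμ hD1 hD hε hiso (mul_nonneg hCpos.le ht)
        have a2 : Real.exp (-(C * t * lam)) ≤ Real.exp (-(D * t)) := by
          rw [Real.exp_le_exp, neg_le_neg_iff]
          have : (D : ℝ) ≤ C * lam := by rwa [div_le_iff₀ hlampos] at hC3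
          nlinarith
        have a3 := ret_ge_exp h hD ht
        have a4 : 1 / C * ret ρ1 o (C * t) ≤ 1 * ret ρ1 o (C * t) :=
          mul_le_mul_of_nonneg_right (by rw [div_le_one hCpos]; linarith) (ret_nonneg _ _ _)
        linarith
      · have htC : 0 ≤ t / C := div_nonneg ht hCpos.le
        have a1 := nonamenable_bound h hμ hp hplt hD1 hD hε hiso ht
        have a2 : Real.exp (-(t * (c * min lam μ))) ≤ ret ρ1 o (t / C) := by
          refine le_trans ?_ (ret_ge_exp h1 hD htC)
          rw [Real.exp_le_exp, neg_le_neg_iff, ← mul_div_assoc, div_le_iff₀ hCpos]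
          have : (D : ℝ) ≤ C * (c * min lam μ) := by rwa [div_le_iff₀ hminpos] at hC4
          nlinarith
        have a3 : 1 * ret ρ1 o (t / C) ≤ C * ret ρ1 o (t / C) :=
          mul_le_mul_of_nonneg_right hC1 (ret_nonneg _ _ _)
        linarith

end Pool.Agent.Hhelper95.RWDP
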