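import Pool.Agent.Hhelper95.RWDP.Dens

/-!
# The reference measure and finite volume measures
-/

open Finset Classical MeasureTheory

set_option linter.unusedSectionVars false

namespace Pool.Agent.Hhelper95.RWDP

open Sg Spectral

universe u

variable {V : Type u} {G : SimpleGraph V} [G.LocallyFinite]
variable {μ p : ℝ} {o : V}

/-- Bernoulli measure on the two states -/
noncomputable def bern (p : ℝ) : Measure Bool :=
  ENNReal.ofReal p • Measure.dirac true + ENNReal.ofReal (1 - p) • Measure.dirac false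

lemma bern_singleton (p : ℝ) (b : Bool) : bern p {b} = ENNReal.ofReal (if b then p else 1 - p) := by
  unfold bern
  cases b <;> simp

lemma bern_prob (hp : 0 ≤ p) (hp1 : p ≤ 1) : IsProbabilityMeasure (bern p) := by
  constructor
  unfold bern
  simp only [Measure.coe_add, Measure.coe_smul, Pi.add_apply, Pi.smul_apply, measure_univ, smul_eq_mul,
    mul_one]
  rw [← ENNReal.ofReal_add hp (by linarith)]
  simp

/-- product Bernoulli measure on environments -/
noncomputable def nuE (G : SimpleGraph V) (p : ℝ) : Measure (Env G) :=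
  Measure.infinitePi fun _ : G.edgeSet => bern p

lemma nuE_cyl (hp : 0 ≤ p) (hp1 : p ≤ 1) (F : Finset G.edgeSet) (ξ : {e // e ∈ F} → Bool) :
    nuE G p {η | res F η = ξ} = ENNReal.ofReal (piW p ξ) := by
  have := bern_prob hp hp1
  have e1 : {η : Env G | res F η = ξ} = Set.pi (F : Set G.edgeSet) (fun e => {ext F ξ e}) := by
    ext η
    simp only [Set.mem_ofPred_eq, Set.mem_pi, Finset.mem_coe, Set.mem_singleton_iff]
    constructor
    · intro h e he
      rw [← h]; simp [ext, res, he]
    · intro h; funext e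
      have := h e.1 e.2
      simpa [res, ext] using this
  rw [e1]
  unfold nuE
  rw [Measure.infinitePi_pi _ (fun i _ => measurableSet_singleton _)]
  simp_rw [bern_singleton]
  rw [← ENNReal.ofReal_prod_of_nonneg (fun e _ => by split_ifs <;> linarith), ← Finset.prod_coe_sort F]
  unfold piW
  congr 1
  refine Finset.prod_congr rfl fun e _ => ?_
  simp [ext]

variable [MeasurableSpace V] [DiscreteMeasurableSpace V]

/-- reference measure: counting measure on vertices times the product Bernoulli measure -/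
noncomputable def m0 (G : SimpleGraph V) (p : ℝ) : Measure (V × Env G) :=
  Measure.sum fun x : V => (nuE G p).map (Prod.mk x)

lemma mset_cylr (x : V) (F : Finset G.edgeSet) (ξ : {e // e ∈ F} → Bool) :
    MeasurableSet {z : V × Env G | z.1 = x ∧ res F z.2 = ξ} := by
  have hm1 : MeasurableSet {z : V × Env G | z.1 = x} := mset_vertex _
  have hr : Measurable fun z : V × Env G => res F z.2 :=
    measurable_pi_lambda _ fun e => (measurable_pi_apply e.1).comp measurable_snd
  exact hm1.inter (hr (measurableSet_singleton ξ))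

lemma m0_cyl (hp : 0 ≤ p) (hp1 : p ≤ 1) (x : V) (F : Finset G.edgeSet) (ξ : {e // e ∈ F} → Bool) :
    m0 G p {z | z.1 = x ∧ res F z.2 = ξ} = ENNReal.ofReal (piW p ξ) := by
  unfold m0
  rw [Measure.sum_apply _ (mset_cylr x F ξ)]
  simp_rw [Measure.map_apply measurable_prodMk_left (mset_cylr x F ξ)]
  rw [tsum_eq_single x]
  · rw [← nuE_cyl hp hp1 F ξ]
    congr 1
    ext η
    simp
  · intro y hy
    have : (Prod.mk y ⁻¹' {z : V × Env G | z.1 = x ∧ res F z.2 = ξ}) = ∅ := by
      ext η; simp [hy]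
    rw [this, measure_empty]

lemma up_single {B : Finset V} {F : Finset G.edgeSet} (i : St B F) (z : V × Env G) :
    up (Pi.single i 1 : St B F → ℝ) z.1 z.2 =
      Set.indicator {z : V × Env G | z.1 = i.1.1 ∧ res F z.2 = i.2} (fun _ => (1 : ℝ)) z := by
  unfold up cB Set.indicator
  by_cases hz : z.1 ∈ B
  · rw [dif_pos hz]
    by_cases h2 : (⟨⟨z.1, hz⟩, res F z.2⟩ : St B F) = i
    · have h3 : z.1 = i.1.1 ∧ res F z.2 = i.2 := by rw [← h2]; exact ⟨rfl, rfl⟩
      rw [h2, Pi.single_eq_same]
      exact (if_pos h3).symm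
    · have h3 : ¬ (z.1 = i.1.1 ∧ res F z.2 = i.2) := fun h4 =>
        h2 (Prod.ext (Subtype.ext h4.1) h4.2)
      rw [Pi.single_eq_of_ne h2]
      exact (if_neg h3).symm
  · rw [dif_neg hz]
    refine (if_neg ?_).symm
    rintro ⟨h1, _⟩
    exact hz (h1 ▸ i.1.2)

lemma integrable_single (hp : 0 ≤ p) (hp1 : p ≤ 1) {B : Finset V} {F : Finset G.edgeSet} (i : St B F) :
    Integrable (fun z : V × Env G => up (Pi.single i 1 : St B F → ℝ) z.1 z.2) (m0 G p) := by
  simp_rw [up_single]
  rw [integrable_indicator_iff (mset_cylr _ _ _)]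
  refine integrableOn_const (by rw [m0_cyl hp hp1]; exact ENNReal.ofReal_ne_top) (by simp)

lemma integral_single (hp : 0 ≤ p) (hp1 : p ≤ 1) {B : Finset V} {F : Finset G.edgeSet} (i : St B F) :
    ∫ z, up (Pi.single i 1 : St B F → ℝ) z.1 z.2 ∂(m0 G p) = piW p i.2 := by
  simp_rw [up_single]
  rw [integral_indicator_const _ (mset_cylr _ _ _), smul_eq_mul, mul_one]
  unfold Measure.real
  rw [m0_cyl hp hp1, ENNReal.toReal_ofReal (piW_nonneg hp hp1 _)]

lemma integrable_m0 (hp : 0 ≤ p) (hp1 : p ≤ 1) {B : Finset V} {F : Finset G.edgeSet} (c : St B F → ℝ) :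
    Integrable (fun z : V × Env G => up c z.1 z.2) (m0 G p) := by
  simp_rw [up_sum c]
  exact integrable_finsetSum _ fun i _ => (integrable_single hp hp1 i).const_mul _

lemma integral_m0 (hp : 0 ≤ p) (hp1 : p ≤ 1) {B : Finset V} {F : Finset G.edgeSet} (c : St B F → ℝ) :
    ∫ z, up c z.1 z.2 ∂(m0 G p) = ip (ww p) (fun _ => 1) c := by
  simp_rw [up_sum c]
  rw [integral_finsetSum _ fun i _ => (integrable_single hp hp1 i).const_mul _]
  unfold ip ww
  refine Finset.sum_congr rfl fun i _ => ?_
  rw [integral_const_mul, integral_single hp hp1]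
  ring

/-- measure with a finite volume density -/
noncomputable def rn (p : ℝ) {B : Finset V} {F : Finset G.edgeSet} (c : St B F → ℝ) :
    Measure (V × Env G) :=
  (m0 G p).withDensity fun z => ENNReal.ofReal (up c z.1 z.2)

lemma rn_univ (hp : 0 ≤ p) (hp1 : p ≤ 1) {B : Finset V} {F : Finset G.edgeSet} {c : St B F → ℝ}
    (hc : 0 ≤ c) : rn p c Set.univ = ENNReal.ofReal (ip (ww p) (fun _ => 1) c) := by
  unfold rn
  rw [withDensity_apply _ MeasurableSet.univ, Measure.restrict_univ,
    ← ofReal_integral_eq_lintegral_ofReal (integrable_m0 hp hp1 c) (ae_of_all _ fun z => up_nonneg hc _ _),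
    integral_m0 hp hp1]

lemma rn_finite (hp : 0 ≤ p) (hp1 : p ≤ 1) {B : Finset V} {F : Finset G.edgeSet} {c : St B F → ℝ}
    (hc : 0 ≤ c) : IsFiniteMeasure (rn p c) := by
  constructor
  rw [rn_univ hp hp1 hc]
  exact ENNReal.ofReal_lt_top

lemma integral_rn (hp : 0 ≤ p) (hp1 : p ≤ 1) {B : Finset V} {F : Finset G.edgeSet} {c : St B F → ℝ}
    (hc : 0 ≤ c) (d : St B F → ℝ) : ∫ z, up d z.1 z.2 ∂(rn p c) = ip (ww p) d c := by
  unfold rn
  rw [integral_withDensity_eq_integral_toReal_smul ((measurable_up c).ennreal_ofReal)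
    (ae_of_all _ fun z => ENNReal.ofReal_lt_top)]
  have e1 : ∀ z : V × Env G, (ENNReal.ofReal (up c z.1 z.2)).toReal • up d z.1 z.2 =
      up (c * d) z.1 z.2 := by
    intro z
    rw [ENNReal.toReal_ofReal (up_nonneg hc _ _), smul_eq_mul]
    unfold up cB
    split_ifs <;> simp
  simp_rw [e1]
  rw [integral_m0 hp hp1]
  unfold ip
  refine Finset.sum_congr rfl fun i _ => ?_
  simp only [Pi.mul_apply]; ring

/-- comparison of integrals -/
lemma int_diff {Ω : Type*} [MeasurableSpace Ω] (m m' : Measure Ω) [IsFiniteMeasure m] [IsFiniteMeasure m']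
    (h : m ≤ m') {f : Ω → ℝ} (hf : Measurable f) {M : ℝ} (hM : ∀ z, |f z| ≤ M) :
    |∫ z, f z ∂m' - ∫ z, f z ∂m| ≤ M * (m'.real Set.univ - m.real Set.univ) := by
  have hsub : m' - m + m = m' := Measure.sub_add_cancel_of_le h
  set κ := m' - m with hκ
  have hκf : IsFiniteMeasure κ := isFiniteMeasure_of_le m' Measure.sub_le
  have hi : ∀ (n : Measure Ω) [IsFiniteMeasure n], Integrable f n := fun n _ =>
    Integrable.of_bound hf.aestronglyMeasurable M (ae_of_all _ fun z => by simpa using hM z)
  have h1 : ∫ z, f z ∂m' = ∫ z, f z ∂κ + ∫ z, f z ∂m := by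
    rw [← hsub, integral_add_measure (hi κ) (hi m)]
  have h2 : m'.real Set.univ = κ.real Set.univ + m.real Set.univ := by
    rw [← hsub, measureReal_add_apply]
  rw [h1, h2, add_sub_cancel_right, add_sub_cancel_right]
  have := norm_integral_le_of_norm_le_const (μ := κ) (f := f) (C := M)
    (ae_of_all _ fun z => by simpa using hM z)
  simpa using this

end Pool.Agent.Hhelper95.RWDP
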