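import Pool.Agent.Hhelper95.RWDP.Energy

/-!
# Trace inequalities in finite volume
-/

open Finset Classical

set_option linter.unusedSectionVars false

namespace Pool.Agent.Hhelper95.RWDP

open Sg Spectral

universe u

variable {V : Type u} {G : SimpleGraph V} [G.LocallyFinite]

/-- extension by zero -/
noncomputable def zx (B : Finset V) (u : {x // x ∈ B} → ℝ) (y : V) : ℝ :=
  if h : y ∈ B then u ⟨y, h⟩ else 0

lemma zx_mem {B : Finset V} (u : {x // x ∈ B} → ℝ) {y : V} (hy : y ∈ B) : zx B u y = u ⟨y, hy⟩ := by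
  simp [zx, hy]

lemma zx_not_mem {B : Finset V} (u : {x // x ∈ B} → ℝ) {y : V} (hy : y ∉ B) : zx B u y = 0 := by
  simp [zx, hy]

lemma zx_add (B : Finset V) (u v : {x // x ∈ B} → ℝ) (y : V) : zx B (u + v) y = zx B u y + zx B v y := by
  unfold zx; split_ifs <;> simp

lemma zx_smul (B : Finset V) (a : ℝ) (u : {x // x ∈ B} → ℝ) (y : V) : zx B (a • u) y = a * zx B u y := by
  unfold zx; split_ifs <;> simp

/-- generator of simple random walk killed outside `B` -/
noncomputable def AA (G : SimpleGraph V) [G.LocallyFinite] (B : Finset V) :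
    ({x // x ∈ B} → ℝ) →ₗ[ℝ] ({x // x ∈ B} → ℝ) where
  toFun u := fun x => ∑ y ∈ G.neighborFinset x.1, (zx B u y - u x)
  map_add' u v := by
    funext x
    simp only [Pi.add_apply]
    rw [← Finset.sum_add_distrib]
    refine Finset.sum_congr rfl fun y _ => ?_
    rw [zx_add]; ring
  map_smul' a u := by
    funext x
    simp only [Pi.smul_apply, smul_eq_mul, RingHom.id_apply]
    rw [Finset.mul_sum]
    refine Finset.sum_congr rfl fun y _ => ?_
    rw [zx_smul]; ring

lemma AA_apply (B : Finset V) (u : {x // x ∈ B} → ℝ) (x : {x // x ∈ B}) :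
    AA G B u x = ∑ y ∈ G.neighborFinset x.1, (zx B u y - u x) := rfl

/-- unweighted inner product on `B` -/
lemma ip_one (B : Finset V) (u v : {x // x ∈ B} → ℝ) :
    ip (fun _ => 1) u v = ∑ x ∈ B, zx B u x * zx B v x := by
  unfold ip
  rw [← Finset.sum_coe_sort B]
  refine Finset.sum_congr rfl fun x _ => ?_
  rw [zx_mem u x.2, zx_mem v x.2, one_mul]

lemma zx_AA (B : Finset V) (u : {x // x ∈ B} → ℝ) {x : V} (hx : x ∈ B) :
    zx B (AA G B u) x = ∑ y ∈ G.neighborFinset x, aA G x y * (zx B u y - zx B u x) := by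
  rw [zx_mem _ hx, AA_apply]
  refine Finset.sum_congr rfl fun y hy => ?_
  have hadj : G.Adj x y := by simpa using hy
  simp only [aA, hadj, if_true, one_mul, zx_mem u hx]

lemma AA_symm (B : Finset V) (u v : {x // x ∈ B} → ℝ) :
    ip (fun _ => 1) (AA G B u) v = ip (fun _ => 1) u (AA G B v) := by
  rw [ip_one, ip_one]
  have h := walk_symm (G := G) B (aA G) aA_symm aA_zero (zx B u) (zx B v)
    (fun y hy => zx_not_mem u hy) (fun y hy => zx_not_mem v hy)
  have h1 : ∑ x ∈ B, zx B (AA G B u) x * zx B v x =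
      ∑ x ∈ B, (∑ y ∈ G.neighborFinset x, aA G x y * (zx B u y - zx B u x)) * zx B v x :=
    Finset.sum_congr rfl fun x hx => by rw [zx_AA B u hx]
  have h2 : ∑ x ∈ B, zx B u x * zx B (AA G B v) x =
      ∑ x ∈ B, zx B u x * ∑ y ∈ G.neighborFinset x, aA G x y * (zx B v y - zx B v x) :=
    Finset.sum_congr rfl fun x hx => by rw [zx_AA B v hx]
  rw [h1, h2]
  exact h

lemma ip_neg_AA (B : Finset V) (u : {x // x ∈ B} → ℝ) :
    - ip (fun _ => 1) u (AA G B u) = En G B (aA G) (zx B u) := by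
  rw [ip_one, ← walk_energy B (aA G) aA_symm aA_zero (zx B u) (fun y hy => zx_not_mem u hy),
    ← Finset.sum_neg_distrib]
  refine Finset.sum_congr rfl fun x hx => ?_
  rw [zx_AA B u hx, ← mul_neg, ← Finset.sum_neg_distrib]
  congr 1
  exact Finset.sum_congr rfl fun y _ => by ring

lemma En_nonneg (B : Finset V) (f : V → ℝ) : 0 ≤ En G B (aA G) f := by
  unfold En
  refine Finset.sum_nonneg fun x _ => Finset.sum_nonneg fun y _ =>
    mul_nonneg (mul_nonneg ?_ (kap_nonneg _ _)) (sq_nonneg _)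
  unfold aA; split_ifs <;> norm_num

/-- continuous versions -/
noncomputable def GGc (μ p : ℝ) (B : Finset V) (F : Finset G.edgeSet) :
    (St B F → ℝ) →L[ℝ] (St B F → ℝ) := LinearMap.toContinuousLinearMap (GG μ p B F)

noncomputable def AAc (G : SimpleGraph V) [G.LocallyFinite] (B : Finset V) :
    ({x // x ∈ B} → ℝ) →L[ℝ] ({x // x ∈ B} → ℝ) := LinearMap.toContinuousLinearMap (AA G B)

lemma GGc_apply (μ p : ℝ) (B : Finset V) (F : Finset G.edgeSet) (c : St B F → ℝ) :
    GGc μ p B F c = GG μ p B F c := rfl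

lemma AAc_apply (B : Finset V) (c : {x // x ∈ B} → ℝ) : AAc G B c = AA G B c := rfl

/-- lift of a function of the vertex -/
def lift {B : Finset V} (F : Finset G.edgeSet) (u : {x // x ∈ B} → ℝ) : St B F → ℝ := fun i => u i.1

/-- indicator of a vertex -/
noncomputable def dl {B : Finset V} (x : {x // x ∈ B}) : {x // x ∈ B} → ℝ := fun y => if y = x then 1 else 0

/-- finite volume annealed return probability -/
noncomputable def Qf (μ p : ℝ) (B : Finset V) (F : Finset G.edgeSet) (t : ℝ) (x : {x // x ∈ B}) : ℝ :=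
  EE p (fun ξ => sg (GGc μ p B F) t (lift F (dl x)) (x, ξ))

/-- finite volume return probability of simple random walk -/
noncomputable def Pf (G : SimpleGraph V) [G.LocallyFinite] (B : Finset V) (t : ℝ) (x : {x // x ∈ B}) : ℝ :=
  sg (AAc G B) t (dl x) x

lemma cB_lift {B : Finset V} (F : Finset G.edgeSet) (u : {x // x ∈ B} → ℝ) (x : V)
    (ξ : {e // e ∈ F} → Bool) : cB (lift F u) x ξ = zx B u x := by
  unfold cB zx lift; rfl

lemma zx_dl {B : Finset V} (x : {x // x ∈ B}) (y : V) : zx B (dl x) y = if y = x.1 then 1 else 0 := by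
  unfold zx dl
  by_cases hy : y ∈ B
  · simp only [hy, dif_pos]
    by_cases h : y = x.1
    · subst h; simp
    · rw [if_neg (fun hh => h (congrArg Subtype.val hh)), if_neg h]
  · rw [dif_neg hy, if_neg (fun h : y = x.1 => hy (h ▸ x.2))]

/-- pairing with a lift -/
lemma ip_lift (p : ℝ) {B : Finset V} {F : Finset G.edgeSet} (f : St B F → ℝ) (u : {x // x ∈ B} → ℝ) :
    ip (ww p) f (lift F u) = ∑ x ∈ B, bar p f x * zx B u x := by
  rw [ip_eq]
  refine Finset.sum_congr rfl fun x _ => ?_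
  unfold bar
  rw [mul_comm, ← EE_mul_left]
  congr 1; funext ξ; rw [cB_lift]; ring

lemma bar_lift (p : ℝ) {B : Finset V} {F : Finset G.edgeSet} (u : {x // x ∈ B} → ℝ) (x : V) :
    bar p (lift F u) x = zx B u x := by
  unfold bar
  have : (fun ξ => cB (lift F u) x ξ) = fun _ => zx B u x := funext fun ξ => cB_lift F u x ξ
  rw [this, EE_const]

lemma Qf_eq (μ p : ℝ) (B : Finset V) (F : Finset G.edgeSet) (t : ℝ) (x : {x // x ∈ B}) :
    Qf μ p B F t x = ip (ww p) (lift F (dl x)) (sg (GGc μ p B F) t (lift F (dl x))) := by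
  rw [ip_comm, ip_lift]
  simp only [zx_dl, mul_ite, mul_one, mul_zero, Finset.sum_ite_eq', x.2, if_true]
  unfold Qf bar
  congr 1; funext ξ; rw [cB_mem _ x.2]

lemma Pf_eq (B : Finset V) (t : ℝ) (x : {x // x ∈ B}) :
    Pf G B t x = ip (fun _ => 1) (dl x) (sg (AAc G B) t (dl x)) := by
  rw [ip_comm]
  unfold ip Pf dl
  simp

/-- energy of a lift -/
lemma energy_lift (μ p : ℝ) {B : Finset V} {F : Finset G.edgeSet} (hF : Covers B F)
    (u : {x // x ∈ B} → ℝ) :
    - ip (ww p) (lift F u) (GG μ p B F (lift F u)) = p * En G B (aA G) (zx B u) := by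
  rw [ip_neg_GG]
  have h1 : ∀ x, ∀ e : {e // e ∈ F}, EE p (fun ξ => cB (lift F u) x ξ *
      (cB (lift F u) x ξ - pe p e (cB (lift F u) x) ξ)) = 0 := by
    intro x e
    have : (fun ξ => cB (lift F u) x ξ * (cB (lift F u) x ξ - pe p e (cB (lift F u) x) ξ)) =
        fun _ => (0 : ℝ) := by
      funext ξ
      simp only [pe, cB_lift]; ring
    rw [this, EE_const]
  simp only [h1, Finset.sum_const_zero, mul_zero, add_zero]
  unfold En
  simp only [cB_lift]
  rw [EE_sum, Finset.mul_sum]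
  refine Finset.sum_congr rfl fun x hx => ?_
  rw [EE_sum, Finset.mul_sum]
  refine Finset.sum_congr rfl fun y hy => ?_
  have hadj : G.Adj x y := by simpa using hy
  have h2 := EE_mul_left p (kap B y * (zx B u x - zx B u y) ^ 2) (fun ξ => aO F ξ x y)
  rw [EE_aO p hF hx hadj] at h2
  have ha : aA G x y = 1 := by simp [aA, hadj]
  rw [ha]
  calc EE p (fun ξ => aO F ξ x y * kap B y * (zx B u x - zx B u y) ^ 2)
      = EE p (fun ξ => kap B y * (zx B u x - zx B u y) ^ 2 * aO F ξ x y) := by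
        congr 1; funext ξ; ring
    _ = _ := by rw [h2]; ring

/-- spectral data for `-AA` -/
lemma AA_spec (G : SimpleGraph V) [G.LocallyFinite] (B : Finset V) :
    ∃ (n : ℕ) (a : Fin n → {x // x ∈ B} → ℝ) (al : Fin n → ℝ),
      (∀ i, (-AA G B) (a i) = al i • a i) ∧
      (∀ i j, ip (fun _ => 1) (a i) (a j) = if i = j then 1 else 0) ∧
      ∀ f, f = ∑ i, ip (fun _ => 1) (a i) f • a i := by
  refine spectral (fun _ => 1) (fun _ => one_pos) (-AA G B) fun f g => ?_
  have h := AA_symm (G := G) B f g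
  have e1 : ip (fun _ => 1) ((-AA G B) f) g = - ip (fun _ => 1) (AA G B f) g := by
    have := ip_smul_right (fun _ => (1 : ℝ)) g (AA G B f) (-1)
    rw [neg_one_smul] at this
    rw [ip_comm, LinearMap.neg_apply, this, ip_comm]; ring
  have e2 : ip (fun _ => 1) f ((-AA G B) g) = - ip (fun _ => 1) f (AA G B g) := by
    have := ip_smul_right (fun _ => (1 : ℝ)) f (AA G B g) (-1)
    rw [neg_one_smul] at this
    rw [LinearMap.neg_apply, this]; ring
  rw [e1, e2, h]

lemma GG_spec {μ p : ℝ} (hp : 0 < p) (hp1 : p < 1) (B : Finset V) (F : Finset G.edgeSet) :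
    ∃ (n : ℕ) (b : Fin n → St B F → ℝ) (l : Fin n → ℝ),
      (∀ i, (-GG μ p B F) (b i) = l i • b i) ∧
      (∀ i j, ip (ww p) (b i) (b j) = if i = j then 1 else 0) ∧
      ∀ f, f = ∑ i, ip (ww p) (b i) f • b i := by
  refine spectral (ww p) (fun i => piW_pos hp hp1 i.2) (-GG μ p B F) fun f g => ?_
  have h := GG_symm (G := G) μ p f g
  have e1 : ip (ww p) ((-GG μ p B F) f) g = - ip (ww p) (GG μ p B F f) g := by
    have := ip_smul_right (ww p) g (GG μ p B F f) (-1)
    rw [neg_one_smul] at this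
    rw [ip_comm, LinearMap.neg_apply, this, ip_comm]; ring
  have e2 : ip (ww p) f ((-GG μ p B F) g) = - ip (ww p) f (GG μ p B F g) := by
    have := ip_smul_right (ww p) f (GG μ p B F g) (-1)
    rw [neg_one_smul] at this
    rw [LinearMap.neg_apply, this]; ring
  rw [e1, e2, h]

end Pool.Agent.Hhelper95.RWDP
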