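import Pool.Agent.Hhelper95.RWDP.Trace

/-!
# The two trace inequalities and exponential bounds
-/

open Finset Classical

set_option linter.unusedSectionVars false

namespace Pool.Agent.Hhelper95.RWDP

open Sg Spectral

universe u

variable {V : Type u} {G : SimpleGraph V} [G.LocallyFinite]

/-- the comparison constant -/
noncomputable def cst (μ p : ℝ) (D : ℕ) : ℝ := p / (3 + 8 * D / μ)

lemma cst_pos {μ p : ℝ} (hμ : 0 < μ) (hp : 0 < p) (D : ℕ) : 0 < cst μ p D := by
  unfold cst; positivity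

lemma energy_bound' {μ p : ℝ} (hμ : 0 < μ) (hp : 0 < p) (hp1 : p ≤ 1) {B : Finset V}
    {F : Finset G.edgeSet} (hF : Covers B F) {D : ℕ} (hD : ∀ x, G.degree x ≤ D) (f : St B F → ℝ) :
    cst μ p D * (En G B (aA G) (bar p f) + μ * (ip (ww p) f f - ∑ x ∈ B, bar p f x ^ 2)) ≤
      - ip (ww p) f (GG μ p B F f) := by
  have h := energy_bound hμ hp hp1 hF hD f
  have hpos : 0 < 3 + 8 * (D : ℝ) / μ := by positivity
  unfold cst
  rw [div_mul_eq_mul_div, div_le_iff₀ hpos]
  linarith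

/-- restriction of `bar` to `B` -/
noncomputable def barB (p : ℝ) {B : Finset V} {F : Finset G.edgeSet} (f : St B F → ℝ) :
    {x // x ∈ B} → ℝ := fun x => bar p f x.1

lemma zx_barB (p : ℝ) {B : Finset V} {F : Finset G.edgeSet} (f : St B F → ℝ) :
    zx B (barB p f) = bar p f := by
  funext y
  by_cases hy : y ∈ B
  · rw [zx_mem _ hy]; rfl
  · rw [zx_not_mem _ hy, bar_not_mem p f hy]

lemma ip_lift' (p : ℝ) {B : Finset V} {F : Finset G.edgeSet} (f : St B F → ℝ) (u : {x // x ∈ B} → ℝ) :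
    ip (ww p) f (lift F u) = ip (fun _ => 1) u (barB p f) := by
  rw [ip_lift, ip_one, zx_barB]
  exact Finset.sum_congr rfl fun x _ => mul_comm _ _

lemma sum_bar_le {p : ℝ} (hp : 0 ≤ p) (hp1 : p ≤ 1) {B : Finset V} {F : Finset G.edgeSet}
    (f : St B F → ℝ) : ∑ x ∈ B, bar p f x ^ 2 ≤ ip (ww p) f f := by
  have h := sum_vr p f
  have h0 : 0 ≤ ∑ x ∈ B, vr p f x := Finset.sum_nonneg fun x _ => vr_nonneg hp hp1 f x
  linarith

lemma sum_dl {B : Finset V} (p : ℝ) {F : Finset G.edgeSet} (f : St B F → ℝ) :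
    ∑ x : {x // x ∈ B}, (ip (ww p) f (lift F (dl x))) ^ 2 = ∑ x ∈ B, bar p f x ^ 2 := by
  rw [← Finset.sum_coe_sort B]
  refine Finset.sum_congr rfl fun x _ => ?_
  rw [ip_lift]
  simp only [zx_dl, mul_ite, mul_one, mul_zero, Finset.sum_ite_eq', x.2, if_true]

lemma sum_dl' {B : Finset V} (f : {x // x ∈ B} → ℝ) :
    ∑ x : {x // x ∈ B}, (ip (fun _ => 1) f (dl x)) ^ 2 = ip (fun _ => 1) f f := by
  unfold ip dl
  refine Finset.sum_congr rfl fun x _ => ?_
  simp; ring

lemma AAc_neg (B : Finset V) (f : {x // x ∈ B} → ℝ) : AAc G B f = -((-AA G B) f) := by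
  rw [LinearMap.neg_apply, neg_neg]; rfl

lemma GGc_neg (μ p : ℝ) (B : Finset V) (F : Finset G.edgeSet) (f : St B F → ℝ) :
    GGc μ p B F f = -((-GG μ p B F) f) := by
  rw [LinearMap.neg_apply, neg_neg]; rfl

lemma ip_neg_right {S : Type*} [Fintype S] (w f g : S → ℝ) : ip w f (-g) = - ip w f g := by
  have := ip_smul_right w f g (-1)
  rw [neg_one_smul] at this
  rw [this]; ring

/-- Both trace inequalities. -/
theorem trace_ineq {μ p : ℝ} (hμ : 0 < μ) (hp : 0 < p) (hp1 : p < 1) {B : Finset V}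
    {F : Finset G.edgeSet} (hF : Covers B F) {D : ℕ} (hD : ∀ x, G.degree x ≤ D) {t : ℝ} (ht : 0 ≤ t) :
    ∑ x, Pf G B (p * t) x ≤ ∑ x, Qf μ p B F t x ∧
    ∑ x, Qf μ p B F t x ≤ ∑ x, Pf G B (cst μ p D * t) x +
      B.card * Real.exp (-(t * (cst μ p D * μ))) := by
  obtain ⟨n, a, al, ha, hao, hac⟩ := AA_spec G B
  obtain ⟨N, b, l, hb, hbo, hbc⟩ := GG_spec (G := G) (μ := μ) hp hp1 B F
  -- orthonormality counts
  have hPsum : ∀ s, ∑ x, Pf G B s x = ∑ j, Real.exp (-(s * al j)) := by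
    intro s
    have h1 : ∀ x, Pf G B s x = ∑ j, Real.exp (-(s * al j)) * (ip (fun _ => 1) (a j) (dl x)) ^ 2 := by
      intro x
      rw [Pf_eq, ip_sg_spec (AAc G B) (AAc_neg B) hac ha]
    simp_rw [h1]
    rw [Finset.sum_comm]
    refine Finset.sum_congr rfl fun j _ => ?_
    rw [← Finset.mul_sum, sum_dl', hao, if_pos rfl, mul_one]
  set m : Fin N → Fin n → ℝ := fun i j => (ip (ww p) (b i) (lift F (a j))) ^ 2 with hm
  have hmj : ∀ i, ∑ j, m i j = ∑ x ∈ B, bar p (b i) x ^ 2 := by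
    intro i
    have h1 := parseval hac (barB p (b i)) (barB p (b i))
    rw [ip_one, zx_barB] at h1
    have h2 : ∑ x ∈ B, bar p (b i) x * bar p (b i) x = ∑ x ∈ B, bar p (b i) x ^ 2 :=
      Finset.sum_congr rfl fun x _ => by ring
    rw [← h2, h1]
    refine Finset.sum_congr rfl fun j _ => ?_
    simp only [hm, ip_lift']
    ring
  have hmi : ∀ j, ∑ i, m i j = 1 := by
    intro j
    have h1 := parseval hbc (lift F (a j)) (lift F (a j))
    have h2 : ip (ww p) (lift F (a j)) (lift F (a j)) = 1 := by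
      rw [ip_lift, ← hao j j |>.trans (if_pos rfl), ip_one]
      exact Finset.sum_congr rfl fun x _ => by rw [bar_lift]
    rw [h2] at h1
    rw [h1]
    exact Finset.sum_congr rfl fun i _ => by simp only [hm]; ring
  have hQsum : ∑ x, Qf μ p B F t x = ∑ i, Real.exp (-(t * l i)) * ∑ j, m i j := by
    have h1 : ∀ x, Qf μ p B F t x = ∑ i, Real.exp (-(t * l i)) * (ip (ww p) (b i) (lift F (dl x))) ^ 2 := by
      intro x
      rw [Qf_eq, ip_sg_spec (GGc μ p B F) (GGc_neg μ p B F) hbc hb]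
    simp_rw [h1]
    rw [Finset.sum_comm]
    refine Finset.sum_congr rfl fun i _ => ?_
    rw [← Finset.mul_sum, sum_dl, hmj]
  have hm0 : ∀ i j, 0 ≤ m i j := fun i j => sq_nonneg _
  have hm1 : ∀ i, ∑ j, m i j ≤ 1 := by
    intro i
    rw [hmj]
    have := sum_bar_le hp.le hp1.le (b i)
    rw [hbo i i, if_pos rfl] at this
    exact this
  have hal : ∀ u : {x // x ∈ B} → ℝ, En G B (aA G) (zx B u) = ∑ j, al j * (ip (fun _ => 1) (a j) u) ^ 2 := by
    intro u
    rw [← ip_neg_AA, ← quad_spec hac ha u, LinearMap.neg_apply, ip_neg_right]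
  refine ⟨?_, ?_⟩
  · rw [hPsum, hQsum]
    have hlm : ∀ j, ∑ i, l i * m i j = p * al j := by
      intro j
      have h1 := quad_spec hbc hb (lift F (a j))
      rw [LinearMap.neg_apply, ip_neg_right, energy_lift μ p hF, hal] at h1
      rw [← h1]
      congr 1
      simp only [hao]
      simp
    have h2 := berezin m hm0 hmi l (fun j => p * al j) hlm t
    refine le_trans (le_of_eq ?_) h2
    exact Finset.sum_congr rfl fun j _ => by congr 1; ring
  · rw [hPsum, hQsum]
    have hl : ∀ i, ∑ j, (cst μ p D * al j) * m i j + (cst μ p D * μ) * (1 - ∑ j, m i j) ≤ l i := by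
      intro i
      have h1 := energy_bound' hμ hp hp1.le hF hD (b i)
      have h2 := eigen_quad hbo hb i
      rw [LinearMap.neg_apply, ip_neg_right] at h2
      rw [h2, hbo i i, if_pos rfl, ← zx_barB, hal] at h1
      refine le_trans (le_of_eq ?_) h1
      have h3 : ∑ j, al j * (ip (fun _ => 1) (a j) (barB p (b i))) ^ 2 = ∑ j, al j * m i j :=
        Finset.sum_congr rfl fun j _ => by simp only [hm, ip_lift']
      rw [h3, zx_barB, ← hmj, mul_add, Finset.mul_sum]
      congr 1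
      · exact Finset.sum_congr rfl fun j _ => by ring
      · ring
    have h3 := upper m hm0 hmi hm1 l (fun j => cst μ p D * al j) (cst μ p D * μ) hl ht
    refine h3.trans ?_
    have hcard : (Fintype.card (Fin n) : ℝ) = B.card := by
      have : ∑ j : Fin n, ∑ x : {x // x ∈ B}, (ip (fun _ => 1) (a j) (dl x)) ^ 2 = (Fintype.card (Fin n) : ℝ) := by
        simp_rw [sum_dl', hao]
        simp
      rw [← this, Finset.sum_comm]
      have h4 : ∀ x : {x // x ∈ B}, ∑ j : Fin n, (ip (fun _ => 1) (a j) (dl x)) ^ 2 = 1 := by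
        intro x
        have h5 := parseval hac (dl x) (dl x)
        have h6 : ip (fun _ => 1) (dl x) (dl x) = 1 := by unfold ip dl; simp
        rw [h6] at h5
        refine Eq.trans ?_ h5.symm
        exact Finset.sum_congr rfl fun j _ => by ring
      simp_rw [h4]
      simp
    rw [hcard]
    refine add_le_add_left (le_of_eq ?_) _
    exact Finset.sum_congr rfl fun j _ => by congr 1; ring

/-- Exponential decay of the finite volume annealed return probability under a spectral gap. -/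
theorem Qf_exp {μ p : ℝ} (hμ : 0 < μ) (hp : 0 < p) (hp1 : p < 1) {B : Finset V}
    {F : Finset G.edgeSet} (hF : Covers B F) {D : ℕ} (hD : ∀ x, G.degree x ≤ D) {lam : ℝ}
    (hlam : ∀ u : {x // x ∈ B} → ℝ, lam * ip (fun _ => 1) u u ≤ En G B (aA G) (zx B u))
    {t : ℝ} (ht : 0 ≤ t) (x : {x // x ∈ B}) :
    Qf μ p B F t x ≤ Real.exp (-(t * (cst μ p D * min lam μ))) := by
  obtain ⟨N, b, l, hb, hbo, hbc⟩ := GG_spec (G := G) (μ := μ) hp hp1 B F
  have hc := cst_pos hμ hp D
  have hl : ∀ i, cst μ p D * min lam μ ≤ l i := by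
    intro i
    have h1 := energy_bound' hμ hp hp1.le hF hD (b i)
    have h2 := eigen_quad hbo hb i
    rw [LinearMap.neg_apply, ip_neg_right] at h2
    rw [h2, hbo i i, if_pos rfl] at h1
    refine le_trans (mul_le_mul_of_nonneg_left ?_ hc.le) h1
    have h3 := hlam (barB p (b i))
    rw [ip_one, zx_barB] at h3
    have h4 : ∑ x ∈ B, bar p (b i) x * bar p (b i) x = ∑ x ∈ B, bar p (b i) x ^ 2 :=
      Finset.sum_congr rfl fun x _ => by ring
    rw [h4] at h3
    have h5 := sum_bar_le hp.le hp1.le (b i)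
    rw [hbo i i, if_pos rfl] at h5
    have h6 : 0 ≤ ∑ x ∈ B, bar p (b i) x ^ 2 := Finset.sum_nonneg fun x _ => sq_nonneg _
    set s := ∑ x ∈ B, bar p (b i) x ^ 2
    have h7 : min lam μ * s ≤ lam * s := mul_le_mul_of_nonneg_right (min_le_left _ _) h6
    have h8 : min lam μ * (1 - s) ≤ μ * (1 - s) :=
      mul_le_mul_of_nonneg_right (min_le_right _ _) (by linarith)
    nlinarith
  rw [Qf_eq, ip_sg_spec (GGc μ p B F) (GGc_neg μ p B F) hbc hb]
  have h1 := parseval hbc (lift F (dl x)) (lift F (dl x))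
  have h2 : ip (ww p) (lift F (dl x)) (lift F (dl x)) = 1 := by
    rw [ip_lift]
    simp only [zx_dl, mul_ite, mul_one, mul_zero, Finset.sum_ite_eq', x.2, if_true, bar_lift]
  rw [h2] at h1
  calc ∑ i, Real.exp (-(t * l i)) * (ip (ww p) (b i) (lift F (dl x))) ^ 2
      ≤ ∑ i, Real.exp (-(t * (cst μ p D * min lam μ))) * (ip (ww p) (b i) (lift F (dl x))) ^ 2 := by
        refine Finset.sum_le_sum fun i _ => mul_le_mul_of_nonneg_right ?_ (sq_nonneg _)
        exact Real.exp_le_exp.mpr (neg_le_neg (mul_le_mul_of_nonneg_left (hl i) ht))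
    _ = _ := by
        rw [← Finset.mul_sum]
        have : ∑ i, (ip (ww p) (b i) (lift F (dl x))) ^ 2 = 1 := by
          rw [h1]; exact Finset.sum_congr rfl fun i _ => by ring
        rw [this, mul_one]

/-- Exponential decay for simple random walk. -/
theorem Pf_exp {B : Finset V} {lam : ℝ}
    (hlam : ∀ u : {x // x ∈ B} → ℝ, lam * ip (fun _ => 1) u u ≤ En G B (aA G) (zx B u))
    {t : ℝ} (ht : 0 ≤ t) (x : {x // x ∈ B}) : Pf G B t x ≤ Real.exp (-(t * lam)) := by
  obtain ⟨n, a, al, ha, hao, hac⟩ := AA_spec G B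
  have hl : ∀ i, lam ≤ al i := by
    intro i
    have h1 := hlam (a i)
    rw [hao i i, if_pos rfl, mul_one, ← ip_neg_AA] at h1
    have h2 := eigen_quad hao ha i
    rw [LinearMap.neg_apply, ip_neg_right] at h2
    linarith
  rw [Pf_eq, ip_sg_spec (AAc G B) (AAc_neg B) hac ha]
  have h5 := parseval hac (dl x) (dl x)
  have h6 : ip (fun _ => 1) (dl x) (dl x) = 1 := by unfold ip dl; simp
  rw [h6] at h5
  calc ∑ i, Real.exp (-(t * al i)) * (ip (fun _ => 1) (a i) (dl x)) ^ 2
      ≤ ∑ i, Real.exp (-(t * lam)) * (ip (fun _ => 1) (a i) (dl x)) ^ 2 := by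
        refine Finset.sum_le_sum fun i _ => mul_le_mul_of_nonneg_right ?_ (sq_nonneg _)
        exact Real.exp_le_exp.mpr (neg_le_neg (mul_le_mul_of_nonneg_left (hl i) ht))
    _ = _ := by
        rw [← Finset.mul_sum]
        have : ∑ i, (ip (fun _ => 1) (a i) (dl x)) ^ 2 = 1 := by
          refine Eq.trans ?_ h5.symm
          exact Finset.sum_congr rfl fun i _ => by ring
        rw [this, mul_one]

/-- Monotonicity in time for simple random walk. -/
theorem Pf_antitone {B : Finset V} {s t : ℝ} (hst : s ≤ t) (x : {x // x ∈ B}) :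
    Pf G B t x ≤ Pf G B s x := by
  obtain ⟨n, a, al, ha, hao, hac⟩ := AA_spec G B
  have hl : ∀ i, 0 ≤ al i := by
    intro i
    have h2 := eigen_quad hao ha i
    rw [LinearMap.neg_apply, ip_neg_right] at h2
    rw [← h2, ip_neg_AA]
    exact En_nonneg _ _
  rw [Pf_eq, Pf_eq, ip_sg_spec (AAc G B) (AAc_neg B) hac ha, ip_sg_spec (AAc G B) (AAc_neg B) hac ha]
  refine Finset.sum_le_sum fun i _ => mul_le_mul_of_nonneg_right ?_ (sq_nonneg _)
  exact Real.exp_le_exp.mpr (neg_le_neg (mul_le_mul_of_nonneg_right hst (hl i)))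

end Pool.Agent.Hhelper95.RWDP
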